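import Pool.Agent.Hp428.ST.Law

set_option autoImplicit false
set_option linter.unusedSectionVars false

/-!
# The bounds for products of characters
-/

namespace Pool.Agent.Hp428.ST

open Complex Filter Topology NumberField IsDedekindDomain MeasureTheory Pool.Agent.W540.BE
  Pool.Agent.TH553.RS Pool.Agent.H341R2 Pool.Agent.TH553.ST

section

theorem lim_bound {D e : ℝ} (hD : 0 ≤ D)
    (h : ∀ η : ℝ, 0 < η → ∃ I : ℝ, D - η ≤ I ∧ I ^ 2 + 4 * e ^ 2 ≤ 4) : D ^ 2 + 4 * e ^ 2 ≤ 4 := by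
  have h0 : 0 ≤ 4 - 4 * e ^ 2 := by
    obtain ⟨I, -, h1⟩ := h 1 one_pos
    nlinarith [sq_nonneg I]
  have h1 : D ≤ Real.sqrt (4 - 4 * e ^ 2) := by
    refine le_of_forall_pos_le_add fun η hη => ?_
    obtain ⟨I, h2, h3⟩ := h η hη
    have h4 : I ≤ Real.sqrt (4 - 4 * e ^ 2) := Real.le_sqrt_of_sq_le (by linarith)
    linarith
  have h2 := pow_le_pow_left₀ hD h1 2
  rw [Real.sq_sqrt h0] at h2
  linarith

theorem cut_abs (F η : ℝ) (hη : 0 < η) : |F| - η ≤ F * (F / (|F| + η)) ∧ |F / (|F| + η)| ≤ 1 := by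
  have h1 : 0 < |F| + η := by positivity
  constructor
  · rw [← mul_div_assoc, le_div_iff₀ h1]
    have : F * F = |F| * |F| := (abs_mul_abs_self F).symm
    nlinarith [sq_nonneg η]
  · rw [abs_div, abs_of_pos h1, div_le_one h1]
    linarith

theorem cut_pos (F η : ℝ) (hη : 0 < η) : max F 0 - η ≤ F * (max F 0 / (max F 0 + η)) ∧
    0 ≤ max F 0 / (max F 0 + η) ∧ |max F 0 / (max F 0 + η)| ≤ 1 := by
  have h0 : 0 ≤ max F 0 := le_max_right _ _
  have h1 : 0 < max F 0 + η := by positivity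
  refine ⟨?_, by positivity, ?_⟩
  · rw [← mul_div_assoc, le_div_iff₀ h1]
    rcases le_total F 0 with h | h
    · rw [max_eq_right h]
      nlinarith
    · rw [max_eq_left h]
      nlinarith [sq_nonneg η]
  · rw [abs_of_nonneg (by positivity), div_le_one h1]
    linarith

end

section

variable {K : Type} [Field K] [NumberField K]
variable {ι : Type} [DecidableEq ι] {G : ι → Type} [∀ i, Group (G i)]
  [∀ i, TopologicalSpace (G i)] [∀ i, IsTopologicalGroup (G i)] [∀ i, CompactSpace (G i)]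
  [∀ i, MeasurableSpace (G i)] [∀ i, BorelSpace (G i)]
  {x : HeightOneSpectrum (𝓞 K) → ∀ i, G i} {μ : ∀ i, Measure (G i)}
  [∀ i, IsProbabilityMeasure (μ i)] [∀ i, (μ i).IsHaarMeasure] {S : Finset ι}
  {m : (HeightOneSpectrum (𝓞 K) → ℝ) → ℝ}
  {d : ι → ℕ} {π : ∀ i, G i →* Matrix.unitaryGroup (Fin (d i)) ℂ}

theorem cont_n {i : ι} (hc : Continuous (π i)) : Continuous fun g => ‖chi (π i) g‖ :=
  (cont_chi hc).norm

/-- **From all proper subfamilies to the family.** -/
theorem bound_gen (hm : IsM m) (hc : ∀ i, Continuous (π i)) (hs : ∀ i, Schur (π i))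
    (hd : ∀ i, d i ≠ 0) {i k : ι} (hi : i ∈ S) (hk : k ∈ S) (hik : i ≠ k)
    (h1 : PLw m x μ (S.erase k)) (h2 : PLw m x μ {i, k}) :
    (∫ g, |‖chi (π i) g‖ ^ 2 - 1| ∂μ i) ^ 2 +
      4 * (m fun v => ∏ j ∈ S, ‖chi (π j) (x v j)‖) ^ 2 ≤ 4 := by
  have hcn : ∀ j, Continuous fun g => ‖chi (π j) g‖ := fun j => cont_n (hc j)
  set Y : HeightOneSpectrum (𝓞 K) → ℝ := fun v => ∏ j ∈ S.erase k, ‖chi (π j) (x v j)‖ with hY
  set C : HeightOneSpectrum (𝓞 K) → ℝ := fun v => ‖chi (π k) (x v k)‖ with hC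
  have hYb : Bd Y := bd_prod hcn _
  have hCb : Bd C := bd_one (hcn k)
  have hcls : ∀ (j : ι) (g h : G j), ‖chi (π j) (h * g * h⁻¹)‖ = ‖chi (π j) g‖ := fun j g h => by
    rw [chi_cls]
  have hYC : (fun v => Y v * C v) = fun v => ∏ j ∈ S, ‖chi (π j) (x v j)‖ := by
    funext v
    exact Finset.prod_erase_mul S _ hk
  have hY2 : (m fun v => Y v ^ 2) = 1 := by
    have h3 := h1 (fun j g => ‖chi (π j) g‖ ^ 2) (fun j => (hcn j).pow 2)
      (fun j g h => by rw [hcls])
    have e : (fun v => Y v ^ 2) = fun v => ∏ j ∈ S.erase k, ‖chi (π j) (x v j)‖ ^ 2 := by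
      funext v
      rw [hY]
      exact (Finset.prod_pow _ _ _).symm
    rw [e, h3]
    exact Finset.prod_eq_one fun j _ => int_sq (hc j) (hs j) (hd j)
  have hC2 : (m fun v => C v ^ 2) = 1 := by
    have h3 := h2.right hik (g := fun g => ‖chi (π k) g‖ ^ 2) ((hcn k).pow 2)
      (fun g h => by rw [hcls])
    rw [int_sq (hc k) (hs k) (hd k)] at h3
    exact h3
  have hmi : i ∈ S.erase k := Finset.mem_erase.2 ⟨hik, hi⟩
  refine lim_bound (integral_nonneg fun g => abs_nonneg _) fun η hη => ?_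
  set F : G i → ℝ := fun g => ‖chi (π i) g‖ ^ 2 - 1 with hF
  have hFc : Continuous F := ((hcn i).pow 2).sub continuous_const
  set ψ₀ : G i → ℝ := fun g => F g / (|F g| + η) with hψ₀
  have hψc : Continuous ψ₀ := hFc.div (hFc.abs.add continuous_const) fun g => by positivity
  have hFcl : ∀ g h, F (h * g * h⁻¹) = F g := fun g h => by
    rw [hF]
    simp only
    rw [hcls]
  have hψcl : ∀ g h, ψ₀ (h * g * h⁻¹) = ψ₀ g := fun g h => by
    rw [hψ₀]
    simp only
    rw [hFcl]
  set ψ : HeightOneSpectrum (𝓞 K) → ℝ := fun v => ψ₀ (x v i) with hψ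
  have hψb : Bd ψ := bd_one hψc
  have hψ1 : ∀ v, |ψ v| ≤ 1 := fun v => (cut_abs _ η hη).2
  have hk1 := hm.key hYb hCb hψb hψ1
  rw [hY2, hC2, hYC] at hk1
  refine ⟨∫ g, F g * ψ₀ g ∂μ i, ?_, ?_⟩
  · have e1 : (∫ g, |F g| ∂μ i) - η = ∫ g, (|F g| - η) ∂μ i := by
      rw [integral_sub (intg hFc.abs) (integrable_const _)]
      simp
    rw [e1]
    exact integral_mono (intg (hFc.abs.sub continuous_const)) (intg (hFc.mul hψc))
      fun g => (cut_abs _ η hη).1
  · have hYψ : (m fun v => Y v ^ 2 * ψ v) = ∫ g, ‖chi (π i) g‖ ^ 2 * ψ₀ g ∂μ i := by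
      set u : ∀ j, G j → ℝ := Function.update (fun _ _ => 1) i ψ₀ with hu
      have hui : u i = ψ₀ := by rw [hu, Function.update_self]
      have huo : ∀ j, j ≠ i → u j = fun _ => 1 := fun j hj => by
        rw [hu, Function.update_of_ne hj]
      have h3 := h1 (fun j g => ‖chi (π j) g‖ ^ 2 * u j g)
        (fun j => by
          refine ((hcn j).pow 2).mul ?_
          by_cases hj : j = i
          · subst hj
            rw [hui]
            exact hψc
          · rw [huo j hj]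
            exact continuous_const)
        (fun j g h => by
          rw [hcls]
          by_cases hj : j = i
          · subst hj
            rw [hui, hψcl]
          · rw [huo j hj])
      have e : (fun v => Y v ^ 2 * ψ v) =
          fun v => ∏ j ∈ S.erase k, ‖chi (π j) (x v j)‖ ^ 2 * u j (x v j) := by
        funext v
        rw [Finset.prod_mul_distrib, Finset.prod_eq_single i (f := fun j => u j (x v j))
          (fun j _ hj => by rw [huo j hj]) (fun h => absurd hmi h), hui, hY]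
        simp only
        rw [← Finset.prod_pow]
      rw [e, h3, Finset.prod_eq_single i (fun j _ hj => by
        rw [huo j hj]
        simp only [mul_one]
        exact int_sq (hc j) (hs j) (hd j)) (fun h => absurd hmi h), hui]
    have hCψ : (m fun v => C v ^ 2 * ψ v) = ∫ g, ψ₀ g ∂μ i := by
      have h3 := h2.pair hik (f := ψ₀) (g := fun g => ‖chi (π k) g‖ ^ 2) hψc ((hcn k).pow 2)
        hψcl (fun g h => by rw [hcls])
      rw [int_sq (hc k) (hs k) (hd k), mul_one] at h3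
      rw [← h3]
      congr 1
      funext v
      rw [hC, hψ]
      ring
    have hsub : (m fun v => (Y v ^ 2 - C v ^ 2) * ψ v) = ∫ g, F g * ψ₀ g ∂μ i := by
      have e : (fun v => (Y v ^ 2 - C v ^ 2) * ψ v) =
          fun v => Y v ^ 2 * ψ v - C v ^ 2 * ψ v := by
        funext v
        ring
      have h5 : ∫ g, F g * ψ₀ g ∂μ i =
          (∫ g, ‖chi (π i) g‖ ^ 2 * ψ₀ g ∂μ i) - ∫ g, ψ₀ g ∂μ i := by
        have h6 : Integrable (fun g => ‖chi (π i) g‖ ^ 2 * ψ₀ g) (μ i) :=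
          intg (((hcn i).pow 2).mul hψc)
        rw [← integral_sub h6 (intg hψc)]
        refine integral_congr_ae (Filter.Eventually.of_forall fun g => ?_)
        change (‖chi (π i) g‖ ^ 2 - 1) * ψ₀ g = _
        ring
      rw [e, hm.sub (hYb.sq.mul hψb) (hCb.sq.mul hψb), hYψ, hCψ, h5]
    rw [hsub] at hk1
    norm_num at hk1 ⊢
    exact hk1

end

end Pool.Agent.Hp428.ST
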