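import Pool.Agent.Hp428.ST.Bound

set_option autoImplicit false
set_option linter.unusedSectionVars false

/-!
# The bounds for products of four characters
-/

namespace Pool.Agent.Hp428.ST

open Complex Filter Topology NumberField IsDedekindDomain MeasureTheory Pool.Agent.W540.BE
  Pool.Agent.TH553.RS Pool.Agent.H341R2 Pool.Agent.TH553.ST

section

variable {K : Type} [Field K] [NumberField K]
variable {ι : Type} [DecidableEq ι] {G : ι → Type} [∀ i, Group (G i)]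
  [∀ i, TopologicalSpace (G i)] [∀ i, IsTopologicalGroup (G i)] [∀ i, CompactSpace (G i)]
  [∀ i, MeasurableSpace (G i)] [∀ i, BorelSpace (G i)]
  {x : HeightOneSpectrum (𝓞 K) → ∀ i, G i} {μ : ∀ i, Measure (G i)}
  [∀ i, IsProbabilityMeasure (μ i)] [∀ i, (μ i).IsHaarMeasure] {S : Finset ι}
  {m : (HeightOneSpectrum (𝓞 K) → ℝ) → ℝ}
  {d : ι → ℕ} {π : ∀ i, G i →* Matrix.unitaryGroup (Fin (d i)) ℂ}

theorem amgm {t ψ : ℝ} (ht : 0 < t) (hψ : 0 ≤ ψ) (p q : ℝ) :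
    (p * q) ^ 2 * ψ ≤ (t / 2) * (ψ * p ^ 4) + (1 / (2 * t)) * (ψ * q ^ 4) := by
  have h1 : (p * q) ^ 2 ≤ (t / 2) * p ^ 4 + (1 / (2 * t)) * q ^ 4 := by
    have h2 : (t / 2) * p ^ 4 + (1 / (2 * t)) * q ^ 4 - (p * q) ^ 2 =
        (1 / (2 * t)) * (t * p ^ 2 - q ^ 2) ^ 2 := by
      field_simp
      ring
    have h3 : 0 ≤ (1 / (2 * t)) * (t * p ^ 2 - q ^ 2) ^ 2 := by positivity
    linarith
  have h4 := mul_le_mul_of_nonneg_right h1 hψ
  calc (p * q) ^ 2 * ψ ≤ ((t / 2) * p ^ 4 + (1 / (2 * t)) * q ^ 4) * ψ := h4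
    _ = _ := by ring

theorem coefs {t a b M : ℝ} (ht : 0 < t) (hta : t * a = M) (htb : b = M * t) (I : ℝ) :
    t / 2 * (I * a) + 1 / (2 * t) * (I * b) = M * I := by
  subst hta htb
  field_simp
  ring

/-- **From pairs to quadruples.** -/
theorem bound_four (hm : IsM m) (hc : ∀ i, Continuous (π i)) (hs : ∀ i, Schur (π i))
    (hd : ∀ i, d i ≠ 0) {i j k l : ι} (hij : i ≠ j) (hik : i ≠ k) (hil : i ≠ l)
    (hkl : k ≠ l)
    (h1 : PLw m x μ {i, j}) (h2 : PLw m x μ {i, k}) (h3 : PLw m x μ {i, l})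
    (h4 : PLw m x μ {k, l}) :
    (∫ g, max (‖chi (π i) g‖ ^ 2 - Real.sqrt ((∫ g, ‖chi (π k) g‖ ^ 4 ∂μ k) *
      ∫ g, ‖chi (π l) g‖ ^ 4 ∂μ l)) 0 ∂μ i) ^ 2 +
      4 * (m fun v => (‖chi (π i) (x v i)‖ * ‖chi (π j) (x v j)‖) *
        (‖chi (π k) (x v k)‖ * ‖chi (π l) (x v l)‖)) ^ 2 ≤ 4 := by
  have hcn : ∀ j, Continuous fun g => ‖chi (π j) g‖ := fun j => cont_n (hc j)
  have hcls : ∀ (j : ι) (g h : G j), ‖chi (π j) (h * g * h⁻¹)‖ = ‖chi (π j) g‖ := fun j g h => by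
    rw [chi_cls]
  set Y : HeightOneSpectrum (𝓞 K) → ℝ := fun v => ‖chi (π i) (x v i)‖ * ‖chi (π j) (x v j)‖
    with hY
  set C : HeightOneSpectrum (𝓞 K) → ℝ := fun v => ‖chi (π k) (x v k)‖ * ‖chi (π l) (x v l)‖
    with hC
  have hYb : Bd Y := (bd_one (hcn i)).mul (bd_one (hcn j))
  have hCb : Bd C := (bd_one (hcn k)).mul (bd_one (hcn l))
  have hY2 : (m fun v => Y v ^ 2) = 1 := by
    have h5 := h1.pair hij (f := fun g => ‖chi (π i) g‖ ^ 2) (g := fun g => ‖chi (π j) g‖ ^ 2)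
      ((hcn i).pow 2) ((hcn j).pow 2) (fun g h => by rw [hcls]) (fun g h => by rw [hcls])
    rw [int_sq (hc i) (hs i) (hd i), int_sq (hc j) (hs j) (hd j), mul_one] at h5
    rw [← h5]
    congr 1
    funext v
    rw [hY]
    ring
  have hC2 : (m fun v => C v ^ 2) = 1 := by
    have h5 := h4.pair hkl (f := fun g => ‖chi (π k) g‖ ^ 2) (g := fun g => ‖chi (π l) g‖ ^ 2)
      ((hcn k).pow 2) ((hcn l).pow 2) (fun g h => by rw [hcls]) (fun g h => by rw [hcls])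
    rw [int_sq (hc k) (hs k) (hd k), int_sq (hc l) (hs l) (hd l), mul_one] at h5
    rw [← h5]
    congr 1
    funext v
    rw [hC]
    ring
  set a : ℝ := ∫ g, ‖chi (π k) g‖ ^ 4 ∂μ k with ha
  set b : ℝ := ∫ g, ‖chi (π l) g‖ ^ 4 ∂μ l with hb
  have hpos : ∀ q, 0 < ∫ g, ‖chi (π q) g‖ ^ 4 ∂μ q := by
    intro q
    refine Continuous.integral_pos_of_hasCompactSupport_nonneg_nonzero ((hcn q).pow 4)
      (HasCompactSupport.of_compactSpace _) (fun g => by positivity) (x := 1) ?_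
    rw [chi_one, Complex.norm_natCast]
    exact pow_ne_zero _ (by exact_mod_cast hd q)
  have ha0 : 0 < a := hpos k
  have hb0 : 0 < b := hpos l
  set Mc : ℝ := Real.sqrt (a * b) with hMc
  have hM2 : Mc * Mc = a * b := Real.mul_self_sqrt (by positivity)
  have hM0 : 0 < Mc := Real.sqrt_pos.2 (by positivity)
  set t : ℝ := Mc / a with ht
  have ht0 : 0 < t := div_pos hM0 ha0
  have hta : t * a = Mc := div_mul_cancel₀ _ ha0.ne'
  have htb : b = Mc * t := by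
    rw [ht, ← mul_div_assoc, hM2, mul_div_cancel_left₀ _ ha0.ne']
  refine lim_bound (integral_nonneg fun g => le_max_right _ _) fun η hη => ?_
  set F : G i → ℝ := fun g => ‖chi (π i) g‖ ^ 2 - Mc with hF
  have hFc : Continuous F := ((hcn i).pow 2).sub continuous_const
  have hFm : Continuous fun g => max (F g) 0 := hFc.max continuous_const
  set ψ₀ : G i → ℝ := fun g => max (F g) 0 / (max (F g) 0 + η) with hψ₀
  have hψc : Continuous ψ₀ := hFm.div (hFm.add continuous_const) fun g => by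
    have : 0 ≤ max (F g) 0 := le_max_right _ _
    positivity
  have hFcl : ∀ g h, F (h * g * h⁻¹) = F g := fun g h => by
    rw [hF]
    simp only
    rw [hcls]
  have hψcl : ∀ g h, ψ₀ (h * g * h⁻¹) = ψ₀ g := fun g h => by
    rw [hψ₀]
    simp only
    rw [hFcl]
  have hψ0 : ∀ g, 0 ≤ ψ₀ g := fun g => (cut_pos _ η hη).2.1
  set ψ : HeightOneSpectrum (𝓞 K) → ℝ := fun v => ψ₀ (x v i) with hψ
  have hψb : Bd ψ := bd_one hψc
  have hψ1 : ∀ v, |ψ v| ≤ 1 := fun v => (cut_pos _ η hη).2.2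
  have hk1 := hm.key hYb hCb hψb hψ1
  rw [hY2, hC2] at hk1
  set J : ℝ := m fun v => (Y v ^ 2 - C v ^ 2) * ψ v with hJ
  refine ⟨J, ?_, ?_⟩
  · have hYψ : (m fun v => Y v ^ 2 * ψ v) = ∫ g, ‖chi (π i) g‖ ^ 2 * ψ₀ g ∂μ i := by
      have h5 := h1.pair hij (f := fun g => ‖chi (π i) g‖ ^ 2 * ψ₀ g)
        (g := fun g => ‖chi (π j) g‖ ^ 2) (((hcn i).pow 2).mul hψc) ((hcn j).pow 2)
        (fun g h => by rw [hcls, hψcl]) (fun g h => by rw [hcls])
      rw [int_sq (hc j) (hs j) (hd j), mul_one] at h5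
      rw [← h5]
      congr 1
      funext v
      rw [hY, hψ]
      ring
    have h4k : (m fun v => ψ₀ (x v i) * ‖chi (π k) (x v k)‖ ^ 4) = (∫ g, ψ₀ g ∂μ i) * a :=
      h2.pair hik (f := ψ₀) (g := fun g => ‖chi (π k) g‖ ^ 4) hψc ((hcn k).pow 4)
        hψcl (fun g h => by rw [hcls])
    have h4l : (m fun v => ψ₀ (x v i) * ‖chi (π l) (x v l)‖ ^ 4) = (∫ g, ψ₀ g ∂μ i) * b :=
      h3.pair hil (f := ψ₀) (g := fun g => ‖chi (π l) g‖ ^ 4) hψc ((hcn l).pow 4)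
        hψcl (fun g h => by rw [hcls])
    have hbk : Bd fun v => ψ₀ (x v i) * ‖chi (π k) (x v k)‖ ^ 4 :=
      (bd_one hψc).mul (bd_one ((hcn k).pow 4))
    have hbl : Bd fun v => ψ₀ (x v i) * ‖chi (π l) (x v l)‖ ^ 4 :=
      (bd_one hψc).mul (bd_one ((hcn l).pow 4))
    have hCψ : (m fun v => C v ^ 2 * ψ v) ≤ Mc * ∫ g, ψ₀ g ∂μ i := by
      have h5 : (m fun v => C v ^ 2 * ψ v) ≤ m fun v =>
          (t / 2) * (ψ₀ (x v i) * ‖chi (π k) (x v k)‖ ^ 4) +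
          (1 / (2 * t)) * (ψ₀ (x v i) * ‖chi (π l) (x v l)‖ ^ 4) := by
        refine hm.mono (hCb.sq.mul hψb) ((hbk.const_mul _).add (hbl.const_mul _)) fun v => ?_
        exact amgm ht0 (hψ0 (x v i)) _ _
      rw [hm.add (hbk.const_mul _) (hbl.const_mul _), hm.smul _ hbk, hm.smul _ hbl, h4k, h4l]
        at h5
      refine h5.trans (le_of_eq ?_)
      exact coefs ht0 hta htb _
    have hsub : J = (m fun v => Y v ^ 2 * ψ v) - m fun v => C v ^ 2 * ψ v := by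
      rw [← hm.sub (hYb.sq.mul hψb) (hCb.sq.mul hψb), hJ]
      congr 1
      funext v
      ring
    have e1 : (∫ g, max (F g) 0 ∂μ i) - η = ∫ g, (max (F g) 0 - η) ∂μ i := by
      rw [integral_sub (intg hFm) (integrable_const _)]
      simp
    have e2 : ∫ g, F g * ψ₀ g ∂μ i =
        (∫ g, ‖chi (π i) g‖ ^ 2 * ψ₀ g ∂μ i) - Mc * ∫ g, ψ₀ g ∂μ i := by
      have h6 : Integrable (fun g => ‖chi (π i) g‖ ^ 2 * ψ₀ g) (μ i) :=
        intg (((hcn i).pow 2).mul hψc)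
      rw [← integral_const_mul, ← integral_sub h6 ((intg hψc).const_mul _)]
      refine integral_congr_ae (Filter.Eventually.of_forall fun g => ?_)
      change (‖chi (π i) g‖ ^ 2 - Mc) * ψ₀ g = _
      ring
    have h5 : ∫ g, (max (F g) 0 - η) ∂μ i ≤ ∫ g, F g * ψ₀ g ∂μ i :=
      integral_mono (intg (hFm.sub continuous_const)) (intg (hFc.mul hψc))
        fun g => (cut_pos _ η hη).1
    rw [e1, hsub, hYψ]
    linarith
  · norm_num at hk1 ⊢
    exact hk1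

/-- the distance of the first bound is positive -/
theorem dist_pos {i : ι} (hc : Continuous (π i)) (hd : 2 ≤ d i) :
    0 < ∫ g, |‖chi (π i) g‖ ^ 2 - 1| ∂μ i := by
  refine Continuous.integral_pos_of_hasCompactSupport_nonneg_nonzero
    (((cont_n hc).pow 2).sub continuous_const).abs
    (HasCompactSupport.of_compactSpace _) (fun g => abs_nonneg _) (x := 1) ?_
  rw [chi_one, Complex.norm_natCast]
  have h1 : (2 : ℝ) ≤ d i := by exact_mod_cast hd
  have h2 : (0 : ℝ) < (d i : ℝ) ^ 2 - 1 := by nlinarith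
  rw [abs_of_pos h2]
  exact h2.ne'

theorem four_le {i : ι} (hc : Continuous (π i)) (hs : Schur (π i)) (hd : d i ≠ 0) :
    ∫ g, ‖chi (π i) g‖ ^ 4 ∂μ i ≤ (d i : ℝ) ^ 2 := by
  have h1 : ∫ g, ‖chi (π i) g‖ ^ 4 ∂μ i ≤ ∫ g, (d i : ℝ) ^ 2 * ‖chi (π i) g‖ ^ 2 ∂μ i := by
    refine integral_mono (intg ((cont_n hc).pow 4)) (intg (((cont_n hc).pow 2).const_mul _))
      fun g => ?_
    have h2 := pow_le_pow_left₀ (norm_nonneg _) (norm_chi (π i) g) 2
    have h3 : ‖chi (π i) g‖ ^ 4 = ‖chi (π i) g‖ ^ 2 * ‖chi (π i) g‖ ^ 2 := by ring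
    simp only
    rw [h3]
    exact mul_le_mul_of_nonneg_right h2 (by positivity)
  rw [integral_const_mul, int_sq hc hs hd, mul_one] at h1
  exact h1

theorem four_lt {i : ι} [ConnectedSpace (G i)] (hc : Continuous (π i)) (hs : Schur (π i))
    (hd : 2 ≤ d i) : ∫ g, ‖chi (π i) g‖ ^ 4 ∂μ i < (d i : ℝ) ^ 2 := by
  refine lt_of_le_of_ne (four_le hc hs (by omega)) fun heq => ?_
  have hd1 : (2 : ℝ) ≤ d i := by exact_mod_cast hd
  set f : G i → ℝ := fun g => (d i : ℝ) ^ 2 * ‖chi (π i) g‖ ^ 2 - ‖chi (π i) g‖ ^ 4 with hf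
  have hfc : Continuous f := (((cont_n hc).pow 2).const_mul _).sub ((cont_n hc).pow 4)
  have hf0 : ∀ g, 0 ≤ f g := by
    intro g
    have h2 := pow_le_pow_left₀ (norm_nonneg _) (norm_chi (π i) g) 2
    have h3 : f g = ((d i : ℝ) ^ 2 - ‖chi (π i) g‖ ^ 2) * ‖chi (π i) g‖ ^ 2 := by
      rw [hf]
      ring
    rw [h3]
    exact mul_nonneg (by linarith) (by positivity)
  have hfi : ∫ g, f g ∂μ i = 0 := by
    have h5 : Integrable (fun g => ‖chi (π i) g‖ ^ 2) (μ i) := intg ((cont_n hc).pow 2)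
    have h6 : Integrable (fun g => ‖chi (π i) g‖ ^ 4) (μ i) := intg ((cont_n hc).pow 4)
    have h7 : ∫ g, f g ∂μ i = (d i : ℝ) ^ 2 * (∫ g, ‖chi (π i) g‖ ^ 2 ∂μ i) -
        ∫ g, ‖chi (π i) g‖ ^ 4 ∂μ i := by
      rw [← integral_const_mul, ← integral_sub (h5.const_mul _) h6]
    rw [h7, int_sq hc hs (by omega), heq]
    ring
  have hfz : ∀ g, f g = 0 := by
    intro g
    by_contra hne
    have := Continuous.integral_pos_of_hasCompactSupport_nonneg_nonzero (μ := μ i) hfc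
      (HasCompactSupport.of_compactSpace _) hf0 hne
    rw [hfi] at this
    exact lt_irrefl _ this
  have hval : ∀ g, ‖chi (π i) g‖ ^ 2 = 0 ∨ ‖chi (π i) g‖ ^ 2 = (d i : ℝ) ^ 2 := by
    intro g
    have h3 : ((d i : ℝ) ^ 2 - ‖chi (π i) g‖ ^ 2) * ‖chi (π i) g‖ ^ 2 = 0 := by
      rw [← hfz g, hf]
      ring
    rcases mul_eq_zero.1 h3 with h | h
    · right
      linarith
    · left
      exact h
  have hcs : Continuous fun g => ‖chi (π i) g‖ ^ 2 := (cont_n hc).pow 2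
  have hall : ∀ g, ‖chi (π i) g‖ ^ 2 = (d i : ℝ) ^ 2 := by
    intro g
    by_contra hne
    have h0 : ‖chi (π i) g‖ ^ 2 = 0 := (hval g).resolve_right hne
    have h1 : ‖chi (π i) (1 : G i)‖ ^ 2 = (d i : ℝ) ^ 2 := by
      rw [chi_one, Complex.norm_natCast]
    have h2 : (1 : ℝ) ∈ Set.range fun g => ‖chi (π i) g‖ ^ 2 := by
      refine mem_range_of_exists_le_of_exists_ge hcs ⟨g, by rw [h0]; norm_num⟩ ⟨1, ?_⟩
      rw [h1]
      nlinarith
    obtain ⟨g', hg'⟩ := h2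
    simp only at hg'
    rcases hval g' with h | h
    · rw [h] at hg'
      norm_num at hg'
    · rw [h] at hg'
      nlinarith
  have h1 := int_sq (μ := μ i) hc hs (by omega)
  simp only [hall] at h1
  simp at h1
  rcases h1 with h | h
  · nlinarith
  · nlinarith

/-- the distance of the second bound is positive -/
theorem dist4_pos {i k l : ι} [ConnectedSpace (G k)] (hc : ∀ i, Continuous (π i))
    (hs : ∀ i, Schur (π i)) (hd : ∀ i, d i ≠ 0) (hdi : 2 ≤ d i) (hik : d k ≤ d i)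
    (hil : d l ≤ d i) :
    0 < ∫ g, max (‖chi (π i) g‖ ^ 2 - Real.sqrt ((∫ g, ‖chi (π k) g‖ ^ 4 ∂μ k) *
      ∫ g, ‖chi (π l) g‖ ^ 4 ∂μ l)) 0 ∂μ i := by
  refine Continuous.integral_pos_of_hasCompactSupport_nonneg_nonzero
    ((((cont_n (hc i)).pow 2).sub continuous_const).max continuous_const)
    (HasCompactSupport.of_compactSpace _) (fun g => le_max_right _ _) (x := 1) ?_
  rw [chi_one, Complex.norm_natCast]
  have hi : (2 : ℝ) ≤ d i := by exact_mod_cast hdi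
  have hk : (d k : ℝ) ≤ d i := by exact_mod_cast hik
  have hl : (d l : ℝ) ≤ d i := by exact_mod_cast hil
  have hk0 : (0 : ℝ) < d k := by exact_mod_cast Nat.pos_of_ne_zero (hd k)
  have hl0 : (0 : ℝ) < d l := by exact_mod_cast Nat.pos_of_ne_zero (hd l)
  have hb := four_le (μ := μ) (hc l) (hs l) (hd l)
  have hb0 : 0 ≤ ∫ g, ‖chi (π l) g‖ ^ 4 ∂μ l := integral_nonneg fun g => by positivity
  have ha0 : 0 ≤ ∫ g, ‖chi (π k) g‖ ^ 4 ∂μ k := integral_nonneg fun g => by positivity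
  have hb1 : ∫ g, ‖chi (π l) g‖ ^ 4 ∂μ l ≤ (d i : ℝ) ^ 2 :=
    hb.trans (pow_le_pow_left₀ hl0.le hl 2)
  have ha1 : ∫ g, ‖chi (π k) g‖ ^ 4 ∂μ k < (d i : ℝ) ^ 2 := by
    by_cases h2 : 2 ≤ d k
    · exact lt_of_lt_of_le (four_lt (hc k) (hs k) h2) (pow_le_pow_left₀ hk0.le hk 2)
    · have h3 : d k = 1 := by
        have := hd k
        omega
      have h4 := four_le (μ := μ) (hc k) (hs k) (hd k)
      have h5 : (d k : ℝ) = 1 := by exact_mod_cast h3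
      have h6 : (d k : ℝ) ^ 2 < (d i : ℝ) ^ 2 := by
        rw [h5]
        nlinarith
      exact lt_of_le_of_lt h4 h6
  have h1 : Real.sqrt ((∫ g, ‖chi (π k) g‖ ^ 4 ∂μ k) * ∫ g, ‖chi (π l) g‖ ^ 4 ∂μ l) <
      (d i : ℝ) ^ 2 := by
    rw [Real.sqrt_lt' (by positivity)]
    calc (∫ g, ‖chi (π k) g‖ ^ 4 ∂μ k) * ∫ g, ‖chi (π l) g‖ ^ 4 ∂μ l
        ≤ (∫ g, ‖chi (π k) g‖ ^ 4 ∂μ k) * (d i : ℝ) ^ 2 :=
          mul_le_mul_of_nonneg_left hb1 ha0
      _ < (d i : ℝ) ^ 2 * (d i : ℝ) ^ 2 :=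
          mul_lt_mul_of_pos_right ha1 (by positivity)
      _ = ((d i : ℝ) ^ 2) ^ 2 := by ring
  have h2 : 0 < (d i : ℝ) ^ 2 - Real.sqrt ((∫ g, ‖chi (π k) g‖ ^ 4 ∂μ k) *
      ∫ g, ‖chi (π l) g‖ ^ 4 ∂μ l) := by linarith
  rw [max_eq_left h2.le]
  exact h2.ne'

end

end Pool.Agent.Hp428.ST
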