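import Pool.Agent.Hp428.ST.Semi

set_option autoImplicit false

/-!
# Smooth signs and the pointwise inequalities
-/

namespace Pool.Agent.Hp428.ST

open MeasureTheory Filter Topology Set

/-- a smooth sign -/
noncomputable def sg (δ x : ℝ) : ℝ := x / (|x| + δ)

/-- the error -/
noncomputable def bt (δ x : ℝ) : ℝ := δ / (|x| + δ)

section

variable {δ : ℝ}

theorem den_pos (hδ : 0 < δ) (x : ℝ) : 0 < |x| + δ := by positivity

theorem sg_cont (hδ : 0 < δ) : Continuous (sg δ) :=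
  continuous_id.div (by fun_prop) fun x => (den_pos hδ x).ne'

theorem bt_cont (hδ : 0 < δ) : Continuous (bt δ) :=
  continuous_const.div (by fun_prop) fun x => (den_pos hδ x).ne'

theorem bt_nonneg (hδ : 0 < δ) (x : ℝ) : 0 ≤ bt δ x := div_nonneg hδ.le (den_pos hδ x).le

theorem bt_le (hδ : 0 < δ) (x : ℝ) : bt δ x ≤ 1 := by
  unfold bt
  rw [div_le_one (den_pos hδ x)]
  linarith [abs_nonneg x]

theorem sg_neg (x : ℝ) : sg δ (-x) = -sg δ x := by
  unfold sg
  rw [abs_neg, neg_div]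

theorem bt_neg (x : ℝ) : bt δ (-x) = bt δ x := by
  unfold bt
  rw [abs_neg]

theorem sg_abs (hδ : 0 < δ) (x : ℝ) : |sg δ x| ≤ 1 := by
  unfold sg
  rw [abs_div, abs_of_pos (den_pos hδ x), div_le_one (den_pos hδ x)]
  linarith

/-- the sign of `x` -/
theorem sg_eq (hδ : 0 < δ) (x : ℝ) : ∃ s : ℝ, (s = 1 ∨ s = -1) ∧ sg δ x = s * (1 - bt δ x) ∧
    x = s * |x| ∧ (s = 1 → 0 < x) := by
  have h := den_pos hδ x
  rcases lt_or_ge 0 x with hx | hx
  · refine ⟨1, Or.inl rfl, ?_, ?_, fun _ => hx⟩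
    · unfold sg bt
      rw [abs_of_pos hx] at h ⊢
      field_simp
      ring
    · rw [abs_of_pos hx, one_mul]
  · refine ⟨-1, Or.inr rfl, ?_, ?_, fun h1 => by norm_num at h1⟩
    · unfold sg bt
      rw [abs_of_nonpos hx] at h ⊢
      field_simp
      ring
    · rw [abs_of_nonpos hx]
      ring

/-- the positive part -/
theorem half_le (hδ : 0 < δ) (x : ℝ) : (1 + sg δ x - bt δ x) / 2 ≤ 1 := by
  have h1 := bt_nonneg hδ x
  have h2 := (abs_le.1 (sg_abs hδ x)).2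
  linarith

theorem half_of_nonpos (hδ : 0 < δ) {x : ℝ} (hx : x ≤ 0) : (1 + sg δ x - bt δ x) / 2 = 0 := by
  have h := den_pos hδ x
  unfold sg bt
  rw [abs_of_nonpos hx] at h ⊢
  field_simp
  ring

theorem young (u : ℝ) (hu : 0 ≤ u) : u ≤ 5 / 3 + 729 / 32000 * u ^ 4 := by
  nlinarith [sq_nonneg (u ^ 2 - (20 / 9) ^ 2), sq_nonneg (u - 20 / 9), mul_nonneg hu hu]

theorem cert3 (hδ : 0 < δ) {a b c γ : ℝ} (ha : |a| ≤ 2) (hb : |b| ≤ 2) (hγ0 : 0 ≤ γ)
    (hγ1 : γ ≤ 1) {P : Prop} [Decidable P] (hP : γ ≠ 0 → P) :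
    (3 / 20 * (1 / 2 * (|a| * |b|) + 1 / 2 * (a * b * sg δ c) - 729 / 32000 * (a ^ 4 * b ^ 4)) +
      1 / 8 * (sg δ a + sg δ b + sg δ c + sg δ a * sg δ b + sg δ a * sg δ c + sg δ b * sg δ c) -
      (bt δ a + bt δ b + bt δ c)) * γ ≤ if (0 < a ∧ 0 < b ∧ 0 < c) ∧ P then 1 else 0 := by
  obtain ⟨s1, h1, ha1, ha2, ha3⟩ := sg_eq hδ a
  obtain ⟨s2, h2, hb1, hb2, hb3⟩ := sg_eq hδ b
  obtain ⟨s3, h3, hc1, hc2, hc3⟩ := sg_eq hδ c
  have hy := young (|a| * |b|) (by positivity)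
  have hu4 : |a| * |b| ≤ 4 := by
    nlinarith [abs_nonneg a, abs_nonneg b]
  have hu0 : 0 ≤ |a| * |b| := by positivity
  have e4 : a ^ 4 * b ^ 4 = (|a| * |b|) ^ 4 := by
    rw [mul_pow, ← abs_pow, ← abs_pow, abs_of_nonneg (by positivity : (0:ℝ) ≤ a ^ 4),
      abs_of_nonneg (by positivity : (0:ℝ) ≤ b ^ 4)]
  have eab : a * b = s1 * s2 * (|a| * |b|) := by
    nth_rw 1 [ha2, hb2]
    ring
  set u := |a| * |b| with hu
  have a0 := bt_nonneg hδ a
  have b0 := bt_nonneg hδ b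
  have c0 := bt_nonneg hδ c
  have a1 := bt_le hδ a
  have b1 := bt_le hδ b
  have c1 := bt_le hδ c
  set A := bt δ a
  set B := bt δ b
  set C := bt δ c
  have hAB : 0 ≤ A * B := mul_nonneg a0 b0
  have hAC : 0 ≤ A * C := mul_nonneg a0 c0
  have hBC : 0 ≤ B * C := mul_nonneg b0 c0
  have hAB' : A * B ≤ A := by nlinarith
  have hAC' : A * C ≤ A := by nlinarith
  have hBC' : B * C ≤ B := by nlinarith
  have huC : 0 ≤ u * C := mul_nonneg hu0 c0
  have huC' : u * C ≤ 4 * C := by nlinarith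
  have hu4' : 0 ≤ u ^ 4 := by positivity
  have main : 3 / 20 * (1 / 2 * u + 1 / 2 * (a * b * sg δ c) - 729 / 32000 * (a ^ 4 * b ^ 4)) +
      1 / 8 * (sg δ a + sg δ b + sg δ c + sg δ a * sg δ b + sg δ a * sg δ c + sg δ b * sg δ c) -
      (A + B + C) ≤ if (0 < a ∧ 0 < b ∧ 0 < c) then 1 else 0 := by
    rw [e4, eab, ha1, hb1, hc1]
    rcases h1 with rfl | rfl <;> rcases h2 with rfl | rfl <;> rcases h3 with rfl | rfl
    · rw [if_pos ⟨ha3 rfl, hb3 rfl, hc3 rfl⟩]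
      linarith
    all_goals
      have : (0:ℝ) ≤ if (0 < a ∧ 0 < b ∧ 0 < c) then 1 else 0 := by
        split_ifs <;> norm_num
      linarith
  rcases eq_or_ne γ 0 with h0 | h0
  · rw [h0, mul_zero]
    split_ifs <;> norm_num
  · have hp := hP h0
    have e : (if (0 < a ∧ 0 < b ∧ 0 < c) ∧ P then (1:ℝ) else 0) =
        if (0 < a ∧ 0 < b ∧ 0 < c) then 1 else 0 := by
      simp [hp]
    rw [e]
    split_ifs at main ⊢
    · nlinarith
    · nlinarith

theorem cert2 (hδ : 0 < δ) {a b γ m : ℝ} (ha : |a| ≤ 2) (hb : |b| ≤ 2) (hγ0 : 0 ≤ γ)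
    (hγ1 : γ ≤ 1) {P : Prop} [Decidable P] (hP : γ ≠ 0 → P) :
    (1 / 16 * (2 * m * |a| + 2 * m * |b| - 2 * m ^ 2 - 1 / 2 * a ^ 2 - 1 / 2 * b ^ 2 + a * b) +
      1 / 2 * ((1 + sg δ a - bt δ a) / 2 + (1 + sg δ b - bt δ b) / 2 - 1)) * γ ≤
      if (0 < a ∧ 0 < b) ∧ P then 1 else 0 := by
  have hq : 2 * m * |a| + 2 * m * |b| - 2 * m ^ 2 - 1 / 2 * a ^ 2 - 1 / 2 * b ^ 2 ≤ |a| * |b| := by
    have e1 : a ^ 2 = |a| ^ 2 := (sq_abs a).symm
    have e2 : b ^ 2 = |b| ^ 2 := (sq_abs b).symm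
    rw [e1, e2]
    nlinarith [sq_nonneg (|a| + |b| - 2 * m)]
  have hu4 : |a| * |b| ≤ 4 := by
    nlinarith [abs_nonneg a, abs_nonneg b]
  have main : 1 / 16 * (2 * m * |a| + 2 * m * |b| - 2 * m ^ 2 - 1 / 2 * a ^ 2 - 1 / 2 * b ^ 2 + a * b) +
      1 / 2 * ((1 + sg δ a - bt δ a) / 2 + (1 + sg δ b - bt δ b) / 2 - 1) ≤
      if (0 < a ∧ 0 < b) then 1 else 0 := by
    have i1 := half_le hδ a
    have i2 := half_le hδ b
    rcases lt_or_ge 0 a with h1 | h1 <;> rcases lt_or_ge 0 b with h2 | h2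
    · rw [if_pos ⟨h1, h2⟩]
      have : a * b = |a| * |b| := by rw [abs_of_pos h1, abs_of_pos h2]
      linarith
    · rw [if_neg (fun h => absurd h.2 (not_lt.2 h2)), half_of_nonpos hδ h2]
      have : a * b = -(|a| * |b|) := by
        rw [abs_of_pos h1, abs_of_nonpos h2]
        ring
      linarith
    · rw [if_neg (fun h => absurd h.1 (not_lt.2 h1)), half_of_nonpos hδ h1]
      have : a * b = -(|a| * |b|) := by
        rw [abs_of_pos h2, abs_of_nonpos h1]
        ring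
      linarith
    · rw [if_neg (fun h => absurd h.1 (not_lt.2 h1)), half_of_nonpos hδ h1, half_of_nonpos hδ h2]
      have : a * b = |a| * |b| := by
        rw [abs_of_nonpos h2, abs_of_nonpos h1]
        ring
      linarith
  rcases eq_or_ne γ 0 with h0 | h0
  · rw [h0, mul_zero]
    split_ifs <;> norm_num
  · have hp := hP h0
    have e : (if (0 < a ∧ 0 < b) ∧ P then (1:ℝ) else 0) =
        if (0 < a ∧ 0 < b) then 1 else 0 := by
      simp [hp]
    rw [e]
    split_ifs at main ⊢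
    · nlinarith
    · nlinarith

end

/-- the error is small on average -/
theorem bt_small {ε : ℝ} (hε : 0 < ε) : ∃ δ : ℝ, 0 < δ ∧ ∫ t, bt δ (2 * Real.cos t) ∂st < ε := by
  have h : Tendsto (fun n : ℕ => ∫ t, bt (1 / ((n : ℝ) + 1)) (2 * Real.cos t) ∂st) atTop
      (𝓝 (∫ _, (0:ℝ) ∂st)) := by
    refine tendsto_integral_of_dominated_convergence (fun _ => (1:ℝ)) (fun n => ?_)
      (integrable_const _) (fun n => ?_) ?_
    · exact (((bt_cont (by positivity)).comp (by fun_prop :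
        Continuous fun t : ℝ => 2 * Real.cos t)).measurable).aestronglyMeasurable
    · refine Eventually.of_forall fun t => ?_
      have hp : (0:ℝ) < 1 / ((n : ℝ) + 1) := by positivity
      rw [Real.norm_eq_abs, abs_of_nonneg (bt_nonneg hp _)]
      exact bt_le hp _
    · have hz : ∀ᵐ t ∂st, Real.cos t ≠ 0 := by
        unfold st
        refine (withDensity_absolutelyContinuous _ _).ae_le ?_
        change ∀ᵐ t ∂(volume.restrict (Icc 0 Real.pi)), Real.cos t ≠ 0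
        rw [ae_restrict_iff' measurableSet_Icc]
        have hs : ({Real.pi / 2} : Set ℝ)ᶜ ∈ ae (volume : Measure ℝ) := by
          rw [mem_ae_iff, compl_compl]
          exact Real.volume_singleton
        filter_upwards [hs] with t ht hI hc
        apply ht
        rw [mem_singleton_iff]
        have h1 := Real.injOn_cos hI (show Real.pi / 2 ∈ Icc 0 Real.pi from
          ⟨by linarith [Real.pi_pos], by linarith [Real.pi_pos]⟩)
        exact h1 (by rw [hc, Real.cos_pi_div_two])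
      filter_upwards [hz] with t ht
      have hpos : 0 < |2 * Real.cos t| := abs_pos.2 (mul_ne_zero two_ne_zero ht)
      have h1 : Tendsto (fun n : ℕ => 1 / ((n : ℝ) + 1)) atTop (𝓝 0) :=
        tendsto_one_div_add_atTop_nhds_zero_nat
      have h2 := h1.div ((tendsto_const_nhds (x := |2 * Real.cos t|)).add h1) (by
        rw [add_zero]
        exact hpos.ne')
      rw [zero_div] at h2
      exact h2
  rw [integral_zero] at h
  obtain ⟨n, hn⟩ := (h.eventually_lt_const hε).exists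
  exact ⟨_, by positivity, hn⟩

end Pool.Agent.Hp428.ST
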