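import Pool.Agent.Hp428.ST.TupL

set_option autoImplicit false
set_option linter.unusedSectionVars false

/-!
# Factors with many conjugates
-/

namespace Pool.Agent.Hp428.ST

open Complex Filter Topology ComplexConjugate MeasureTheory NumberField IsDedekindDomain
  Pool.Agent.W540.BE Pool.Agent.TH553.RS Pool.Agent.H341R2 Pool.Agent.TH553.ST

section

variable {K : Type} [Field K] [NumberField K]

/-- permutations of the primes that preserve the norms -/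
def NP (γ : Equiv.Perm (HeightOneSpectrum (𝓞 K))) : Prop := ∀ v, nm K (γ v) = nm K v

theorem mn_perm {E : Type*} [AddCommGroup E] [Module ℝ E]
    {γ : Equiv.Perm (HeightOneSpectrum (𝓞 K))} (hγ : NP γ)
    (F : HeightOneSpectrum (𝓞 K) → E) (N : ℕ) : mn (fun v => F (γ v)) N = mn F N := by
  unfold mn
  congr 1
  refine Finset.sum_equiv γ (fun v => ?_) fun v _ => rfl
  rw [mem_upto, mem_upto, hγ v]

theorem qt_perm {γ : Equiv.Perm (HeightOneSpectrum (𝓞 K))} (hγ : NP γ)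
    (φ : HeightOneSpectrum (𝓞 K) → ℝ) (ε : ℝ) : qt (nm K) (fun v => φ (γ v)) ε = qt (nm K) φ ε := by
  unfold qt
  congr 1
  unfold EP
  rw [← Equiv.tsum_eq γ fun v => φ v * ((nm K v : ℕ) : ℝ) ^ (-(1 + ε))]
  refine tsum_congr fun v => ?_
  rw [hγ v]

theorem M_perm {γ : Equiv.Perm (HeightOneSpectrum (𝓞 K))} (hγ : NP γ) (U : Ultrafilter ℝ)
    (φ : HeightOneSpectrum (𝓞 K) → ℝ) : (M (nm K) U fun v => φ (γ v)) = M (nm K) U φ := by
  have h : (qt (nm K) fun v => φ (γ v)) = qt (nm K) φ := funext fun ε => qt_perm hγ φ ε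
  unfold M
  rw [h]

theorem mn_cs2 (φ ψ : HeightOneSpectrum (𝓞 K) → ℝ) (N : ℕ) :
    mn (fun v => φ v * ψ v) N ^ 2 ≤ mn (fun v => φ v ^ 2) N * mn (fun v => ψ v ^ 2) N := by
  unfold mn
  simp only [smul_eq_mul]
  have h1 := Finset.sum_mul_sq_le_sq_mul_sq (upto K N) φ ψ
  have h2 : (0 : ℝ) ≤ (((upto K N).card : ℝ)⁻¹) ^ 2 := by positivity
  have h3 := mul_le_mul_of_nonneg_left h1 h2
  calc _ = (((upto K N).card : ℝ)⁻¹) ^ 2 * (∑ v ∈ upto K N, φ v * ψ v) ^ 2 := by ring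
    _ ≤ _ := h3
    _ = _ := by ring

theorem bess_fin2 {ι : Type} (N : ℕ) (S : Finset ι) (w : ι → HeightOneSpectrum (𝓞 K) → ℂ)
    (u : HeightOneSpectrum (𝓞 K) → ℂ) {E : ℝ} (hE0 : 0 ≤ E)
    (hE : ∀ p ∈ S, ∑ q ∈ S, ‖mn (fun v => w p v * conj (w q v)) N‖ ≤ E) :
    ∑ p ∈ S, ‖mn (fun v => u v * w p v) N‖ ^ 2 ≤ mn (fun v => ‖u v‖ ^ 2) N * E := by
  set b : ι → ℂ := fun p => mn (fun v => u v * w p v) N with hb
  set g : ι → ι → ℂ := fun p q => mn (fun v => w p v * conj (w q v)) N with hg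
  set X : ℝ := ∑ p ∈ S, ‖b p‖ ^ 2 with hX
  have hX0 : 0 ≤ X := Finset.sum_nonneg fun p _ => sq_nonneg _
  have hu0 : 0 ≤ mn (fun v => ‖u v‖ ^ 2) N := mn_nonneg (fun v => sq_nonneg _) N
  set Z : HeightOneSpectrum (𝓞 K) → ℂ := fun v => ∑ p ∈ S, conj (b p) * w p v with hZ
  have h1 : mn (fun v => u v * Z v) N = (X : ℂ) := by
    have e : (fun v => u v * Z v) = fun v => ∑ p ∈ S, conj (b p) * (u v * w p v) := by
      funext v
      rw [hZ]
      simp only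
      rw [Finset.mul_sum]
      exact Finset.sum_congr rfl fun p _ => by ring
    rw [e, mn_sum, hX]
    push_cast
    refine Finset.sum_congr rfl fun p _ => ?_
    rw [mn_mul]
    change conj (b p) * b p = _
    exact Complex.conj_mul' _
  have h2 : X ≤ mn (fun v => ‖u v‖ * ‖Z v‖) N := by
    have h3 : X = ‖mn (fun v => u v * Z v) N‖ := by
      rw [h1, Complex.norm_real, Real.norm_of_nonneg hX0]
    rw [h3]
    refine (norm_mn_le _ _).trans (le_of_eq ?_)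
    congr 1
    funext v
    exact norm_mul _ _
  have h3 : ((mn (fun v => ‖Z v‖ ^ 2) N : ℝ) : ℂ) =
      ∑ p ∈ S, ∑ q ∈ S, (conj (b p) * b q) * g p q := by
    rw [ofReal_mn]
    have e : (fun v => ((‖Z v‖ ^ 2 : ℝ) : ℂ)) =
        fun v => ∑ p ∈ S, ∑ q ∈ S, (conj (b p) * b q) * (w p v * conj (w q v)) := by
      funext v
      have h4 : ((‖Z v‖ ^ 2 : ℝ) : ℂ) = Z v * conj (Z v) := by
        rw [Complex.mul_conj, Complex.normSq_eq_norm_sq]
      rw [h4, hZ]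
      simp only
      rw [map_sum, Finset.sum_mul_sum]
      refine Finset.sum_congr rfl fun p _ => Finset.sum_congr rfl fun q _ => ?_
      rw [map_mul, Complex.conj_conj]
      ring
    rw [e, mn_sum]
    refine Finset.sum_congr rfl fun p _ => ?_
    rw [mn_sum]
    exact Finset.sum_congr rfl fun q _ => mn_mul _ _ _
  have hsymm : ∀ p q, ‖g p q‖ = ‖g q p‖ := by
    intro p q
    have h4 : g q p = conj (g p q) := by
      rw [hg]
      simp only
      unfold mn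
      rw [Complex.real_smul, Complex.real_smul, map_mul, Complex.conj_ofReal, map_sum]
      congr 1
      refine Finset.sum_congr rfl fun v _ => ?_
      rw [map_mul, Complex.conj_conj]
      ring
    rw [h4, Complex.norm_conj]
  have h4 : mn (fun v => ‖Z v‖ ^ 2) N ≤ E * X := by
    have h5 : mn (fun v => ‖Z v‖ ^ 2) N ≤ ∑ p ∈ S, ∑ q ∈ S, (‖b p‖ * ‖b q‖) * ‖g p q‖ := by
      have h6 : mn (fun v => ‖Z v‖ ^ 2) N = ‖((mn (fun v => ‖Z v‖ ^ 2) N : ℝ) : ℂ)‖ := by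
        rw [Complex.norm_real, Real.norm_of_nonneg (mn_nonneg (fun v => sq_nonneg _) N)]
      rw [h6, h3]
      refine (norm_sum_le _ _).trans (Finset.sum_le_sum fun p _ => ?_)
      refine (norm_sum_le _ _).trans (Finset.sum_le_sum fun q _ => ?_)
      rw [norm_mul, norm_mul, Complex.norm_conj]
    have h6 : ∑ p ∈ S, ∑ q ∈ S, (‖b p‖ * ‖b q‖) * ‖g p q‖ ≤
        ∑ p ∈ S, ∑ q ∈ S, (1 / 2 * (‖b p‖ ^ 2 * ‖g p q‖) + 1 / 2 * (‖b q‖ ^ 2 * ‖g q p‖)) := by
      refine Finset.sum_le_sum fun p _ => Finset.sum_le_sum fun q _ => ?_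
      rw [← hsymm p q]
      have h7 : ‖b p‖ * ‖b q‖ ≤ 1 / 2 * ‖b p‖ ^ 2 + 1 / 2 * ‖b q‖ ^ 2 := by
        nlinarith [sq_nonneg (‖b p‖ - ‖b q‖)]
      have h8 := mul_le_mul_of_nonneg_right h7 (norm_nonneg (g p q))
      linarith
    have h7 : ∑ p ∈ S, ∑ q ∈ S, (1 / 2 * (‖b p‖ ^ 2 * ‖g p q‖) +
        1 / 2 * (‖b q‖ ^ 2 * ‖g q p‖)) = ∑ p ∈ S, ‖b p‖ ^ 2 * ∑ q ∈ S, ‖g p q‖ := by
      have h8 : ∑ p ∈ S, ∑ q ∈ S, 1 / 2 * (‖b q‖ ^ 2 * ‖g q p‖) =
          ∑ p ∈ S, ∑ q ∈ S, 1 / 2 * (‖b p‖ ^ 2 * ‖g p q‖) := Finset.sum_comm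
      simp only [Finset.sum_add_distrib]
      rw [h8, ← Finset.sum_add_distrib]
      refine Finset.sum_congr rfl fun p _ => ?_
      rw [← Finset.sum_add_distrib, Finset.mul_sum]
      exact Finset.sum_congr rfl fun q _ => by ring
    have h8 : ∑ p ∈ S, ‖b p‖ ^ 2 * ∑ q ∈ S, ‖g p q‖ ≤ E * X := by
      rw [hX, Finset.mul_sum]
      refine Finset.sum_le_sum fun p hp => ?_
      rw [mul_comm E]
      exact mul_le_mul_of_nonneg_left (hE p hp) (sq_nonneg _)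
    linarith
  have h5 : X ^ 2 ≤ (mn (fun v => ‖u v‖ ^ 2) N * E) * X := by
    have h6 : X ^ 2 ≤ (mn (fun v => ‖u v‖ * ‖Z v‖) N) ^ 2 := pow_le_pow_left₀ hX0 h2 2
    have h7 := mn_cs2 (fun v => ‖u v‖) (fun v => ‖Z v‖) N
    calc X ^ 2 ≤ _ := h6
      _ ≤ _ := h7
      _ ≤ mn (fun v => ‖u v‖ ^ 2) N * (E * X) := mul_le_mul_of_nonneg_left h4 hu0
      _ = _ := by ring
  by_cases hX1 : X = 0
  · rw [hX1]
    positivity
  · have hX2 : 0 < X := lt_of_le_of_ne hX0 (Ne.symm hX1)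
    have h6 : X * X ≤ (mn (fun v => ‖u v‖ ^ 2) N * E) * X := by
      rw [← sq]
      exact h5
    exact le_of_mul_le_mul_right h6 hX2

end

section

variable {K : Type} [Field K] [NumberField K]
variable {G : Type} [Group G]
  [TopologicalSpace G] [IsTopologicalGroup G] [CompactSpace G]
  [T2Space G] [SecondCountableTopology G]
  [MeasurableSpace G] [BorelSpace G]
  {μ : Measure G} [IsProbabilityMeasure μ] [μ.IsHaarMeasure]
  {d : ℕ} {ρ : G →* Matrix.unitaryGroup (Fin d) ℂ}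

/-- the limits of the entries of the Gram matrix -/
theorem gram_lim {ι : Type} [DecidableEq ι] {x : HeightOneSpectrum (𝓞 K) → ι → G}
    (h2 : ∀ S : Finset ι, S.card ≤ 2 → TLc x (fun _ => μ) S) (hc : Continuous ρ)
    (hs : Schur ρ) (hn : ∃ g, ρ g ≠ 1) (p q : ι) :
    Tendsto (mn fun v => chi ρ (x v p) * conj (chi ρ (x v q))) atTop
      (𝓝 (if p = q then 1 else 0)) := by
  have hd : d ≠ 0 := ne_zero_of_nt hn
  have hcj : Continuous fun g => conj (chi ρ g) := Complex.continuous_conj.comp (cont_chi hc)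
  by_cases hpq : p = q
  · subst hpq
    rw [if_pos rfl]
    have h3 := h2 {p} (by simp) (fun _ g => chi ρ g * conj (chi ρ g))
      (fun _ => (cont_chi hc).mul hcj) (fun _ g h => by rw [chi_cls])
    simp only [Finset.prod_singleton] at h3
    have h4 : ∫ g, chi ρ g * conj (chi ρ g) ∂μ = 1 := by
      have h1 : (fun g => chi ρ g * conj (chi ρ g)) = fun g => ((‖chi ρ g‖ ^ 2 : ℝ) : ℂ) := by
        funext g
        rw [Complex.mul_conj, Complex.normSq_eq_norm_sq]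
      have h2 : ∫ g, ((‖chi ρ g‖ ^ 2 : ℝ) : ℂ) ∂μ = ((∫ g, ‖chi ρ g‖ ^ 2 ∂μ : ℝ) : ℂ) :=
        integral_ofReal
      rw [h1, h2, int_sq hc hs hd, Complex.ofReal_one]
    rw [h4] at h3
    exact h3
  · rw [if_neg hpq]
    have h3 := h2 {p, q} (Finset.card_le_two)
      (fun k g => if k = p then chi ρ g else conj (chi ρ g))
      (fun k => by
        by_cases hk : k = p
        · simp only [hk, if_true]
          exact cont_chi hc
        · simp only [hk, if_false]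
          exact hcj)
      (fun k g h => by rw [chi_cls])
    rw [Finset.prod_pair hpq] at h3
    simp only [Finset.prod_pair hpq, if_true, if_neg (Ne.symm hpq)] at h3
    rw [int_chi hc hs hn, zero_mul] at h3
    exact h3

/-- the Gram matrix is close to the identity -/
theorem gram_ev2 {ι : Type} [DecidableEq ι] {x : HeightOneSpectrum (𝓞 K) → ι → G}
    (h2 : ∀ S : Finset ι, S.card ≤ 2 → TLc x (fun _ => μ) S) (hc : Continuous ρ)
    (hs : Schur ρ) (hn : ∃ g, ρ g ≠ 1) (S : Finset ι) {η : ℝ} (hη : 0 < η) :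
    ∀ᶠ N : ℕ in atTop, ∀ p ∈ S,
      ∑ q ∈ S, ‖mn (fun v => chi ρ (x v p) * conj (chi ρ (x v q))) N‖ ≤ 1 + η := by
  rw [Finset.eventually_all]
  intro p hp
  have h3 : Tendsto (fun N => ∑ q ∈ S, ‖mn (fun v => chi ρ (x v p) * conj (chi ρ (x v q))) N‖)
      atTop (𝓝 (∑ q ∈ S, ‖(if p = q then (1 : ℂ) else 0)‖)) :=
    tendsto_finsetSum _ fun q _ => (gram_lim h2 hc hs hn p q).norm
  have h4 : ∑ q ∈ S, ‖(if p = q then (1 : ℂ) else 0)‖ = 1 := by
    rw [Finset.sum_eq_single p (fun q _ hq => by rw [if_neg (Ne.symm hq), norm_zero])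
      (fun h => absurd hp h), if_pos rfl, norm_one]
  rw [h4] at h3
  exact (h3.eventually_lt_const (by linarith : (1 : ℝ) < 1 + η)).mono fun N hN => hN.le

variable {Γ : Type} [Fintype Γ] [DecidableEq Γ] [Nonempty Γ]
  {γ : Γ → Equiv.Perm (HeightOneSpectrum (𝓞 K))}
  {y : HeightOneSpectrum (𝓞 K) → G}

theorem le_div_sqrt {r : ℕ} (hr : 0 < r) {β κ : ℝ} (hκ : 0 ≤ κ)
    (h : (r : ℝ) * β ^ 2 ≤ κ ^ 2) : β ≤ κ / Real.sqrt r := by
  have hr' : (0 : ℝ) < r := by exact_mod_cast hr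
  have hs : 0 < Real.sqrt r := Real.sqrt_pos.2 hr'
  rw [le_div_iff₀ hs]
  refine le_of_sq_le_sq ?_ hκ |> fun h => h
  rw [mul_pow, Real.sq_sqrt hr'.le]
  linarith

/-- **The averages.** -/
theorem conj_avg (hγ : ∀ g, NP (γ g))
    (h2 : ∀ S : Finset Γ, S.card ≤ 2 → TLc (fun v (g : Γ) => y (γ g v)) (fun _ => μ) S)
    (hc : Continuous ρ) (hs : Schur ρ) (hn : ∃ g, ρ g ≠ 1) {u : HeightOneSpectrum (𝓞 K) → ℂ}
    (hub : Bc u) (hu : ∀ g v, u (γ g v) = u v) {κ : ℝ} (hκ : 0 ≤ κ)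
    (hκu : ∀ U : Ultrafilter ℕ, (U : Filter ℕ) ≤ atTop → (MN U fun v => ‖u v‖ ^ 2) ≤ κ ^ 2)
    {η : ℝ} (hη : 0 < η) : ∀ᶠ N : ℕ in atTop, ‖mn (fun v => u v * chi ρ (y v)) N‖ ≤
      κ / Real.sqrt (Fintype.card Γ) + η := by
  refine ev_le (fun U hU => ?_) hη
  set b : ℕ → ℝ := fun N => ‖mn (fun v => u v * chi ρ (y v)) N‖ with hb
  have hbc : Bc fun v => u v * chi ρ (y v) := hub.mul ⟨d, fun v => norm_chi ρ _⟩
  obtain ⟨B, hB⟩ := hbc
  have hbb : ∀ N, |b N| ≤ |B| := by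
    intro N
    rw [hb]
    simp only
    rw [abs_of_nonneg (norm_nonneg _)]
    refine (norm_mn_le _ _).trans ((le_abs_self _).trans ?_)
    exact abs_mn_le (fun v => by
      rw [abs_of_nonneg (norm_nonneg _)]
      exact (hB v).trans (le_abs_self B)) (abs_nonneg B) N
  obtain ⟨β, hβ⟩ := lim_of_bdd U hbb
  refine ⟨β, hβ, le_div_sqrt Fintype.card_pos hκ ?_⟩
  refine le_of_forall_pos_le_add fun θ hθ => ?_
  set η' : ℝ := θ / (κ ^ 2 + 1) with hη'
  have hη'0 : 0 < η' := by positivity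
  have h3 := (gram_ev2 h2 hc hs hn Finset.univ hη'0).filter_mono hU
  have h4 : ∀ᶠ N in (U : Filter ℕ), (Fintype.card Γ : ℝ) * b N ^ 2 ≤
      mn (fun v => ‖u v‖ ^ 2) N * (1 + η') := by
    filter_upwards [h3] with N hN
    have h5 := bess_fin2 N Finset.univ (fun g v => chi ρ (y (γ g v))) u
      (by positivity : (0 : ℝ) ≤ 1 + η') hN
    have h6 : ∀ g, mn (fun v => u v * chi ρ (y (γ g v))) N =
        mn (fun v => u v * chi ρ (y v)) N := by
      intro g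
      rw [← mn_perm (hγ g) fun v => u v * chi ρ (y v)]
      congr 1
      funext v
      rw [hu]
    simp only [h6] at h5
    rw [Finset.sum_const, Finset.card_univ, nsmul_eq_mul] at h5
    exact h5
  have h5 := le_of_tendsto_of_tendsto ((hβ.pow 2).const_mul (Fintype.card Γ : ℝ))
    ((MN_lim (hub.norm.sq)).mul_const (1 + η')) h4
  have h6 := hκu U hU
  have h7 : (MN U fun v => ‖u v‖ ^ 2) * (1 + η') ≤ κ ^ 2 * (1 + η') :=
    mul_le_mul_of_nonneg_right h6 (by positivity)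
  have h8 : κ ^ 2 * η' ≤ θ := by
    rw [hη', ← mul_div_assoc, div_le_iff₀ (by positivity)]
    nlinarith [sq_nonneg κ]
  linarith

/-- **The sizes of the L-functions.** -/
theorem conj_M (hγ : ∀ g, NP (γ g))
    (h2 : ∀ S : Finset Γ, S.card ≤ 2 → TLc (fun v (g : Γ) => y (γ g v)) (fun _ => μ) S)
    (hc : Continuous ρ) (hs : Schur ρ) (hn : ∃ g, ρ g ≠ 1) {u : HeightOneSpectrum (𝓞 K) → ℂ}
    (hub : Bc u) (hu : ∀ g v, u (γ g v) = u v) {κ : ℝ} (hκ : 0 ≤ κ)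
    {U : Ultrafilter ℝ} (hU : (U : Filter ℝ) ≤ 𝓝[>] 0)
    (hκu : (M (nm K) U fun v => ‖u v‖ ^ 2) ≤ κ ^ 2) (τ : ℝ) :
    |M (nm K) U fun v => ((u v * chi ρ (y v)) * ((nm K v : ℕ) : ℂ) ^ (-(τ * I : ℂ))).re| ≤
      κ / Real.sqrt (Fintype.card Γ) := by
  classical
  set b : ℝ := M (nm K) U fun v =>
    ((u v * chi ρ (y v)) * ((nm K v : ℕ) : ℂ) ^ (-(τ * I : ℂ))).re with hb
  set u' : HeightOneSpectrum (𝓞 K) → ℂ := fun v =>
    u v * ((nm K v : ℕ) : ℂ) ^ (-(τ * I : ℂ)) with hu'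
  have hnu : ∀ v, ‖u' v‖ = ‖u v‖ := fun v => by
    rw [hu']
    simp only
    rw [norm_mul, norm_cpow_I (nm_pos v), mul_one]
  have hub' : Bc u' := by
    obtain ⟨B, hB⟩ := hub
    exact ⟨B, fun v => by rw [hnu]; exact hB v⟩
  have hxx : ∀ (g : Γ) v, wt' ρ (fun v (g : Γ) => y (γ g v)) (g, 0) v = chi ρ (y (γ g v)) := by
    intro g v
    unfold wt'
    simp
  have h3 := bess_M hU (Finset.univ : Finset Γ)
    (w := fun g => wt' ρ (fun v (g : Γ) => y (γ g v)) (g, 0)) (u := u') hub'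
    (fun g _ => bc_wt _) (fun g _ h _ => by
      rw [gram_M h2 hc hs hn hU (g, 0) (h, 0)]
      by_cases hgh : g = h
      · rw [if_pos (by rw [hgh]), if_pos hgh]
      · rw [if_neg (by
          intro h4
          exact hgh (Prod.ext_iff.1 h4).1), if_neg hgh])
  have h4 : ∀ g : Γ, (M (nm K) U fun v =>
      (u' v * wt' ρ (fun v (g : Γ) => y (γ g v)) (g, 0) v).re) = b := by
    intro g
    have h5 := M_perm (hγ g) U fun v =>
      ((u v * chi ρ (y v)) * ((nm K v : ℕ) : ℂ) ^ (-(τ * I : ℂ))).re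
    rw [hb, ← h5]
    congr 1
    funext v
    rw [hxx, hu', hγ g v, hu]
    congr 1
    ring
  simp only [h4, hnu] at h3
  rw [Finset.sum_const, Finset.card_univ, nsmul_eq_mul] at h3
  refine le_div_sqrt Fintype.card_pos hκ ?_
  rw [sq_abs]
  linarith

end

end Pool.Agent.Hp428.ST
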