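import Pool.Agent.Hp428.ST.Bound

set_option autoImplicit false
set_option linter.unusedSectionVars false

/-!
# The L-functions of tensor products at the edge
-/

namespace Pool.Agent.Hp428.ST

open Complex Filter Topology ComplexConjugate NumberField IsDedekindDomain MeasureTheory
  Pool.Agent.W540.BE Pool.Agent.TH553.RS Pool.Agent.H341R2 Pool.Agent.TH553.ST

section

variable {K : Type} [Field K] [NumberField K]
variable {ι : Type} [DecidableEq ι] {G : ι → Type} [∀ i, Group (G i)]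
  {d : ι → ℕ}

/-- the tensor product of the matrices `π i (g i)` for `i ∈ S` -/
noncomputable def tens (π : ∀ i, G i →* Matrix.unitaryGroup (Fin (d i)) ℂ) (S : Finset ι)
    (g : ∀ i, G i) : Matrix (∀ i : S, Fin (d i)) (∀ i : S, Fin (d i)) ℂ :=
  Matrix.of fun a b => ∏ i : S, (π i (g i) : Matrix (Fin (d i)) (Fin (d i)) ℂ) (a i) (b i)

variable {π : ∀ i, G i →* Matrix.unitaryGroup (Fin (d i)) ℂ}

theorem tens_mem (S : Finset ι) (g : ∀ i, G i) :
    tens π S g ∈ Matrix.unitaryGroup (∀ i : S, Fin (d i)) ℂ := by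
  rw [Matrix.mem_unitaryGroup_iff]
  ext a b
  rw [Matrix.mul_apply, Matrix.one_apply]
  have h : ∀ i : S, ∑ c : Fin (d i), (π i (g i) : Matrix (Fin (d i)) (Fin (d i)) ℂ) (a i) c *
      conj ((π i (g i) : Matrix (Fin (d i)) (Fin (d i)) ℂ) (b i) c) =
      if a i = b i then 1 else 0 := by
    intro i
    have h1 := Matrix.mem_unitaryGroup_iff.1 (π i (g i)).2
    have h2 := congrFun (congrFun h1 (a i)) (b i)
    rw [Matrix.mul_apply, Matrix.one_apply] at h2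
    exact h2
  have h1 : ∀ c : (∀ i : S, Fin (d i)), tens π S g a c * star (tens π S g) c b =
      ∏ i : S, ((π i (g i) : Matrix (Fin (d i)) (Fin (d i)) ℂ) (a i) (c i) *
      conj ((π i (g i) : Matrix (Fin (d i)) (Fin (d i)) ℂ) (b i) (c i))) := by
    intro c
    rw [Finset.prod_mul_distrib]
    congr 1
    rw [Matrix.star_apply]
    unfold tens
    rw [Matrix.of_apply]
    exact map_prod (starRingEnd ℂ) _ _
  rw [Finset.sum_congr rfl fun c _ => h1 c]
  have h2 := Finset.prod_univ_sum (fun i : S => (Finset.univ : Finset (Fin (d i))))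
    (fun i c => (π i (g i) : Matrix (Fin (d i)) (Fin (d i)) ℂ) (a i) c *
      conj ((π i (g i) : Matrix (Fin (d i)) (Fin (d i)) ℂ) (b i) c))
  rw [Fintype.piFinset_univ] at h2
  rw [← h2, Finset.prod_congr rfl fun i _ => h i]
  by_cases hab : a = b
  · subst hab
    simp
  · rw [if_neg hab]
    obtain ⟨i, hi⟩ := Function.ne_iff.1 hab
    exact Finset.prod_eq_zero (Finset.mem_univ i) (if_neg hi)

theorem tens_trace (S : Finset ι) (g : ∀ i, G i) :
    (tens π S g).trace = ∏ i ∈ S, chi (π i) (g i) := by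
  have h2 := Finset.prod_univ_sum (fun i : S => (Finset.univ : Finset (Fin (d i))))
    (fun i c => (π i (g i) : Matrix (Fin (d i)) (Fin (d i)) ℂ) c c)
  rw [Fintype.piFinset_univ] at h2
  rw [← Finset.prod_coe_sort S fun i => chi (π i) (g i)]
  exact h2.symm

theorem norm_prod_chi (S : Finset ι) (x : HeightOneSpectrum (𝓞 K) → ∀ i, G i)
    (v : HeightOneSpectrum (𝓞 K)) : ‖∏ i ∈ S, chi (π i) (x v i)‖ ≤ ∏ i ∈ S, (d i : ℝ) := by
  rw [norm_prod]
  exact Finset.prod_le_prod (fun i _ => norm_nonneg _) fun i _ => norm_chi (π i) _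

/-- the L-function -/
noncomputable def LT (π : ∀ i, G i →* Matrix.unitaryGroup (Fin (d i)) ℂ) (S : Finset ι)
    (x : HeightOneSpectrum (𝓞 K) → ∀ i, G i) (s : ℂ) : ℂ :=
  ∏' v, (Matrix.det (1 - (((nm K v : ℕ) : ℂ) ^ (-s)) • tens π S (x v)))⁻¹

/-- the size -/
noncomputable def szT (π : ∀ i, G i →* Matrix.unitaryGroup (Fin (d i)) ℂ) (S : Finset ι)
    (x : HeightOneSpectrum (𝓞 K) → ∀ i, G i) (τ ε : ℝ) : ℝ :=
  Real.log ‖LT π S x (1 + τ * I + ε)‖ / Real.log (1 / ε)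

theorem exists_alT (S : Finset ι) (x : HeightOneSpectrum (𝓞 K) → ∀ i, G i) :
    ∃ α : HeightOneSpectrum (𝓞 K) → Fin (Fintype.card (∀ i : S, Fin (d i))) → ℂ,
      (∀ v j, ‖α v j‖ = 1) ∧ (∀ v, ∑ j, α v j = ∏ i ∈ S, chi (π i) (x v i)) ∧
      ∀ v (c : ℂ), Matrix.det (1 - c • tens π S (x v)) = ∏ j, (1 - α v j * c) := by
  choose α h1 h2 h3 using fun v => exists_eig (tens_mem (π := π) S (x v))
  exact ⟨α, h1, fun v => (h2 v).trans (tens_trace S (x v)), h3⟩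

theorem size_T (S : Finset ι) (x : HeightOneSpectrum (𝓞 K) → ∀ i, G i) (τ : ℝ) :
    (∀ᶠ ε : ℝ in 𝓝[>] 0, LT π S x (1 + τ * I + ε) ≠ 0) ∧
    Tendsto (fun ε : ℝ => qt (nm K) (fun v =>
      ((∏ i ∈ S, chi (π i) (x v i)) * ((nm K v : ℕ) : ℂ) ^ (-(τ * I : ℂ))).re) ε -
        szT π S x τ ε) (𝓝[>] 0) (𝓝 0) := by
  obtain ⟨α, h1, h2, h3⟩ := exists_alT (π := π) S x
  set B : HeightOneSpectrum (𝓞 K) → Polynomial ℂ := fun v =>
    ∏ j, (1 - Polynomial.C (α v j) * Polynomial.X) with hB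
  have hBe : ∀ v z, (B v).eval z = ∏ j, (1 - α v j * z) := by
    intro v z
    rw [hB]
    simp [Polynomial.eval_prod]
  exact size_unit (sysF K) α (Filter.Eventually.of_forall h1)
    (t := fun v => ∏ i ∈ S, chi (π i) (x v i)) (C := ∏ i ∈ S, (d i : ℝ))
    (fun v => norm_prod_chi S x v)
    (Filter.Eventually.of_forall h2) τ B (Filter.Eventually.of_forall hBe)
    (fun v => by
      rw [hBe, Finset.prod_ne_zero_iff]
      intro j _ h4
      have h5 : ‖α v j * ((nm K v : ℕ) : ℂ) ^ (-(1 + τ * I : ℂ))‖ = 1 := by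
        have : α v j * ((nm K v : ℕ) : ℂ) ^ (-(1 + τ * I : ℂ)) = 1 := by linear_combination -h4
        rw [this, norm_one]
      rw [norm_mul, h1, one_mul] at h5
      have h6 := cpow_le_half normSys v (s := 1 + τ * I) (by simp)
      linarith) (LT π S x)
    (fun s _ => by
      unfold LT
      refine tprod_congr fun v => ?_
      rw [h3, hBe])

theorem order_T {S : Finset ι} {x : HeightOneSpectrum (𝓞 K) → ∀ i, G i}
    {τ : ℝ} {Λ : ℂ → ℂ} (h1 : MeromorphicAt Λ (1 + τ * I))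
    (h2 : ∀ᶠ s in 𝓝 ((1 : ℂ) + τ * I), (1 : ℝ) < s.re → Λ s = LT π S x s) :
    ∃ m : ℤ, meromorphicOrderAt Λ (1 + τ * I) = m ∧
      Tendsto (szT π S x τ) (𝓝[>] 0) (𝓝 (-(m : ℝ))) :=
  order_unit (size_T S x τ).1 h1 h2

/-- averages from orders -/
theorem avg_T {S : Finset ι} {x : HeightOneSpectrum (𝓞 K) → ∀ i, G i}
    (h : ∀ τ : ℝ, ∃ Λ : ℂ → ℂ, MeromorphicAt Λ (1 + τ * I) ∧
      (∀ᶠ s in 𝓝 ((1 : ℂ) + τ * I), (1 : ℝ) < s.re → Λ s = LT π S x s) ∧
      meromorphicOrderAt Λ (1 + τ * I) = ((0 : ℤ) : WithTop ℤ)) :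
    Tendsto (mn fun v => ∏ i ∈ S, chi (π i) (x v i)) atTop (𝓝 0) := by
  obtain ⟨α, h1, h2, h3⟩ := exists_alT (π := π) S x
  have h4 := taub h1 (L := LT π S x) (fun s _ => by
    unfold LT
    exact tprod_congr fun v => by rw [h3]) (fun τ => by
    obtain ⟨Λ, h5, h6, h7⟩ := h τ
    obtain ⟨g, h10, h11, h12⟩ := (meromorphicOrderAt_eq_int_iff h5).1 h7
    refine ⟨g, h10, h11, ?_⟩
    rw [eventually_nhdsWithin_iff] at h12
    filter_upwards [h12, h6] with s h13 h14 h15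
    have hne : s ≠ 1 + τ * I := by
      intro h
      rw [h] at h15
      simp at h15
    have h16 := h13 hne
    rw [zpow_zero, one_smul] at h16
    rw [← h16, h14 h15])
  refine h4.congr fun N => ?_
  congr 1
  funext v
  exact h2 v

variable [∀ i, TopologicalSpace (G i)] [∀ i, IsTopologicalGroup (G i)]
  [∀ i, CompactSpace (G i)]

/-- the size of the L-function from the means of the absolute values -/
theorem edge_le {S : Finset ι} {x : HeightOneSpectrum (𝓞 K) → ∀ i, G i}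
    (hc : ∀ i, Continuous (π i)) {κ : ℝ}
    (h : ∀ U : Ultrafilter ℝ, (U : Filter ℝ) ≤ 𝓝[>] 0 →
      (M (nm K) U fun v => ∏ i ∈ S, ‖chi (π i) (x v i)‖) ≤ κ) (τ : ℝ) {η : ℝ} (hη : 0 < η) :
    ∀ᶠ ε in 𝓝[>] (0 : ℝ), |szT π S x τ ε| ≤ κ + η := by
  have hcn : ∀ i, Continuous fun g => ‖chi (π i) g‖ := fun i => (cont_chi (hc i)).norm
  refine ev_le (fun U hU => ?_) hη
  set φ : HeightOneSpectrum (𝓞 K) → ℝ := fun v =>
    ((∏ i ∈ S, chi (π i) (x v i)) * ((nm K v : ℕ) : ℂ) ^ (-(τ * I : ℂ))).re with hφ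
  have hle : ∀ v, |φ v| ≤ ∏ i ∈ S, ‖chi (π i) (x v i)‖ := by
    intro v
    refine (Complex.abs_re_le_norm _).trans ?_
    rw [norm_mul, norm_cpow_I (nm_pos v), mul_one, norm_prod]
  have hb := bd_prod (x := x) hcn S
  have hφb : Bd φ := by
    obtain ⟨B, hB⟩ := hb
    exact ⟨B, fun v => (hle v).trans ((le_abs_self _).trans (hB v))⟩
  have h1 := M_lim (sysF K) hU hφb
  have h2 := h1.sub ((size_T (π := π) S x τ).2.mono_left hU)
  rw [sub_zero] at h2
  have h3 : Tendsto (szT π S x τ) U (𝓝 (M (nm K) U φ)) := by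
    refine h2.congr fun ε => ?_
    ring
  exact ⟨|M (nm K) U φ|, h3.abs, ((isM_M hU).abs_le hφb hb hle).trans (h U hU)⟩

theorem order_zero {S : Finset ι} {x : HeightOneSpectrum (𝓞 K) → ∀ i, G i}
    (hc : ∀ i, Continuous (π i)) {κ : ℝ} (hκ : κ < 1)
    (h : ∀ U : Ultrafilter ℝ, (U : Filter ℝ) ≤ 𝓝[>] 0 →
      (M (nm K) U fun v => ∏ i ∈ S, ‖chi (π i) (x v i)‖) ≤ κ) {τ : ℝ} {Λ : ℂ → ℂ}
    (h1 : MeromorphicAt Λ (1 + τ * I))
    (h2 : ∀ᶠ s in 𝓝 ((1 : ℂ) + τ * I), (1 : ℝ) < s.re → Λ s = LT π S x s) :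
    meromorphicOrderAt Λ (1 + τ * I) = ((0 : ℤ) : WithTop ℤ) := by
  obtain ⟨m, h3, h4⟩ := order_T h1 h2
  have h5 := edge_le hc h τ (η := (1 - κ) / 2) (by linarith)
  have h6 := le_of_tendsto h4.abs h5
  rw [abs_neg] at h6
  have h7 : |(m : ℝ)| < 1 := by linarith
  have h8 : m = 0 := Int.abs_lt_one_iff.1 (by exact_mod_cast h7)
  rw [h3, h8]

end

end Pool.Agent.Hp428.ST
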