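import Pool.Agent.Hp428.ST.PWn
import Pool.Agent.Hp428.ST.Edge
import Pool.Agent.Hp428.ST.Bound4

set_option autoImplicit false
set_option linter.unusedSectionVars false

/-!
# Joint equidistribution of all subfamilies
-/

namespace Pool.Agent.Hp428.ST

open Complex Filter Topology ComplexConjugate MeasureTheory NumberField IsDedekindDomain
  Pool.Agent.W540.BE Pool.Agent.TH553.RS Pool.Agent.H341R2 Pool.Agent.TH553.ST

section

variable {K : Type} [Field K] [NumberField K]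

/-- equidistribution -/
def EqD {H : Type} [Group H] [TopologicalSpace H] [MeasurableSpace H]
    (y : HeightOneSpectrum (𝓞 K) → H) (ν : Measure H) : Prop :=
  ∀ f : H → ℂ, Continuous f → (∀ g h, f (h * g * h⁻¹) = f g) →
    Tendsto (mn fun v => f (y v)) atTop (𝓝 (∫ g, f g ∂ν))

theorem mn_constC (c : ℂ) : Tendsto (mn fun _ : HeightOneSpectrum (𝓞 K) => c) atTop (𝓝 c) := by
  have h8 : Tendsto (fun N : ℕ => c) atTop (𝓝 c) := tendsto_const_nhds
  refine h8.congr' ?_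
  filter_upwards [card_ev (K := K)] with N hN
  unfold mn
  rw [Finset.sum_const, Complex.real_smul, nsmul_eq_mul]
  push_cast
  have hN' : ((upto K N).card : ℂ) ≠ 0 := by exact_mod_cast hN
  field_simp

end

section

variable {K : Type} [Field K] [NumberField K]
variable {ι : Type} [Fintype ι] [DecidableEq ι] [Nonempty ι] {G : ι → Type} [∀ i, Group (G i)]
  [∀ i, TopologicalSpace (G i)] [∀ i, IsTopologicalGroup (G i)] [∀ i, CompactSpace (G i)]
  [∀ i, T2Space (G i)] [∀ i, SecondCountableTopology (G i)]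
  [∀ i, MeasurableSpace (G i)] [∀ i, BorelSpace (G i)]
  {y : HeightOneSpectrum (𝓞 K) → ∀ i, G i} {μ : ∀ i, Measure (G i)}
  [∀ i, IsProbabilityMeasure (μ i)] [∀ i, (μ i).IsHaarMeasure]

omit [Nonempty ι] [DecidableEq ι] [∀ i, T2Space (G i)] in
theorem int_prod_chi {m : ι → ℕ} {ρ : ∀ i, G i →* Matrix.unitaryGroup (Fin (m i)) ℂ}
    (h1 : ∀ i, Continuous (ρ i)) (h2 : ∀ i, Schur (ρ i)) (h3 : ∃ i, ∃ g, ρ i g ≠ 1) :
    ∫ g, ∏ i, chi (ρ i) (g i) ∂(Measure.pi μ) = 0 := by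
  obtain ⟨i, hi⟩ := h3
  rw [integral_fintype_prod_eq_prod (𝕜 := ℂ) (fun i (g : G i) => chi (ρ i) g)]
  exact Finset.prod_eq_zero (Finset.mem_univ i) (int_chi (h1 i) (h2 i) hi)

/-- **Weyl's criterion for a product.** -/
theorem weyl_n (h : ∀ (m : ι → ℕ) (ρ : ∀ i, G i →* Matrix.unitaryGroup (Fin (m i)) ℂ),
    (∀ i, Continuous (ρ i)) → (∀ i, Schur (ρ i)) → (∀ i, m i ≠ 0) → (∃ i, ∃ g, ρ i g ≠ 1) →
    Tendsto (mn fun v => ∏ i, chi (ρ i) (y v i)) atTop (𝓝 0)) : EqD y (Measure.pi μ) := by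
  intro f hf hcl
  refine mn_unif fun ε hε => ?_
  obtain ⟨Fn, h1, h2⟩ := dn_dense μ hf hcl hε
  obtain ⟨J, _, m, ρ, a, h3, h4⟩ := h1
  have hci : ∀ j, Continuous fun g : ∀ i, G i => ∏ i, chi (ρ j i) (g i) := fun j =>
    continuous_finsetProd _ fun i _ => (cont_chi (h3 j i).1).comp (continuous_apply i)
  have hFc : Continuous Fn := by
    have : Fn = fun g => ∑ j, a j * ∏ i, chi (ρ j i) (g i) := funext h4
    rw [this]
    exact continuous_finsetSum _ fun j _ => continuous_const.mul (hci j)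
  refine ⟨fun v => Fn (y v), ∫ g, Fn g ∂(Measure.pi μ), fun v => h2 _, ?_, ?_⟩
  · rw [← integral_sub (intn μ hFc) (intn μ hf)]
    refine (norm_integral_le_integral_norm _).trans ?_
    have h5 : ∫ g, ‖Fn g - f g‖ ∂(Measure.pi μ) ≤ ∫ _, ε ∂(Measure.pi μ) := by
      refine integral_mono ((intn μ hFc).sub (intn μ hf)).norm (integrable_const _) fun g => ?_
      simp only
      rw [norm_sub_rev]
      exact h2 g
    simpa using h5
  · have h5 : ∫ g, Fn g ∂(Measure.pi μ) =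
        ∑ j, a j * ∫ g, ∏ i, chi (ρ j i) (g i) ∂(Measure.pi μ) := by
      simp only [h4]
      rw [integral_finsetSum _ fun j _ => (intn μ (hci j)).const_mul _]
      exact Finset.sum_congr rfl fun j _ => integral_const_mul _ _
    have h6 : ∀ j, Tendsto (mn fun v => ∏ i, chi (ρ j i) (y v i)) atTop
        (𝓝 (∫ g, ∏ i, chi (ρ j i) (g i) ∂(Measure.pi μ))) := by
      intro j
      by_cases hn : ∃ i, ∃ g, ρ j i g ≠ 1
      · rw [int_prod_chi (fun i => (h3 j i).1) (fun i => (h3 j i).2) hn]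
        by_cases hm : ∀ i, m j i ≠ 0
        · exact h _ (ρ j) (fun i => (h3 j i).1) (fun i => (h3 j i).2) hm hn
        · push Not at hm
          obtain ⟨i, hi⟩ := hm
          have h7 : ∀ v, ∏ i, chi (ρ j i) (y v i) = 0 := by
            intro v
            refine Finset.prod_eq_zero (Finset.mem_univ i) ?_
            have h8 := norm_chi (ρ j i) (y v i)
            have h9 : ((m j i : ℕ) : ℝ) = 0 := by exact_mod_cast hi
            rw [h9] at h8
            exact norm_le_zero_iff.1 h8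
          simp only [h7]
          exact mn_constC 0
      · push Not at hn
        have h7 : ∀ g : ∀ i, G i, ∏ i, chi (ρ j i) (g i) = ∏ i, (m j i : ℂ) := fun g =>
          Finset.prod_congr rfl fun i _ => chi_triv (hn i) _
        simp only [h7]
        have h8 : ∫ _ : (∀ i, G i), (∏ i, (m j i : ℂ)) ∂(Measure.pi μ) = ∏ i, (m j i : ℂ) := by
          simp
        rw [h8]
        exact mn_constC _
    rw [h5]
    have h7 : Tendsto (fun N => ∑ j, a j * mn (fun v => ∏ i, chi (ρ j i) (y v i)) N) atTop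
        (𝓝 (∑ j, a j * ∫ g, ∏ i, chi (ρ j i) (g i) ∂(Measure.pi μ))) :=
      tendsto_finsetSum _ fun j _ => (h6 j).const_mul _
    refine h7.congr fun N => ?_
    have e : (fun v => Fn (y v)) = fun v => ∑ j, a j * ∏ i, chi (ρ j i) (y v i) :=
      funext fun v => h4 _
    rw [e, mn_sum]
    exact Finset.sum_congr rfl fun j _ => (mn_mul _ _ _).symm

end

section

variable {K : Type} [Field K] [NumberField K]
variable {ι : Type} [DecidableEq ι] {G : ι → Type} [∀ i, Group (G i)]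
  [∀ i, TopologicalSpace (G i)] [∀ i, IsTopologicalGroup (G i)] [∀ i, CompactSpace (G i)]
  [∀ i, T2Space (G i)] [∀ i, SecondCountableTopology (G i)]
  [∀ i, MeasurableSpace (G i)] [∀ i, BorelSpace (G i)]
  {x : HeightOneSpectrum (𝓞 K) → ∀ i, G i} {μ : ∀ i, Measure (G i)}
  [∀ i, IsProbabilityMeasure (μ i)] [∀ i, (μ i).IsHaarMeasure] {S : Finset ι}

/-- the subfamily with indices in `S` is jointly equidistributed -/
def Jt (x : HeightOneSpectrum (𝓞 K) → ∀ i, G i) (μ : ∀ i, Measure (G i)) (S : Finset ι) : Prop :=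
  EqD (fun v (i : S) => x v i) (Measure.pi fun i : S => μ i)

/-- the averages of the products of complex class functions -/
def TLc (x : HeightOneSpectrum (𝓞 K) → ∀ i, G i) (μ : ∀ i, Measure (G i)) (S : Finset ι) :
    Prop :=
  ∀ f : ∀ i, G i → ℂ, (∀ i, Continuous (f i)) → (∀ i g h, f i (h * g * h⁻¹) = f i g) →
    Tendsto (mn fun v => ∏ i ∈ S, f i (x v i)) atTop (𝓝 (∏ i ∈ S, ∫ g, f i g ∂μ i))

omit [DecidableEq ι] [∀ i, IsTopologicalGroup (G i)] [∀ i, CompactSpace (G i)]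
  [∀ i, T2Space (G i)] [∀ i, SecondCountableTopology (G i)] [∀ i, BorelSpace (G i)]
  [∀ i, (μ i).IsHaarMeasure] in
theorem Jt.tlc (h : Jt x μ S) : TLc x μ S := by
  intro f hf hcl
  have h1 := h (fun p => ∏ i : S, f i (p i))
    (continuous_finsetProd _ fun i _ => (hf i).comp (continuous_apply i))
    (fun g k => Finset.prod_congr rfl fun i _ => hcl i (g i) (k i))
  have e1 : ∀ v, ∏ i : S, f i (x v i) = ∏ i ∈ S, f i (x v i) := fun v =>
    Finset.prod_coe_sort S fun i => f i (x v i)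
  have e2 : ∫ p, ∏ i : S, f i (p i) ∂(Measure.pi fun i : S => μ i) =
      ∏ i ∈ S, ∫ g, f i g ∂μ i := by
    rw [integral_fintype_prod_eq_prod (𝕜 := ℂ) (fun (i : S) (g : G i) => f i g)]
    exact Finset.prod_coe_sort S fun i => ∫ g, f i g ∂μ i
  rw [e2] at h1
  simp only [e1] at h1
  exact h1

omit [∀ i, IsTopologicalGroup (G i)] [∀ i, T2Space (G i)]
  [∀ i, SecondCountableTopology (G i)] [∀ i, BorelSpace (G i)]
  [∀ i, (μ i).IsHaarMeasure] in
theorem TLc.tl (h : TLc x μ S) : TL x μ S := by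
  intro f hf hcl
  have h1 := h (fun i g => (f i g : ℂ)) (fun i => Complex.continuous_ofReal.comp (hf i))
    (fun i g k => by rw [hcl])
  have h2 := (Complex.continuous_re.tendsto _).comp h1
  have e1 : (∏ i ∈ S, ∫ g, (f i g : ℂ) ∂μ i).re = ∏ i ∈ S, ∫ g, f i g ∂μ i := by
    have : ∏ i ∈ S, ∫ g, (f i g : ℂ) ∂μ i = ((∏ i ∈ S, ∫ g, f i g ∂μ i : ℝ) : ℂ) := by
      rw [Complex.ofReal_prod]
      exact Finset.prod_congr rfl fun i _ => integral_ofReal
    rw [this, Complex.ofReal_re]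
  rw [e1] at h2
  refine h2.congr fun N => ?_
  simp only [Function.comp]
  rw [re_mn]
  congr 1
  funext v
  rw [← Complex.ofReal_prod, Complex.ofReal_re]

/-- a mean that is at most `κ < 1` in all cases of a nontrivial tensor product -/
theorem kappa_gen {d : ι → ℕ} {π : ∀ i, G i →* Matrix.unitaryGroup (Fin (d i)) ℂ}
    (hc : ∀ i, Continuous (π i)) (hs : ∀ i, Schur (π i))
    (hd : ∀ i, d i ≠ 0) {i k : ι} (hi : i ∈ S) (hk : k ∈ S) (hik : i ≠ k)
    {m : (HeightOneSpectrum (𝓞 K) → ℝ) → ℝ} (hm : IsM m)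
    (h1 : PLw m x μ (S.erase k)) (h2 : PLw m x μ {i, k}) :
    (m fun v => ∏ j ∈ S, ‖chi (π j) (x v j)‖) ≤
      Real.sqrt (1 - (∫ g, |‖chi (π i) g‖ ^ 2 - 1| ∂μ i) ^ 2 / 4) := by
  have h3 := bound_gen hm hc hs hd hi hk hik h1 h2
  refine Real.le_sqrt_of_sq_le ?_
  linarith

omit [∀ i, T2Space (G i)] [∀ i, SecondCountableTopology (G i)] in
theorem kappa_lt {d : ι → ℕ} {π : ∀ i, G i →* Matrix.unitaryGroup (Fin (d i)) ℂ} {i : ι}
    (hc : Continuous (π i)) (hd : 2 ≤ d i) :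
    Real.sqrt (1 - (∫ g, |‖chi (π i) g‖ ^ 2 - 1| ∂μ i) ^ 2 / 4) < 1 := by
  have h1 := dist_pos (μ := μ) hc hd
  rw [Real.sqrt_lt' one_pos]
  have : 0 < (∫ g, |‖chi (π i) g‖ ^ 2 - 1| ∂μ i) ^ 2 := by positivity
  linarith

/-- the meromorphic continuations -/
def Cont (x : HeightOneSpectrum (𝓞 K) → ∀ i, G i) (S : Finset ι) : Prop :=
  ∀ (d : ι → ℕ) (π : ∀ i, G i →* Matrix.unitaryGroup (Fin (d i)) ℂ),
    (∀ i ∈ S, Continuous (π i) ∧ Schur (π i) ∧ ∃ g, π i g ≠ 1) →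
    ∀ τ : ℝ, ∃ Λ : ℂ → ℂ, MeromorphicAt Λ (1 + τ * I) ∧
      ∀ᶠ s in 𝓝 ((1 : ℂ) + τ * I), (1 : ℝ) < s.re → Λ s = LT π S x s

/-- no nontrivial one-dimensional representations -/
def NoOne (H : Type) [Group H] [TopologicalSpace H] : Prop :=
  ∀ χ : H →* Matrix.unitaryGroup (Fin 1) ℂ, Continuous χ → ∀ g, χ g = 1

theorem two_le_of_noOne {H : Type} [Group H] [TopologicalSpace H] (h : NoOne H) {n : ℕ}
    {ρ : H →* Matrix.unitaryGroup (Fin n) ℂ} (hc : Continuous ρ) (hn : ∃ g, ρ g ≠ 1) : 2 ≤ n := by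
  have h0 : n ≠ 0 := by
    rintro rfl
    obtain ⟨g, hg⟩ := hn
    exact hg (Subtype.ext (Subsingleton.elim _ _))
  by_contra hlt
  have h1 : n = 1 := by omega
  subst h1
  obtain ⟨g, hg⟩ := hn
  exact hg (h ρ hc g)

/-- the trivial representation -/
theorem schur_one {H : Type} [Group H] : Schur (1 : H →* Matrix.unitaryGroup (Fin 1) ℂ) := by
  intro A _
  refine ⟨A 0 0, ?_⟩
  ext i j
  rw [Subsingleton.elim i 0, Subsingleton.elim j 0]
  simp

/-- **The step.** -/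
theorem jt_step (hG : ∀ i, NoOne (G i)) (hS : 3 ≤ S.card)
    (hlaw : ∀ T, T ⊂ S → TLc x μ T) (hcont : Cont x S) : Jt x μ S := by
  have hne : Nonempty S := by
    obtain ⟨i, hi⟩ := Finset.card_pos.1 (by omega : 0 < S.card)
    exact ⟨⟨i, hi⟩⟩
  refine weyl_n fun m ρ h1 h2 h3 h4 => ?_
  set R : ∀ i, Σ n : ℕ, (G i →* Matrix.unitaryGroup (Fin n) ℂ) := fun i =>
    if h : i ∈ S then ⟨m ⟨i, h⟩, ρ ⟨i, h⟩⟩ else ⟨1, 1⟩ with hR
  have hRS : ∀ i : S, R i = ⟨m i, ρ i⟩ := fun i => by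
    rw [hR]
    simp only
    rw [dif_pos i.2]
  have hRo : ∀ i, i ∉ S → R i = ⟨1, 1⟩ := fun i hi => by
    rw [hR]
    simp only
    rw [dif_neg hi]
  have hall : ∀ i, Continuous (R i).2 ∧ Schur (R i).2 ∧ (R i).1 ≠ 0 := by
    intro i
    by_cases hi : i ∈ S
    · rw [hRS ⟨i, hi⟩]
      exact ⟨h1 _, h2 _, h3 _⟩
    · rw [hRo i hi]
      exact ⟨continuous_const, schur_one, one_ne_zero⟩
  have hchi : ∀ (i : S) (g : G i), chi (R i).2 g = chi (ρ i) g := fun i g =>
    congrArg (fun r : Σ n : ℕ, (G i →* Matrix.unitaryGroup (Fin n) ℂ) => chi r.2 g) (hRS i)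
  have hprod : (fun v => ∏ i : S, chi (ρ i) (x v i)) =
      fun v => ∏ i ∈ S, chi (R i).2 (x v i) := by
    funext v
    rw [← Finset.prod_coe_sort S fun i => chi (R i).2 (x v i)]
    exact Finset.prod_congr rfl fun i _ => (hchi i _).symm
  rw [hprod]
  have hnt : ∀ i : S, (∃ g, (R i).2 g ≠ 1) ↔ ∃ g, ρ i g ≠ 1 := fun i => by
    rw [hRS i]
  by_cases hA : ∀ i : S, ∃ g, ρ i g ≠ 1
  · -- all nontrivial
    obtain ⟨i, hi, k, hk, hik⟩ := Finset.one_lt_card.1 (by omega : 1 < S.card)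
    have hTe : S.erase k ⊂ S := Finset.erase_ssubset hk
    have hTp : ({i, k} : Finset ι) ⊂ S := by
      rw [Finset.ssubset_iff_subset_ne]
      refine ⟨fun j hj => ?_, fun h => ?_⟩
      · rcases Finset.mem_insert.1 hj with h | h
        · rw [h]; exact hi
        · rw [Finset.mem_singleton.1 h]; exact hk
      · rw [← h, Finset.card_pair hik] at hS
        omega
    have ha := (hlaw _ hTe).tl
    have hb := (hlaw _ hTp).tl
    have h2i : 2 ≤ (R i).1 := two_le_of_noOne (hG i) (hall i).1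
      ((hnt ⟨i, hi⟩).2 (hA ⟨i, hi⟩))
    refine avg_T (π := fun i => (R i).2) fun τ => ?_
    obtain ⟨Λ, hΛ1, hΛ2⟩ := hcont (fun i => (R i).1) (fun i => (R i).2)
      (fun j hj => ⟨(hall j).1, (hall j).2.1, (hnt ⟨j, hj⟩).2 (hA ⟨j, hj⟩)⟩) τ
    refine ⟨Λ, hΛ1, hΛ2, ?_⟩
    exact order_zero (π := fun i => (R i).2) (fun i => (hall i).1)
      (kappa_lt (μ := μ) (π := fun i => (R i).2) (i := i) (hall i).1 h2i)
      (fun U hU => kappa_gen (π := fun i => (R i).2) (fun i => (hall i).1)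
        (fun i => (hall i).2.1) (fun i => (hall i).2.2) hi hk hik (isM_M hU)
        (ha.pl_M hU) (hb.pl_M hU)) hΛ1 hΛ2
  · push Not at hA
    obtain ⟨i₀, hi₀⟩ := hA
    obtain ⟨i₁, hi₁⟩ := h4
    have hne' : (i₁ : ι) ≠ i₀ := by
      intro h
      have h5 : i₁ = i₀ := Subtype.ext h
      subst h5
      obtain ⟨g, hg⟩ := hi₁
      exact hg (hi₀ g)
    have h5 := hlaw (S.erase i₀) (Finset.erase_ssubset i₀.2) (fun i => chi (R i).2)
      (fun i => cont_chi (hall i).1) (fun i g h => chi_cls _ g h)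
    have h6 : ∏ i ∈ S.erase (i₀ : ι), ∫ g, chi (R i).2 g ∂μ i = 0 := by
      refine Finset.prod_eq_zero (Finset.mem_erase.2 ⟨hne', i₁.2⟩) ?_
      exact int_chi (hall i₁).1 (hall i₁).2.1 ((hnt i₁).2 hi₁)
    rw [h6] at h5
    have h7 := h5.const_mul ((m i₀ : ℕ) : ℂ)
    rw [mul_zero] at h7
    refine h7.congr fun N => ?_
    rw [← mn_mul]
    congr 1
    funext v
    rw [← Finset.mul_prod_erase S _ i₀.2]
    congr 1
    rw [hchi i₀, chi_triv hi₀]

/-- **Joint equidistribution of all subfamilies.** -/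
theorem all_jt (hG : ∀ i, NoOne (G i)) (h2 : ∀ S : Finset ι, S.card ≤ 2 → Jt x μ S)
    (hcont : ∀ S : Finset ι, 3 ≤ S.card → Cont x S) (S : Finset ι) : Jt x μ S := by
  induction S using Finset.strongInduction with
  | H S ih =>
    by_cases hS : S.card ≤ 2
    · exact h2 S hS
    · exact jt_step hG (by omega) (fun T hT => (ih T hT).tlc) (hcont S (by omega))

end

end Pool.Agent.Hp428.ST
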