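import Pool.Agent.TH553.RS.Mean

set_option autoImplicit false

/-!
# Means and products of two functions
-/

namespace Pool.Agent.Hp428.ST

open Filter Topology Pool.Agent.TH553.RS

section

variable {P : Type*}

/-- positive normalised linear functionals on the bounded functions -/
structure IsM (m : (P → ℝ) → ℝ) : Prop where
  add : ∀ {φ ψ : P → ℝ}, Bd φ → Bd ψ → m (fun p => φ p + ψ p) = m φ + m ψ
  smul : ∀ {φ : P → ℝ} (c : ℝ), Bd φ → m (fun p => c * φ p) = c * m φ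
  nonneg : ∀ {φ : P → ℝ}, Bd φ → (∀ p, 0 ≤ φ p) → 0 ≤ m φ
  one : m (fun _ => 1) = 1

variable {m : (P → ℝ) → ℝ}

theorem IsM.sub (h : IsM m) {φ ψ : P → ℝ} (hφ : Bd φ) (hψ : Bd ψ) :
    m (fun p => φ p - ψ p) = m φ - m ψ := by
  have h1 := h.add hφ (hψ.const_mul (-1))
  rw [h.smul _ hψ] at h1
  have e : (fun p => φ p - ψ p) = fun p => φ p + -1 * ψ p := by
    funext p
    ring
  rw [e, h1]
  ring

theorem IsM.mono (h : IsM m) {φ ψ : P → ℝ} (hφ : Bd φ) (hψ : Bd ψ) (hle : ∀ p, φ p ≤ ψ p) :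
    m φ ≤ m ψ := by
  have h1 := h.nonneg (hψ.sub hφ) fun p => sub_nonneg.2 (hle p)
  rw [h.sub hψ hφ] at h1
  linarith

theorem IsM.const (h : IsM m) (c : ℝ) : m (fun _ => c) = c := by
  have h1 := h.smul c (Bd.const (P := P) 1)
  rw [h.one, mul_one] at h1
  simpa using h1

/-- Cauchy-Schwarz -/
theorem IsM.cs (h : IsM m) {φ ψ : P → ℝ} (hφ : Bd φ) (hψ : Bd ψ) :
    (m fun p => φ p * ψ p) ^ 2 ≤ (m fun p => φ p ^ 2) * m fun p => ψ p ^ 2 := by
  have key : ∀ x : ℝ, 0 ≤ (m fun p => ψ p ^ 2) * (x * x) +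
      (2 * m fun p => φ p * ψ p) * x + m fun p => φ p ^ 2 := by
    intro x
    have h1 : 0 ≤ m fun p => (φ p + x * ψ p) ^ 2 :=
      h.nonneg (hφ.add (hψ.const_mul x)).sq fun p => sq_nonneg _
    have h2 : (fun p => (φ p + x * ψ p) ^ 2) =
        fun p => ((x * x) * ψ p ^ 2 + (2 * x) * (φ p * ψ p)) + φ p ^ 2 := by
      funext p
      ring
    rw [h2, h.add ((hψ.sq.const_mul _).add ((hφ.mul hψ).const_mul _)) hφ.sq,
      h.add (hψ.sq.const_mul _) ((hφ.mul hψ).const_mul _), h.smul _ hψ.sq,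
      h.smul _ (hφ.mul hψ)] at h1
    linarith
  have h1 := discrim_le_zero key
  rw [discrim] at h1
  nlinarith

/-- **The inequality behind the results**: if `Y C` has a mean close to the geometric mean of the means of
`Y²` and `C²`, then `Y²` and `C²` are close to each other. -/
theorem IsM.key (h : IsM m) {Y C ψ : P → ℝ} (hY : Bd Y) (hC : Bd C) (hψ : Bd ψ)
    (h1 : ∀ p, |ψ p| ≤ 1) :
    (m fun p => (Y p ^ 2 - C p ^ 2) * ψ p) ^ 2 + 4 * (m fun p => Y p * C p) ^ 2 ≤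
      ((m fun p => Y p ^ 2) + m fun p => C p ^ 2) ^ 2 := by
  have hs := hY.sub hC
  have ha := (hY.add hC).mul hψ
  have h2 := h.cs hs ha
  have e1 : (fun p => (Y p - C p) * ((Y p + C p) * ψ p)) =
      fun p => (Y p ^ 2 - C p ^ 2) * ψ p := by
    funext p
    ring
  rw [e1] at h2
  have h3 : (m fun p => ((Y p + C p) * ψ p) ^ 2) ≤ m fun p => (Y p + C p) ^ 2 := by
    refine h.mono ha.sq (hY.add hC).sq fun p => ?_
    rw [mul_pow]
    have h4 : ψ p ^ 2 ≤ 1 := by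
      rw [← sq_abs]
      exact pow_le_one₀ (abs_nonneg _) (h1 p)
    nlinarith [sq_nonneg (Y p + C p)]
  have h4 : (m fun p => (Y p - C p) ^ 2) =
      (m fun p => Y p ^ 2) + (m fun p => C p ^ 2) - 2 * m fun p => Y p * C p := by
    have e2 : (fun p => (Y p - C p) ^ 2) =
        fun p => (Y p ^ 2 + C p ^ 2) + (-2) * (Y p * C p) := by
      funext p
      ring
    rw [e2, h.add (hY.sq.add hC.sq) ((hY.mul hC).const_mul _), h.add hY.sq hC.sq,
      h.smul _ (hY.mul hC)]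
    ring
  have h5 : (m fun p => (Y p + C p) ^ 2) =
      (m fun p => Y p ^ 2) + (m fun p => C p ^ 2) + 2 * m fun p => Y p * C p := by
    have e2 : (fun p => (Y p + C p) ^ 2) =
        fun p => (Y p ^ 2 + C p ^ 2) + 2 * (Y p * C p) := by
      funext p
      ring
    rw [e2, h.add (hY.sq.add hC.sq) ((hY.mul hC).const_mul _), h.add hY.sq hC.sq,
      h.smul _ (hY.mul hC)]
  have h6 : 0 ≤ m fun p => (Y p - C p) ^ 2 := h.nonneg hs.sq fun p => sq_nonneg _
  have h7 : (m fun p => (Y p ^ 2 - C p ^ 2) * ψ p) ^ 2 ≤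
      (m fun p => (Y p - C p) ^ 2) * m fun p => (Y p + C p) ^ 2 :=
    h2.trans (mul_le_mul_of_nonneg_left h3 h6)
  rw [h4, h5] at h7
  nlinarith

/-- a mean of absolute values -/
theorem IsM.abs_le (h : IsM m) {φ ψ : P → ℝ} (hφ : Bd φ) (hψ : Bd ψ) (hle : ∀ p, |φ p| ≤ ψ p) :
    |m φ| ≤ m ψ := by
  rw [_root_.abs_le]
  constructor
  · have h1 := h.mono (hψ.const_mul (-1)) hφ fun p => by
      have := (_root_.abs_le.1 (hle p)).1
      linarith
    rw [h.smul _ hψ] at h1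
    linarith
  · exact h.mono hφ hψ fun p => (le_abs_self _).trans (hle p)

end

end Pool.Agent.Hp428.ST
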