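import Pool.Agent.TH553.ST.Joint
import Pool.Agent.Hp428.ST.Mean

set_option autoImplicit false
set_option linter.unusedSectionVars false

/-!
# Joint laws of families indexed by a finite set
-/

namespace Pool.Agent.Hp428.ST

open Complex Filter Topology NumberField IsDedekindDomain MeasureTheory Pool.Agent.W540.BE
  Pool.Agent.TH553.RS Pool.Agent.H341R2 Pool.Agent.TH553.ST

section

variable {K : Type} [Field K] [NumberField K]

theorem isM_M {U : Ultrafilter ℝ} (hU : (U : Filter ℝ) ≤ 𝓝[>] 0) : IsM (M (nm K) U) where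
  add h h' := M_add (sysF K) hU h h'
  smul c h := M_const_mul (sysF K) hU h c
  nonneg h h' := M_nonneg (sysF K) hU h h'
  one := M_one (sysF K) hU

theorem abs_mn_le {φ : HeightOneSpectrum (𝓞 K) → ℝ} {B : ℝ} (h : ∀ v, |φ v| ≤ B) (hB : 0 ≤ B)
    (N : ℕ) : |mn φ N| ≤ B := by
  unfold mn
  rw [smul_eq_mul, abs_mul, abs_inv, Nat.abs_cast]
  have h1 : |∑ v ∈ upto K N, φ v| ≤ (upto K N).card * B := by
    refine (Finset.abs_sum_le_sum_abs _ _).trans ?_
    refine (Finset.sum_le_sum fun v _ => h v).trans ?_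
    rw [Finset.sum_const, nsmul_eq_mul]
  by_cases h0 : ((upto K N).card : ℝ) = 0
  · rw [h0, inv_zero, zero_mul]
    exact hB
  · rw [inv_mul_le_iff₀ (by positivity)]
    exact h1

theorem lim_of_bdd {α : Type*} (U : Ultrafilter α) {f : α → ℝ} {C : ℝ} (h : ∀ a, |f a| ≤ C) :
    ∃ x, Tendsto f U (𝓝 x) := by
  have h1 : IsCompact (Set.Icc (-C) C) := isCompact_Icc
  have h2 : ((U.map f : Ultrafilter ℝ) : Filter ℝ) ≤ 𝓟 (Set.Icc (-C) C) := by
    rw [Ultrafilter.coe_map, Filter.le_principal_iff, Filter.mem_map]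
    exact Filter.univ_mem' fun a => abs_le.1 (h a)
  obtain ⟨x, -, hx⟩ := h1.ultrafilter_le_nhds (U.map f) h2
  exact ⟨x, by rw [Ultrafilter.coe_map] at hx; exact hx⟩

open Classical in
/-- the limits of the averages -/
noncomputable def MN (U : Ultrafilter ℕ) (φ : HeightOneSpectrum (𝓞 K) → ℝ) : ℝ :=
  if h : ∃ x, Tendsto (mn φ) U (𝓝 x) then h.choose else 0

theorem MN_eq {U : Ultrafilter ℕ} {φ : HeightOneSpectrum (𝓞 K) → ℝ} {c : ℝ}
    (h : Tendsto (mn φ) U (𝓝 c)) : MN U φ = c := by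
  unfold MN
  rw [dif_pos ⟨c, h⟩]
  exact tendsto_nhds_unique (Exists.choose_spec (⟨c, h⟩ : ∃ x, Tendsto (mn φ) U (𝓝 x))) h

theorem MN_lim {U : Ultrafilter ℕ} {φ : HeightOneSpectrum (𝓞 K) → ℝ} (h : Bd φ) :
    Tendsto (mn φ) U (𝓝 (MN U φ)) := by
  obtain ⟨B, hB⟩ := h
  obtain ⟨c, hc⟩ := lim_of_bdd U (f := mn φ) (C := |B|)
    (abs_mn_le (fun v => (hB v).trans (le_abs_self B)) (abs_nonneg B))
  rw [MN_eq hc]
  exact hc

theorem mn_addR (φ ψ : HeightOneSpectrum (𝓞 K) → ℝ) (N : ℕ) :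
    mn (fun v => φ v + ψ v) N = mn φ N + mn ψ N := by
  unfold mn
  rw [Finset.sum_add_distrib, smul_add]

theorem mn_smulR (c : ℝ) (φ : HeightOneSpectrum (𝓞 K) → ℝ) (N : ℕ) :
    mn (fun v => c * φ v) N = c * mn φ N := by
  unfold mn
  rw [← Finset.mul_sum, mul_smul_comm]

theorem mn_nonneg {φ : HeightOneSpectrum (𝓞 K) → ℝ} (h : ∀ v, 0 ≤ φ v) (N : ℕ) :
    0 ≤ mn φ N := by
  unfold mn
  rw [smul_eq_mul]
  exact mul_nonneg (inv_nonneg.2 (Nat.cast_nonneg _)) (Finset.sum_nonneg fun v _ => h v)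

theorem mn_oneR : ∀ᶠ N : ℕ in atTop, mn (fun _ : HeightOneSpectrum (𝓞 K) => (1 : ℝ)) N = 1 := by
  filter_upwards [card_ev (K := K)] with N hN
  unfold mn
  rw [Finset.sum_const, nsmul_eq_mul, mul_one, smul_eq_mul, inv_mul_cancel₀ hN]

theorem isM_MN {U : Ultrafilter ℕ} (hU : (U : Filter ℕ) ≤ atTop) : IsM (MN (K := K) U) where
  add h h' := MN_eq (((MN_lim h).add (MN_lim h')).congr fun N => (mn_addR _ _ N).symm)
  smul c h := MN_eq (((MN_lim h).const_mul c).congr fun N => (mn_smulR c _ N).symm)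
  nonneg h h' := ge_of_tendsto' (MN_lim h) fun N => mn_nonneg h' N
  one := MN_eq (tendsto_const_nhds.congr' ((mn_oneR (K := K)).filter_mono hU |>.mono
    fun _ h => h.symm))

theorem ev_le {α : Type*} {f : Filter α} {u : α → ℝ} {κ : ℝ}
    (h : ∀ U : Ultrafilter α, (U : Filter α) ≤ f → ∃ r, Tendsto u U (𝓝 r) ∧ r ≤ κ) {η : ℝ}
    (hη : 0 < η) : ∀ᶠ a in f, u a ≤ κ + η := by
  rw [Filter.eventually_iff, Filter.mem_iff_ultrafilter]
  intro U hU
  obtain ⟨r, h1, h2⟩ := h U hU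
  exact (h1.eventually_lt_const (by linarith : r < κ + η)).mono fun a ha => ha.le

end

section

variable {K : Type} [Field K] [NumberField K]
variable {ι : Type} [DecidableEq ι] {G : ι → Type} [∀ i, Group (G i)]
  [∀ i, TopologicalSpace (G i)] [∀ i, CompactSpace (G i)]
  [∀ i, MeasurableSpace (G i)]

/-- the averages of the products of class functions over the set `S` of indices -/
def TL (x : HeightOneSpectrum (𝓞 K) → ∀ i, G i) (μ : ∀ i, Measure (G i)) (S : Finset ι) : Prop :=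
  ∀ f : ∀ i, G i → ℝ, (∀ i, Continuous (f i)) → (∀ i g h, f i (h * g * h⁻¹) = f i g) →
    Tendsto (mn fun v => ∏ i ∈ S, f i (x v i)) atTop (𝓝 (∏ i ∈ S, ∫ g, f i g ∂μ i))

/-- the same for a mean -/
def PLw (m : (HeightOneSpectrum (𝓞 K) → ℝ) → ℝ) (x : HeightOneSpectrum (𝓞 K) → ∀ i, G i)
    (μ : ∀ i, Measure (G i)) (S : Finset ι) : Prop :=
  ∀ f : ∀ i, G i → ℝ, (∀ i, Continuous (f i)) → (∀ i g h, f i (h * g * h⁻¹) = f i g) →
    (m fun v => ∏ i ∈ S, f i (x v i)) = ∏ i ∈ S, ∫ g, f i g ∂μ i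

variable {x : HeightOneSpectrum (𝓞 K) → ∀ i, G i} {μ : ∀ i, Measure (G i)} {S : Finset ι}

omit [DecidableEq ι] [∀ i, Group (G i)] [∀ i, MeasurableSpace (G i)] in
theorem bd_one {i : ι} {f : G i → ℝ} (hf : Continuous f) : Bd fun v => f (x v i) := by
  obtain ⟨C, hC⟩ := (isCompact_univ (X := G i)).exists_bound_of_continuousOn hf.continuousOn
  exact ⟨C, fun v => hC _ (Set.mem_univ _)⟩

omit [∀ i, Group (G i)] [∀ i, MeasurableSpace (G i)] in
theorem bd_prod {f : ∀ i, G i → ℝ} (hf : ∀ i, Continuous (f i)) (S : Finset ι) :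
    Bd fun v => ∏ i ∈ S, f i (x v i) := by
  induction S using Finset.induction_on with
  | empty => simpa using Bd.const (P := HeightOneSpectrum (𝓞 K)) 1
  | insert a S ha ih =>
    simp only [Finset.prod_insert ha]
    exact (bd_one (hf a)).mul ih

theorem TL.pl_MN (h : TL x μ S) {U : Ultrafilter ℕ} (hU : (U : Filter ℕ) ≤ atTop) :
    PLw (MN U) x μ S := fun f hf hcl => MN_eq ((h f hf hcl).mono_left hU)

theorem TL.pl_M (h : TL x μ S) {U : Ultrafilter ℝ} (hU : (U : Filter ℝ) ≤ 𝓝[>] 0) :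
    PLw (M (nm K) U) x μ S := fun f hf hcl => M_of_mn hU (bd_prod hf S) (h f hf hcl)

/-- subsets -/
theorem TL.mono [∀ i, IsProbabilityMeasure (μ i)] (h : TL x μ S) {T : Finset ι} (hT : T ⊆ S) :
    TL x μ T := by
  intro f hf hcl
  have h1 := h (fun i => if i ∈ T then f i else fun _ => 1)
    (fun i => by
      split_ifs
      · exact hf i
      · exact continuous_const)
    (fun i g k => by
      split_ifs
      · exact hcl i g k
      · rfl)
  have e1 : ∀ v, ∏ i ∈ S, (if i ∈ T then f i else fun _ => 1) (x v i) =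
      ∏ i ∈ T, f i (x v i) := by
    intro v
    rw [← Finset.prod_subset hT fun i _ hi => by rw [if_neg hi]]
    exact Finset.prod_congr rfl fun i hi => by rw [if_pos hi]
  have e2 : ∏ i ∈ S, ∫ g, (if i ∈ T then f i else fun _ => 1) g ∂μ i =
      ∏ i ∈ T, ∫ g, f i g ∂μ i := by
    rw [← Finset.prod_subset hT fun i _ hi => by rw [if_neg hi]; simp]
    exact Finset.prod_congr rfl fun i hi => by rw [if_pos hi]
  simp only [e1, e2] at h1
  exact h1

theorem PLw.pair [∀ i, IsProbabilityMeasure (μ i)] {m : (HeightOneSpectrum (𝓞 K) → ℝ) → ℝ}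
    {i k : ι} (hik : i ≠ k)
    (h : PLw m x μ {i, k}) {f : G i → ℝ} {g : G k → ℝ} (hf : Continuous f) (hg : Continuous g)
    (hcf : ∀ a b, f (b * a * b⁻¹) = f a) (hcg : ∀ a b, g (b * a * b⁻¹) = g a) :
    (m fun v => f (x v i) * g (x v k)) = (∫ a, f a ∂μ i) * ∫ a, g a ∂μ k := by
  set F : ∀ j, G j → ℝ := Function.update (Function.update (fun _ _ => 1) k g) i f with hF
  have hFi : F i = f := by rw [hF, Function.update_self]
  have hFk : F k = g := by
    rw [hF, Function.update_of_ne (Ne.symm hik), Function.update_self]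
  have hFo : ∀ j, j ≠ i → j ≠ k → F j = fun _ => 1 := by
    intro j h1 h2
    rw [hF, Function.update_of_ne h1, Function.update_of_ne h2]
  have h1 := h F (fun j => by
    by_cases hj : j = i
    · subst hj
      rw [hFi]
      exact hf
    · by_cases hj' : j = k
      · subst hj'
        rw [hFk]
        exact hg
      · rw [hFo j hj hj']
        exact continuous_const) (fun j a b => by
    by_cases hj : j = i
    · subst hj
      rw [hFi]
      exact hcf a b
    · by_cases hj' : j = k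
      · subst hj'
        rw [hFk]
        exact hcg a b
      · rw [hFo j hj hj'])
  simp only [Finset.prod_pair hik, hFi, hFk] at h1
  exact h1

theorem PLw.left [∀ i, IsProbabilityMeasure (μ i)] {m : (HeightOneSpectrum (𝓞 K) → ℝ) → ℝ}
    {i k : ι} (hik : i ≠ k)
    (h : PLw m x μ {i, k}) {f : G i → ℝ} (hf : Continuous f)
    (hcf : ∀ a b, f (b * a * b⁻¹) = f a) : (m fun v => f (x v i)) = ∫ a, f a ∂μ i := by
  have h1 := h.pair hik hf (continuous_const (y := (1 : ℝ))) hcf fun _ _ => rfl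
  simpa using h1

theorem PLw.right [∀ i, IsProbabilityMeasure (μ i)] {m : (HeightOneSpectrum (𝓞 K) → ℝ) → ℝ}
    {i k : ι} (hik : i ≠ k)
    (h : PLw m x μ {i, k}) {g : G k → ℝ} (hg : Continuous g)
    (hcg : ∀ a b, g (b * a * b⁻¹) = g a) : (m fun v => g (x v k)) = ∫ a, g a ∂μ k := by
  have h1 := h.pair hik (continuous_const (y := (1 : ℝ))) hg (fun _ _ => rfl) hcg
  simpa using h1

end

end Pool.Agent.Hp428.ST
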