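import Pool.Agent.TH553.ST.PW2
import Mathlib.MeasureTheory.Integral.Pi

set_option autoImplicit false
set_option linter.unusedSectionVars false

/-!
# Products of characters are dense in the class functions of a finite product of groups
-/

namespace Pool.Agent.Hp428.ST

open Complex Filter Topology ComplexConjugate MeasureTheory NumberField IsDedekindDomain
  Pool.Agent.W540.BE Pool.Agent.TH553.ST

section

variable {ι : Type} [Fintype ι] [DecidableEq ι] {G : ι → Type} [∀ i, Group (G i)]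
  [∀ i, TopologicalSpace (G i)]

/-- sums of products of matrix coefficients -/
def Cn (f : (∀ i, G i) → ℂ) : Prop := ∃ (J : Type) (_ : Fintype J) (φ : J → ∀ i, G i → ℂ),
  (∀ j i, Coef (φ j i)) ∧ ∀ p, f p = ∑ j, ∏ i, φ j i (p i)

omit [DecidableEq ι] in
theorem Cn.add {f f' : (∀ i, G i) → ℂ} (h : Cn f) (h' : Cn f') : Cn fun p => f p + f' p := by
  obtain ⟨J, _, φ, h1, h3⟩ := h
  obtain ⟨J', _, φ', h1', h3'⟩ := h'
  refine ⟨J ⊕ J', inferInstance, Sum.elim φ φ', ?_, fun p => ?_⟩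
  · rintro (j | j) i
    · exact h1 j i
    · exact h1' j i
  · rw [Fintype.sum_sum_type]
    exact congrArg₂ (· + ·) (h3 p) (h3' p)

omit [DecidableEq ι] in
theorem Cn.mul {f f' : (∀ i, G i) → ℂ} (h : Cn f) (h' : Cn f') : Cn fun p => f p * f' p := by
  obtain ⟨J, _, φ, h1, h3⟩ := h
  obtain ⟨J', _, φ', h1', h3'⟩ := h'
  refine ⟨J × J', inferInstance, fun j i g => φ j.1 i g * φ' j.2 i g,
    fun j i => (h1 j.1 i).mul (h1' j.2 i), fun p => ?_⟩
  rw [Fintype.sum_prod_type]
  refine (congrArg₂ (· * ·) (h3 p) (h3' p)).trans ?_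
  simp only
  rw [Finset.sum_mul_sum]
  refine Finset.sum_congr rfl fun i _ => Finset.sum_congr rfl fun j _ => ?_
  rw [Finset.prod_mul_distrib]

/-- a function of one coordinate -/
theorem Cn.one_coord {i₀ : ι} {φ : G i₀ → ℂ} (h : Coef φ) :
    Cn fun p : ∀ i, G i => φ (p i₀) := by
  set u : ∀ i, G i → ℂ := Function.update (fun _ _ => 1) i₀ φ with hu
  have hui : u i₀ = φ := by rw [hu, Function.update_self]
  have huo : ∀ j, j ≠ i₀ → u j = fun _ => 1 := fun j hj => by
    rw [hu, Function.update_of_ne hj]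
  refine ⟨Unit, inferInstance, fun _ => u, fun _ i => ?_, fun p => ?_⟩
  · change Coef (u i)
    by_cases hi : i = i₀
    · subst hi
      rw [hui]
      exact h
    · rw [huo i hi]
      exact Coef.const 1
  · rw [Finset.univ_unique, Finset.sum_singleton]
    change _ = ∏ i, u i (p i)
    rw [Finset.prod_eq_single i₀ (fun j _ hj => by rw [huo j hj])
        (fun h => absurd (Finset.mem_univ _) h), hui]

theorem Cn.const [Nonempty ι] (c : ℂ) : Cn fun _ : ∀ i, G i => c :=
  Cn.one_coord (i₀ := Classical.arbitrary ι) (φ := fun _ => c) (Coef.const c)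

omit [DecidableEq ι] in
theorem Cn.conj {f : (∀ i, G i) → ℂ} (h : Cn f) : Cn fun p => conj (f p) := by
  obtain ⟨J, _, φ, h1, h3⟩ := h
  refine ⟨J, inferInstance, fun j i g => conj (φ j i g), fun j i => (h1 j i).conj, fun p => ?_⟩
  simp only
  rw [h3, map_sum]
  exact Finset.sum_congr rfl fun j _ => map_prod _ _ _

/-- the algebra -/
noncomputable def algn (ι : Type) [Fintype ι] [DecidableEq ι] [Nonempty ι] (G : ι → Type)
    [∀ i, Group (G i)] [∀ i, TopologicalSpace (G i)] : StarSubalgebra ℂ C(∀ i, G i, ℂ) where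
  carrier := {f | Cn f}
  mul_mem' := fun {f f'} (h : Cn f) (h' : Cn f') => show Cn _ from h.mul h'
  one_mem' := show Cn _ from Cn.const 1
  add_mem' := fun {f f'} (h : Cn f) (h' : Cn f') => show Cn _ from h.add h'
  zero_mem' := show Cn _ from Cn.const 0
  algebraMap_mem' := fun c => show Cn _ from Cn.const c
  star_mem' := fun {f} (h : Cn f) => show Cn _ from h.conj

omit [DecidableEq ι] in
theorem cn_cont {f : (∀ i, G i) → ℂ} (h : Cn f) : Continuous f := by
  obtain ⟨J, _, φ, h1, h3⟩ := h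
  have : f = fun p => ∑ j, ∏ i, φ j i (p i) := funext h3
  rw [this]
  exact continuous_finsetSum _ fun j _ => continuous_finsetProd _ fun i _ =>
    (coef_cont (h1 j i)).comp (continuous_apply i)

variable [∀ i, IsTopologicalGroup (G i)] [∀ i, CompactSpace (G i)] [∀ i, T2Space (G i)]

theorem cn_dense [Nonempty ι] {f : (∀ i, G i) → ℂ} (hf : Continuous f) {ε : ℝ} (hε : 0 < ε) :
    ∃ φ : (∀ i, G i) → ℂ, Cn φ ∧ ∀ p, ‖f p - φ p‖ ≤ ε := by
  have h1 : (algn ι G).topologicalClosure = ⊤ := by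
    refine ContinuousMap.starSubalgebra_topologicalClosure_eq_top_of_separatesPoints _ ?_
    intro g h hne
    obtain ⟨i, hi⟩ := Function.ne_iff.1 hne
    obtain ⟨φ, h2, h3⟩ := coef_sep hi
    exact ⟨_, ⟨⟨_, cn_cont (Cn.one_coord h2)⟩, Cn.one_coord h2, rfl⟩, h3⟩
  have h2 : (⟨f, hf⟩ : C(∀ i, G i, ℂ)) ∈ (algn ι G).topologicalClosure := by
    rw [h1]
    exact StarSubalgebra.mem_top
  have h3 : (⟨f, hf⟩ : C(∀ i, G i, ℂ)) ∈ closure ((algn ι G :
      StarSubalgebra ℂ C(∀ i, G i, ℂ)) : Set C(∀ i, G i, ℂ)) := h2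
  obtain ⟨φ, h4, h5⟩ := Metric.mem_closure_iff.1 h3 ε hε
  refine ⟨φ, h4, fun g => ?_⟩
  rw [dist_eq_norm] at h5
  exact (ContinuousMap.norm_coe_le_norm ((⟨f, hf⟩ : C(∀ i, G i, ℂ)) - φ) g).trans h5.le

/-- combinations of products of characters -/
def Dn (f : (∀ i, G i) → ℂ) : Prop := ∃ (J : Type) (_ : Fintype J) (m : J → ι → ℕ)
  (ρ : ∀ j i, G i →* Matrix.unitaryGroup (Fin (m j i)) ℂ) (a : J → ℂ),
  (∀ j i, Continuous (ρ j i) ∧ Schur (ρ j i)) ∧
    ∀ g, f g = ∑ j, a j * ∏ i, chi (ρ j i) (g i)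

variable [∀ i, MeasurableSpace (G i)] [∀ i, BorelSpace (G i)]
  [∀ i, SecondCountableTopology (G i)] (ν : ∀ i, Measure (G i))
  [∀ i, IsProbabilityMeasure (ν i)] [∀ i, (ν i).IsHaarMeasure]

omit [DecidableEq ι] [∀ i, Group (G i)] [∀ i, IsTopologicalGroup (G i)] [∀ i, T2Space (G i)]
  [∀ i, (ν i).IsHaarMeasure] in
theorem intn [∀ i, Group (G i)] {f : (∀ i, G i) → ℂ} (hf : Continuous f) :
    Integrable f (Measure.pi ν) :=
  hf.integrable_of_hasCompactSupport (HasCompactSupport.of_compactSpace f)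

theorem cavn_dn {f : (∀ i, G i) → ℂ} (h : Cn f) :
    Dn fun g => ∫ h, f (fun i => (h i)⁻¹ * g i * h i) ∂(Measure.pi ν) := by
  obtain ⟨J, _, φ, h1, h3⟩ := h
  have e1 : ∀ g : ∀ i, G i, ∫ h, f (fun i => (h i)⁻¹ * g i * h i) ∂(Measure.pi ν) =
      ∑ j, ∏ i, cav (ν i) (φ j i) (g i) := by
    intro g
    simp only [h3]
    have hc : ∀ j, Continuous fun h : ∀ i, G i => ∏ i, φ j i ((h i)⁻¹ * g i * h i) := fun j =>
      continuous_finsetProd _ fun i _ => (coef_cont (h1 j i)).comp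
        (((continuous_apply i).inv.mul continuous_const).mul (continuous_apply i))
    rw [integral_finsetSum _ fun j _ => intn ν (hc j)]
    refine Finset.sum_congr rfl fun j _ => ?_
    exact integral_fintype_prod_eq_prod (𝕜 := ℂ) (fun i (h : G i) => φ j i (h⁻¹ * g i * h))
  choose J1 i1 m1 ρ1 a1 p1 q1 using fun j i => dec_cav (μ := ν i) (h1 j i)
  refine ⟨Σ j, ∀ i, J1 j i, inferInstance, fun l i => m1 l.1 i (l.2 i),
    fun l i => ρ1 l.1 i (l.2 i), fun l => ∏ i, a1 l.1 i (l.2 i), fun l i => p1 l.1 i (l.2 i),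
    fun g => ?_⟩
  simp only [e1]
  rw [Fintype.sum_sigma]
  refine Finset.sum_congr rfl fun j _ => ?_
  have h2 := Finset.prod_univ_sum (fun i : ι => (Finset.univ : Finset (J1 j i)))
    (fun i l => a1 j i l * chi (ρ1 j i l) (g i))
  rw [Fintype.piFinset_univ] at h2
  rw [Finset.prod_congr rfl fun i _ => q1 j i (g i), h2]
  refine Finset.sum_congr rfl fun l _ => ?_
  rw [Finset.prod_mul_distrib]

include ν in
/-- **The combinations of the products of irreducible characters are dense.** -/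
theorem dn_dense [Nonempty ι] {f : (∀ i, G i) → ℂ} (hf : Continuous f)
    (hcl : ∀ g h, f (h * g * h⁻¹) = f g) {ε : ℝ} (hε : 0 < ε) :
    ∃ F : (∀ i, G i) → ℂ, Dn F ∧ ∀ g, ‖f g - F g‖ ≤ ε := by
  obtain ⟨φ, h1, h2⟩ := cn_dense hf hε
  refine ⟨_, cavn_dn ν h1, fun g => ?_⟩
  have hin : Continuous fun h : ∀ i, G i => fun i => (h i)⁻¹ * g i * h i :=
    continuous_pi fun i => ((continuous_apply i).inv.mul continuous_const).mul
      (continuous_apply i)
  have e1 : ∀ h : ∀ i, G i, f (fun i => (h i)⁻¹ * g i * h i) = f g := by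
    intro h
    have h3 := hcl g h⁻¹
    rw [inv_inv] at h3
    exact h3
  have e2 : f g = ∫ h : ∀ i, G i, f (fun i => (h i)⁻¹ * g i * h i) ∂(Measure.pi ν) := by
    simp only [e1]
    simp
  have i1 : Integrable (fun h : ∀ i, G i => f fun i => (h i)⁻¹ * g i * h i) (Measure.pi ν) :=
    intn ν (hf.comp hin)
  have i2 : Integrable (fun h : ∀ i, G i => φ fun i => (h i)⁻¹ * g i * h i) (Measure.pi ν) :=
    intn ν ((cn_cont h1).comp hin)
  rw [e2, ← integral_sub i1 i2]
  refine (norm_integral_le_integral_norm _).trans ?_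
  have h3 : ∫ h : ∀ i, G i, ‖f (fun i => (h i)⁻¹ * g i * h i) -
      φ (fun i => (h i)⁻¹ * g i * h i)‖ ∂(Measure.pi ν) ≤ ∫ _, ε ∂(Measure.pi ν) := by
    refine integral_mono (i1.sub i2).norm (integrable_const _) fun h => h2 _
  simpa using h3

end

end Pool.Agent.Hp428.ST
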