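import Mathlib

set_option autoImplicit false

/-!
# The Sato-Tate measure on `[0, π]`
-/

namespace Pool.Agent.Hp428.ST

open MeasureTheory Filter Topology Set

/-- the measure `(2/π) sin² θ dθ` on `[0, π]` -/
noncomputable def st : Measure ℝ :=
  (volume.restrict (Icc 0 Real.pi)).withDensity fun t => ENNReal.ofReal (2 / Real.pi * Real.sin t ^ 2)

theorem dens_nonneg (t : ℝ) : 0 ≤ 2 / Real.pi * Real.sin t ^ 2 := by
  have := Real.pi_pos
  positivity

theorem st_int (f : ℝ → ℝ) : ∫ t, f t ∂st = ∫ t in (0 : ℝ)..Real.pi, 2 / Real.pi * Real.sin t ^ 2 * f t := by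
  unfold st
  rw [integral_withDensity_eq_integral_toReal_smul (by fun_prop) (by simp),
    intervalIntegral.integral_of_le Real.pi_pos.le, integral_Icc_eq_integral_Ioc]
  refine integral_congr_ae (Eventually.of_forall fun t => ?_)
  simp only [smul_eq_mul]
  rw [ENNReal.toReal_ofReal (dens_nonneg t)]

theorem int_one : ∫ t in (0 : ℝ)..Real.pi, 2 / Real.pi * Real.sin t ^ 2 = 1 := by
  rw [intervalIntegral.integral_const_mul, integral_sin_sq]
  simp only [Real.sin_zero, Real.cos_zero, Real.sin_pi, Real.cos_pi]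
  have := Real.pi_pos
  field_simp
  ring

instance : IsProbabilityMeasure st := by
  constructor
  unfold st
  rw [withDensity_apply _ MeasurableSet.univ, Measure.restrict_univ,
    ← ofReal_integral_eq_lintegral_ofReal]
  · have h := int_one
    rw [intervalIntegral.integral_of_le Real.pi_pos.le, ← integral_Icc_eq_integral_Ioc] at h
    rw [h, ENNReal.ofReal_one]
  · exact (Continuous.integrableOn_Icc (by fun_prop))
  · exact Eventually.of_forall dens_nonneg

theorem st_cont {f : ℝ → ℝ} (hf : Continuous f) : Integrable f st := by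
  unfold st
  rw [integrable_withDensity_iff_integrable_smul' (by fun_prop) (by simp)]
  have h : IntegrableOn (fun t => (2 / Real.pi * Real.sin t ^ 2) * f t) (Icc 0 Real.pi) volume :=
    Continuous.integrableOn_Icc (by fun_prop)
  refine h.congr (Eventually.of_forall fun t => ?_)
  simp only [smul_eq_mul]
  rw [ENNReal.toReal_ofReal (dens_nonneg t)]

/-- the trace `e 2 cos θ` -/
theorem st_odd {φ : ℝ → ℝ} (ho : ∀ x, φ (-x) = -φ x) :
    ∫ t, φ (2 * Real.cos t) ∂st = 0 := by
  have h1 := st_int fun t => φ (2 * Real.cos t)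
  have h2 := intervalIntegral.integral_comp_sub_left (a := 0) (b := Real.pi)
    (fun t => 2 / Real.pi * Real.sin t ^ 2 * φ (2 * Real.cos t)) Real.pi
  simp only [sub_zero, sub_self] at h2
  simp only [Real.sin_pi_sub, Real.cos_pi_sub, mul_neg, ho] at h2
  rw [intervalIntegral.integral_neg] at h2
  rw [h1]
  linarith

theorem st_sq : ∫ t, (2 * Real.cos t) ^ 2 ∂st = 1 := by
  rw [st_int]
  have h : ∀ t : ℝ, 2 / Real.pi * Real.sin t ^ 2 * (2 * Real.cos t) ^ 2 =
      8 / Real.pi * (Real.sin t ^ 2 * Real.cos t ^ 2) := by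
    intro t
    ring
  simp only [h]
  rw [intervalIntegral.integral_const_mul, integral_sin_sq_mul_cos_sq]
  have h4 : Real.sin (4 * Real.pi) = 0 := by
    have := Real.sin_nat_mul_pi 4
    exact_mod_cast this
  simp only [mul_zero, Real.sin_zero, h4]
  have := Real.pi_pos
  field_simp
  ring

theorem st_four : ∫ t, (2 * Real.cos t) ^ 4 ∂st = 2 := by
  rw [st_int]
  have hd : ∀ t : ℝ, HasDerivAt (fun t => 32 / Real.pi * (t / 16 + Real.sin t ^ 3 * Real.cos t ^ 3 / 6
      + Real.sin t ^ 3 * Real.cos t / 8 - Real.sin t * Real.cos t / 16))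
      (2 / Real.pi * Real.sin t ^ 2 * (2 * Real.cos t) ^ 4) t := by
    intro t
    have hs := Real.hasDerivAt_sin t
    have hc := Real.hasDerivAt_cos t
    have h1 := (((hasDerivAt_id t).div_const 16).add
      ((((hs.pow 3).mul (hc.pow 3))).div_const 6)).add (((hs.pow 3).mul hc).div_const 8)
    have h2 := (h1.sub ((hs.mul hc).div_const 16)).const_mul (32 / Real.pi)
    refine h2.congr_deriv ?_
    have hp := Real.pi_pos.ne'
    simp only [Pi.pow_apply]
    have e := Real.sin_sq_add_cos_sq t
    push_cast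
    field_simp
    norm_num
    linear_combination (1536 * (-8 * Real.sin t ^ 2 * Real.cos t ^ 2 - 2 * Real.sin t ^ 2 - 1)) * e
  rw [intervalIntegral.integral_eq_sub_of_hasDerivAt (fun t _ => hd t)
    (Continuous.intervalIntegrable (by fun_prop) _ _)]
  simp only [Real.sin_zero, Real.cos_zero, Real.sin_pi, Real.cos_pi]
  have := Real.pi_pos
  field_simp
  ring

theorem st_abs : ∫ t, |2 * Real.cos t| ∂st = 8 / (3 * Real.pi) := by
  rw [st_int]
  have hp := Real.pi_pos
  have hI : ∀ a b : ℝ, IntervalIntegrable (fun t => 2 / Real.pi * Real.sin t ^ 2 * |2 * Real.cos t|)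
      volume a b := fun a b => Continuous.intervalIntegrable (by fun_prop) _ _
  rw [← intervalIntegral.integral_add_adjacent_intervals (hI 0 (Real.pi / 2)) (hI (Real.pi / 2) Real.pi)]
  have hd : ∀ t : ℝ, HasDerivAt (fun t => 4 / (3 * Real.pi) * Real.sin t ^ 3)
      (4 / Real.pi * Real.sin t ^ 2 * Real.cos t) t := by
    intro t
    refine (((Real.hasDerivAt_sin t).pow 3).const_mul (4 / (3 * Real.pi))).congr_deriv ?_
    push_cast
    field_simp
  have h1 : ∫ t in (0 : ℝ)..(Real.pi / 2), 2 / Real.pi * Real.sin t ^ 2 * |2 * Real.cos t| =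
      4 / (3 * Real.pi) := by
    have e : ∫ t in (0 : ℝ)..(Real.pi / 2), 2 / Real.pi * Real.sin t ^ 2 * |2 * Real.cos t| =
        ∫ t in (0 : ℝ)..(Real.pi / 2), 4 / Real.pi * Real.sin t ^ 2 * Real.cos t := by
      refine intervalIntegral.integral_congr fun t ht => ?_
      rw [uIcc_of_le (by positivity)] at ht
      have hc : 0 ≤ Real.cos t := Real.cos_nonneg_of_mem_Icc ⟨by linarith [ht.1], ht.2⟩
      rw [abs_of_nonneg (by positivity)]
      ring
    rw [e, intervalIntegral.integral_eq_sub_of_hasDerivAt (fun t _ => hd t)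
      (Continuous.intervalIntegrable (by fun_prop) _ _)]
    simp
  have h2 : ∫ t in (Real.pi / 2)..Real.pi, 2 / Real.pi * Real.sin t ^ 2 * |2 * Real.cos t| =
      4 / (3 * Real.pi) := by
    have e : ∫ t in (Real.pi / 2)..Real.pi, 2 / Real.pi * Real.sin t ^ 2 * |2 * Real.cos t| =
        ∫ t in (Real.pi / 2)..Real.pi, -(4 / Real.pi * Real.sin t ^ 2 * Real.cos t) := by
      refine intervalIntegral.integral_congr fun t ht => ?_
      rw [uIcc_of_le (by linarith)] at ht
      have hc : Real.cos t ≤ 0 := Real.cos_nonpos_of_pi_div_two_le_of_le ht.1 (by linarith [ht.2])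
      rw [abs_of_nonpos (by linarith)]
      ring
    rw [e, intervalIntegral.integral_neg, intervalIntegral.integral_eq_sub_of_hasDerivAt
      (fun t _ => hd t) (Continuous.intervalIntegrable (by fun_prop) _ _)]
    simp
  rw [h1, h2]
  field_simp
  norm_num

end Pool.Agent.Hp428.ST
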