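import Pool.Agent.Hp428.ST.Law
import Pool.Agent.Hp428.ST.Cert

set_option autoImplicit false

/-!
# Signs of two and of three sequences
-/

namespace Pool.Agent.Hp428.ST

open MeasureTheory Filter Topology Set NumberField IsDedekindDomain Pool.Agent.TH553.ST
  Pool.Agent.W540.BE

/-- continuous functions below the indicator of an open set -/
theorem open_approx {X : Type*} [TopologicalSpace X] [MeasurableSpace X] [BorelSpace X]
    [HasOuterApproxClosed X] (μ : Measure X) [IsProbabilityMeasure μ] {J : Set X} (hJ : IsOpen J)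
    {c : ℝ} (hc : c < μ.real J) : ∃ g : X → ℝ, Continuous g ∧ (∀ x, 0 ≤ g x) ∧ (∀ x, g x ≤ 1) ∧
      (∀ x, g x ≠ 0 → x ∈ J) ∧ c < ∫ x, g x ∂μ := by
  have hF : IsClosed Jᶜ := hJ.isClosed_compl
  have h1 : ∀ x, Tendsto (fun n => 1 - ((hF.apprSeq n x : NNReal) : ℝ)) atTop
      (𝓝 (J.indicator (fun _ => (1:ℝ)) x)) := by
    intro x
    have h2 := (tendsto_pi_nhds.1 (HasOuterApproxClosed.tendsto_apprSeq hF)) x
    have h3 := (NNReal.tendsto_coe.2 h2).const_sub 1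
    convert h3 using 2
    by_cases hx : x ∈ J
    · simp [hx]
    · simp [hx]
  have h2 : Tendsto (fun n => ∫ x, (1 - ((hF.apprSeq n x : NNReal) : ℝ)) ∂μ) atTop
      (𝓝 (∫ x, J.indicator (fun _ => (1:ℝ)) x ∂μ)) := by
    refine tendsto_integral_of_dominated_convergence (fun _ => (1:ℝ)) (fun n => ?_)
      (integrable_const _) (fun n => Eventually.of_forall fun x => ?_)
      (Eventually.of_forall h1)
    · exact (continuous_const.sub (NNReal.continuous_coe.comp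
        (hF.apprSeq n).continuous)).measurable.aestronglyMeasurable
    · have h3 : ((hF.apprSeq n x : NNReal) : ℝ) ≤ 1 := by
        exact_mod_cast HasOuterApproxClosed.apprSeq_apply_le_one hF n x
      have h4 : (0:ℝ) ≤ ((hF.apprSeq n x : NNReal) : ℝ) := NNReal.coe_nonneg _
      rw [Real.norm_eq_abs, abs_le]
      constructor <;> linarith
  have e : ∫ x, J.indicator (fun _ => (1:ℝ)) x ∂μ = μ.real J := by
    rw [integral_indicator_const _ hJ.measurableSet, smul_eq_mul, mul_one]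
  rw [e] at h2
  obtain ⟨n, hn⟩ := (h2.eventually_const_lt hc).exists
  refine ⟨fun x => 1 - ((hF.apprSeq n x : NNReal) : ℝ), continuous_const.sub
    (NNReal.continuous_coe.comp (hF.apprSeq n).continuous), fun x => ?_, fun x => ?_,
    fun x hx => ?_, hn⟩
  · have h3 : ((hF.apprSeq n x : NNReal) : ℝ) ≤ 1 := by
      exact_mod_cast HasOuterApproxClosed.apprSeq_apply_le_one hF n x
    linarith
  · have h4 : (0:ℝ) ≤ ((hF.apprSeq n x : NNReal) : ℝ) := NNReal.coe_nonneg _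
    linarith
  · by_contra hxJ
    apply hx
    have h3 := HasOuterApproxClosed.apprSeq_apply_eq_one hF n (x := x) hxJ
    simp only [h3]
    norm_num

section

variable {K : Type} [Field K] [NumberField K]

/-- the averages of `φ` tend to `L` -/
def TT (φ : HeightOneSpectrum (𝓞 K) → ℝ) (L : ℝ) : Prop := Tendsto (mn φ) atTop (𝓝 L)

variable {φ ψ : HeightOneSpectrum (𝓞 K) → ℝ} {L M c : ℝ}

theorem TT.add (h : TT φ L) (h' : TT ψ M) : TT (fun v => φ v + ψ v) (L + M) :=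
  (Tendsto.add h h').congr fun N => (mn_addR _ _ N).symm

theorem TT.smul (c : ℝ) (h : TT φ L) : TT (fun v => c * φ v) (c * L) :=
  (Tendsto.const_mul c h).congr fun N => (mn_smulR c _ N).symm

theorem TT.congr (h : TT φ L) (h' : ∀ v, φ v = ψ v) (hL : L = M) : TT ψ M := by
  have : φ = ψ := funext h'
  rw [← this, ← hL]
  exact h

theorem mn_mono (h : ∀ v, φ v ≤ ψ v) (N : ℕ) : mn φ N ≤ mn ψ N := by
  unfold mn
  rw [smul_eq_mul, smul_eq_mul]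
  exact mul_le_mul_of_nonneg_left (Finset.sum_le_sum fun v _ => h v)
    (inv_nonneg.2 (Nat.cast_nonneg _))

theorem TT.ev (h : TT φ L) (hc : c < L) (hle : ∀ v, φ v ≤ ψ v) : ∀ᶠ N in atTop, c ≤ mn ψ N := by
  filter_upwards [Tendsto.eventually_const_lt hc h] with N hN
  exact hN.le.trans (mn_mono hle N)

theorem ee {e : ℝ} (he : e = 1 ∨ e = -1) (x : ℝ) : |e * x| = |x| := by
  rcases he with rfl | rfl
  · rw [one_mul]
  · rw [neg_one_mul, abs_neg]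

theorem int_sg (δ : ℝ) {e : ℝ} (he : e = 1 ∨ e = -1) :
    ∫ t, sg δ (e * (2 * Real.cos t)) ∂st = 0 := by
  refine st_odd (φ := fun x => sg δ (e * x)) fun x => ?_
  rw [mul_neg, sg_neg]

theorem bt_ee (δ : ℝ) {e : ℝ} (he : e = 1 ∨ e = -1) (x : ℝ) : bt δ (e * x) = bt δ x := by
  unfold bt
  rw [ee he]

/-- **two signs** -/
theorem two_signs {θ₁ θ₂ γ : HeightOneSpectrum (𝓞 K) → ℝ} {G : ℝ}
    (h1 : ∀ φ : ℝ → ℝ, Continuous φ → (∃ C, ∀ x, |φ x| ≤ C) →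
      TT (fun v => φ (θ₁ v) * γ v) ((∫ t, φ t ∂st) * G))
    (h2 : ∀ φ : ℝ → ℝ, Continuous φ → (∃ C, ∀ x, |φ x| ≤ C) →
      TT (fun v => φ (θ₂ v) * γ v) ((∫ t, φ t ∂st) * G))
    (h3 : TT (fun v => Real.cos (θ₁ v) * Real.cos (θ₂ v) * γ v) 0)
    (h0 : ∀ v, 0 ≤ γ v) (h0' : ∀ v, γ v ≤ 1) (hG : 0 < G)
    {P : HeightOneSpectrum (𝓞 K) → Prop} [DecidablePred P] (hP : ∀ v, γ v ≠ 0 → P v) {e₁ e₂ : ℝ}
    (he₁ : e₁ = 1 ∨ e₁ = -1) (he₂ : e₂ = 1 ∨ e₂ = -1)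
    (hc : c < (2 * (8 / (3 * Real.pi)) ^ 2 - 1) / 16 * G) :
    ∀ᶠ N in atTop, c ≤ mn (fun v => if (0 < e₁ * (2 * Real.cos (θ₁ v)) ∧
      0 < e₂ * (2 * Real.cos (θ₂ v))) ∧ P v then (1:ℝ) else 0) N := by
  set m : ℝ := 8 / (3 * Real.pi) with hm
  obtain ⟨δ, hδ, hB⟩ := bt_small (ε := 2 * ((2 * m ^ 2 - 1) / 16 * G - c) / G)
    (div_pos (mul_pos two_pos (sub_pos.2 hc)) hG)
  set B : ℝ := ∫ t, bt δ (2 * Real.cos t) ∂st with hBdef
  have bnd : ∀ e : ℝ, (e = 1 ∨ e = -1) → ∀ x : ℝ, |e * (2 * Real.cos x)| ≤ 2 := by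
    intro e he x
    rw [ee he, abs_mul, abs_two]
    linarith [Real.abs_cos_le_one x]
  have T : ∀ (θ : HeightOneSpectrum (𝓞 K) → ℝ) (e : ℝ), (e = 1 ∨ e = -1) →
      (∀ φ : ℝ → ℝ, Continuous φ → (∃ C, ∀ x, |φ x| ≤ C) →
        TT (fun v => φ (θ v) * γ v) ((∫ t, φ t ∂st) * G)) →
      TT (fun v => |e * (2 * Real.cos (θ v))| * γ v) (m * G) ∧
      TT (fun v => (e * (2 * Real.cos (θ v))) ^ 2 * γ v) G ∧
      TT (fun v => sg δ (e * (2 * Real.cos (θ v))) * γ v) 0 ∧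
      TT (fun v => bt δ (e * (2 * Real.cos (θ v))) * γ v) (B * G) := by
    intro θ e he h
    refine ⟨?_, ?_, ?_, ?_⟩
    · refine (h (fun t => |2 * Real.cos t|) (by fun_prop) ⟨2, fun x => ?_⟩).congr (fun v => ?_) ?_
      · rw [abs_abs, abs_mul, abs_two]
        linarith [Real.abs_cos_le_one x]
      · rw [ee he]
      · rw [st_abs]
    · refine (h (fun t => (2 * Real.cos t) ^ 2) (by fun_prop) ⟨4, fun x => ?_⟩).congr
        (fun v => ?_) ?_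
      · rw [abs_of_nonneg (sq_nonneg _)]
        nlinarith [Real.cos_sq_le_one x]
      · rcases he with rfl | rfl <;> ring
      · rw [st_sq, one_mul]
    · refine (h (fun t => sg δ (e * (2 * Real.cos t))) ((sg_cont hδ).comp (by fun_prop))
        ⟨1, fun x => sg_abs hδ _⟩).congr (fun v => rfl) ?_
      rw [int_sg δ he, zero_mul]
    · refine (h (fun t => bt δ (2 * Real.cos t)) ((bt_cont hδ).comp (by fun_prop))
        ⟨1, fun x => ?_⟩).congr (fun v => ?_) rfl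
      · rw [abs_of_nonneg (bt_nonneg hδ _)]
        exact bt_le hδ _
      · rw [bt_ee δ he]
  obtain ⟨a1, a2, a3, a4⟩ := T θ₁ e₁ he₁ h1
  obtain ⟨b1, b2, b3, b4⟩ := T θ₂ e₂ he₂ h2
  have g1 : TT γ G := by
    refine (h1 (fun _ => 1) continuous_const ⟨1, fun x => by simp⟩).congr (fun v => one_mul _) ?_
    simp
  have tot := (((((((((a1.smul (m / 8)).add (b1.smul (m / 8))).add (g1.smul (-(m ^ 2 / 8)))).add
    (a2.smul (-(1 / 32)))).add (b2.smul (-(1 / 32)))).add (h3.smul (e₁ * e₂ / 4))).add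
    (a3.smul (1 / 4))).add (b3.smul (1 / 4))).add (a4.smul (-(1 / 4)))).add (b4.smul (-(1 / 4)))
  refine TT.ev (φ := fun v => (1 / 16 * (2 * m * |e₁ * (2 * Real.cos (θ₁ v))| +
      2 * m * |e₂ * (2 * Real.cos (θ₂ v))| - 2 * m ^ 2 - 1 / 2 * (e₁ * (2 * Real.cos (θ₁ v))) ^ 2 -
      1 / 2 * (e₂ * (2 * Real.cos (θ₂ v))) ^ 2 +
      (e₁ * (2 * Real.cos (θ₁ v))) * (e₂ * (2 * Real.cos (θ₂ v)))) +
      1 / 2 * ((1 + sg δ (e₁ * (2 * Real.cos (θ₁ v))) - bt δ (e₁ * (2 * Real.cos (θ₁ v)))) / 2 +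
        (1 + sg δ (e₂ * (2 * Real.cos (θ₂ v))) - bt δ (e₂ * (2 * Real.cos (θ₂ v)))) / 2 - 1)) * γ v)
    (tot.congr (fun v => by ring) rfl) ?_ fun v => ?_
  · have h5 : B * G < 2 * ((2 * m ^ 2 - 1) / 16 * G - c) := by
      rw [lt_div_iff₀ hG] at hB
      exact hB
    nlinarith
  · exact cert2 hδ (bnd e₁ he₁ _) (bnd e₂ he₂ _) (h0 v) (h0' v) (hP v)

/-- **three signs** -/
theorem three_signs {θ₁ θ₂ θ₃ γ : HeightOneSpectrum (𝓞 K) → ℝ} {G : ℝ}
    (h12 : ∀ φ χ : ℝ → ℝ, Continuous φ → (∃ C, ∀ x, |φ x| ≤ C) → Continuous χ →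
      (∃ C, ∀ x, |χ x| ≤ C) → TT (fun v => φ (θ₁ v) * χ (θ₂ v) * γ v)
        ((∫ t, φ t ∂st) * (∫ t, χ t ∂st) * G))
    (h13 : ∀ φ χ : ℝ → ℝ, Continuous φ → (∃ C, ∀ x, |φ x| ≤ C) → Continuous χ →
      (∃ C, ∀ x, |χ x| ≤ C) → TT (fun v => φ (θ₁ v) * χ (θ₃ v) * γ v)
        ((∫ t, φ t ∂st) * (∫ t, χ t ∂st) * G))
    (h23 : ∀ φ χ : ℝ → ℝ, Continuous φ → (∃ C, ∀ x, |φ x| ≤ C) → Continuous χ →
      (∃ C, ∀ x, |χ x| ≤ C) → TT (fun v => φ (θ₂ v) * χ (θ₃ v) * γ v)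
        ((∫ t, φ t ∂st) * (∫ t, χ t ∂st) * G))
    (h3 : ∀ φ : ℝ → ℝ, Continuous φ →
      TT (fun v => Real.cos (θ₁ v) * Real.cos (θ₂ v) * φ (Real.cos (θ₃ v)) * γ v) 0)
    (h0 : ∀ v, 0 ≤ γ v) (h0' : ∀ v, γ v ≤ 1) (hG : 0 < G)
    {P : HeightOneSpectrum (𝓞 K) → Prop} [DecidablePred P] (hP : ∀ v, γ v ≠ 0 → P v)
    {e₁ e₂ e₃ : ℝ} (he₁ : e₁ = 1 ∨ e₁ = -1) (he₂ : e₂ = 1 ∨ e₂ = -1) (he₃ : e₃ = 1 ∨ e₃ = -1)
    (hc : c < 3 / 20 * ((8 / (3 * Real.pi)) ^ 2 / 2 - 729 / 8000) * G) :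
    ∀ᶠ N in atTop, c ≤ mn (fun v => if (0 < e₁ * (2 * Real.cos (θ₁ v)) ∧
      0 < e₂ * (2 * Real.cos (θ₂ v)) ∧ 0 < e₃ * (2 * Real.cos (θ₃ v))) ∧ P v
      then (1:ℝ) else 0) N := by
  set m : ℝ := 8 / (3 * Real.pi) with hm
  obtain ⟨δ, hδ, hB⟩ := bt_small (ε := (3 / 20 * (m ^ 2 / 2 - 729 / 8000) * G - c) / (3 * G))
    (div_pos (sub_pos.2 hc) (by positivity))
  set B : ℝ := ∫ t, bt δ (2 * Real.cos t) ∂st with hBdef
  have bnd : ∀ e : ℝ, (e = 1 ∨ e = -1) → ∀ x : ℝ, |e * (2 * Real.cos x)| ≤ 2 := by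
    intro e he x
    rw [ee he, abs_mul, abs_two]
    linarith [Real.abs_cos_le_one x]
  have b1 : ∃ C, ∀ x : ℝ, |(fun _ => (1:ℝ)) x| ≤ C := ⟨1, fun x => by simp⟩
  have cs : ∀ e : ℝ, Continuous fun t => sg δ (e * (2 * Real.cos t)) := fun e =>
    (sg_cont hδ).comp (by fun_prop)
  have bs : ∀ e : ℝ, ∃ C, ∀ x : ℝ, |(fun t => sg δ (e * (2 * Real.cos t))) x| ≤ C := fun e =>
    ⟨1, fun x => sg_abs hδ _⟩
  have cb : Continuous fun t => bt δ (2 * Real.cos t) := (bt_cont hδ).comp (by fun_prop)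
  have bb : ∃ C, ∀ x : ℝ, |(fun t => bt δ (2 * Real.cos t)) x| ≤ C := ⟨1, fun x => by
    simp only
    rw [abs_of_nonneg (bt_nonneg hδ _)]
    exact bt_le hδ _⟩
  have ca : Continuous fun t : ℝ => |2 * Real.cos t| := by fun_prop
  have ba : ∃ C, ∀ x : ℝ, |(fun t : ℝ => |2 * Real.cos t|) x| ≤ C := ⟨2, fun x => by
    simp only
    rw [abs_abs, abs_mul, abs_two]
    linarith [Real.abs_cos_le_one x]⟩
  have c4 : Continuous fun t : ℝ => (2 * Real.cos t) ^ 4 := by fun_prop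
  have b4 : ∃ C, ∀ x : ℝ, |(fun t : ℝ => (2 * Real.cos t) ^ 4) x| ≤ C := ⟨16, fun x => by
    simp only
    rw [abs_of_nonneg (by positivity)]
    have h1 : (2 * Real.cos x) ^ 2 ≤ 4 := by nlinarith [Real.cos_sq_le_one x]
    nlinarith [sq_nonneg (2 * Real.cos x)]⟩
  have t1 := h12 _ _ ca ba ca ba
  have t2 := h12 _ _ c4 b4 c4 b4
  have t3 := h3 (fun x => sg δ (e₃ * (2 * x))) ((sg_cont hδ).comp (by fun_prop))
  have s1 := h12 _ _ (cs e₁) (bs e₁) continuous_const b1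
  have s2 := h23 _ _ (cs e₂) (bs e₂) continuous_const b1
  have s3 := h13 _ _ continuous_const b1 (cs e₃) (bs e₃)
  have s12 := h12 _ _ (cs e₁) (bs e₁) (cs e₂) (bs e₂)
  have s13 := h13 _ _ (cs e₁) (bs e₁) (cs e₃) (bs e₃)
  have s23 := h23 _ _ (cs e₂) (bs e₂) (cs e₃) (bs e₃)
  have r1 := h12 _ _ cb bb continuous_const b1
  have r2 := h23 _ _ cb bb continuous_const b1
  have r3 := h13 _ _ continuous_const b1 cb bb
  rw [st_abs] at t1
  rw [st_four] at t2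
  rw [int_sg δ he₁] at s1 s12 s13
  rw [int_sg δ he₂] at s2 s12 s23
  rw [int_sg δ he₃] at s3 s13 s23
  rw [integral_const, probReal_univ, one_smul] at s1 s2 s3 r1 r2 r3
  rw [← hBdef] at r1 r2 r3
  rw [← hm] at t1
  have tot := (((((((((((t1.smul (3 / 40)).add (t3.smul (3 / 40 * (4 * (e₁ * e₂))))).add
    (t2.smul (-(3 / 20 * (729 / 32000))))).add (s1.smul (1 / 8))).add (s2.smul (1 / 8))).add
    (s3.smul (1 / 8))).add (s12.smul (1 / 8))).add (s13.smul (1 / 8))).add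
    (s23.smul (1 / 8))).add (r1.smul (-1))).add (r2.smul (-1))).add (r3.smul (-1))
  refine TT.ev (φ := fun v => (3 / 20 * (1 / 2 * (|e₁ * (2 * Real.cos (θ₁ v))| *
      |e₂ * (2 * Real.cos (θ₂ v))|) + 1 / 2 * ((e₁ * (2 * Real.cos (θ₁ v))) *
      (e₂ * (2 * Real.cos (θ₂ v))) * sg δ (e₃ * (2 * Real.cos (θ₃ v)))) -
      729 / 32000 * ((e₁ * (2 * Real.cos (θ₁ v))) ^ 4 * (e₂ * (2 * Real.cos (θ₂ v))) ^ 4)) +
      1 / 8 * (sg δ (e₁ * (2 * Real.cos (θ₁ v))) + sg δ (e₂ * (2 * Real.cos (θ₂ v))) +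
        sg δ (e₃ * (2 * Real.cos (θ₃ v))) +
        sg δ (e₁ * (2 * Real.cos (θ₁ v))) * sg δ (e₂ * (2 * Real.cos (θ₂ v))) +
        sg δ (e₁ * (2 * Real.cos (θ₁ v))) * sg δ (e₃ * (2 * Real.cos (θ₃ v))) +
        sg δ (e₂ * (2 * Real.cos (θ₂ v))) * sg δ (e₃ * (2 * Real.cos (θ₃ v)))) -
      (bt δ (e₁ * (2 * Real.cos (θ₁ v))) + bt δ (e₂ * (2 * Real.cos (θ₂ v))) +
        bt δ (e₃ * (2 * Real.cos (θ₃ v))))) * γ v)
    (tot.congr (fun v => ?_) rfl) ?_ fun v => ?_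
  · rw [ee he₁, ee he₂, bt_ee δ he₁, bt_ee δ he₂, bt_ee δ he₃]
    have q1 : (e₁ * (2 * Real.cos (θ₁ v))) ^ 4 = (2 * Real.cos (θ₁ v)) ^ 4 := by
      rcases he₁ with rfl | rfl <;> ring
    have q2 : (e₂ * (2 * Real.cos (θ₂ v))) ^ 4 = (2 * Real.cos (θ₂ v)) ^ 4 := by
      rcases he₂ with rfl | rfl <;> ring
    rw [q1, q2]
    ring
  · have h5 : B * (3 * G) < 3 / 20 * (m ^ 2 / 2 - 729 / 8000) * G - c := by
      rw [lt_div_iff₀ (by positivity)] at hB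
      exact hB
    nlinarith
  · exact cert3 hδ (bnd e₁ he₁ _) (bnd e₂ he₂ _) (h0 v) (h0' v) (hP v)

end

end Pool.Agent.Hp428.ST

namespace Pool.Agent.Hp428.ST

open MeasureTheory Filter Topology Set NumberField IsDedekindDomain Pool.Agent.TH553.ST
  Pool.Agent.W540.BE

variable {K : Type} [Field K] [NumberField K]

theorem TT.zero : TT (fun _ : HeightOneSpectrum (𝓞 K) => (0:ℝ)) 0 := by
  have h : mn (fun _ : HeightOneSpectrum (𝓞 K) => (0:ℝ)) = fun _ => 0 := by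
    funext N
    unfold mn
    simp
  unfold TT
  rw [h]
  exact tendsto_const_nhds

theorem TT.sum {ι : Type*} (s : Finset ι) {φ : ι → HeightOneSpectrum (𝓞 K) → ℝ} {L : ι → ℝ}
    (h : ∀ i ∈ s, TT (φ i) (L i)) : TT (fun v => ∑ i ∈ s, φ i v) (∑ i ∈ s, L i) := by
  classical
  induction s using Finset.induction_on with
  | empty => simpa using TT.zero (K := K)
  | insert a s ha ih =>
    simp only [Finset.sum_insert ha]
    exact (h a (Finset.mem_insert_self _ _)).add (ih fun i hi => h i (Finset.mem_insert_of_mem hi))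

/-- from powers to continuous functions -/
theorem tens_cont {c₁ c₂ c₃ γ : HeightOneSpectrum (𝓞 K) → ℝ} (h₁ : ∀ v, |c₁ v| ≤ 1)
    (h₂ : ∀ v, |c₂ v| ≤ 1) (h₃ : ∀ v, |c₃ v| ≤ 1) {C : ℝ} (hγ : ∀ v, |γ v| ≤ C)
    (h : ∀ n : ℕ, TT (fun v => c₁ v * c₂ v * c₃ v ^ n * γ v) 0) {F : ℝ → ℝ} (hF : Continuous F) :
    TT (fun v => c₁ v * c₂ v * F (c₃ v) * γ v) 0 := by
  have hC : 0 ≤ C := by
    by_contra hn
    push Not at hn
    have hP : IsEmpty (HeightOneSpectrum (𝓞 K)) :=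
      ⟨fun v => absurd ((abs_nonneg _).trans (hγ v)) (not_le.2 hn)⟩
    obtain ⟨N, hN⟩ := (card_ev (K := K)).exists
    apply hN
    have : upto K N = ∅ := Finset.eq_empty_of_isEmpty _
    rw [this]
    simp
  unfold TT
  rw [Metric.tendsto_atTop]
  intro ε hε
  have hε' : 0 < ε / (2 * (C + 1)) := by positivity
  obtain ⟨p, hp⟩ := exists_polynomial_near_of_continuousOn (-1) 1 F hF.continuousOn _ hε'
  have h4 : TT (fun v => c₁ v * c₂ v * p.eval (c₃ v) * γ v) 0 := by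
    have h5 := TT.sum p.support (φ := fun n v => p.coeff n * (c₁ v * c₂ v * c₃ v ^ n * γ v))
      (L := fun n => p.coeff n * 0) fun n _ => (h n).smul (p.coeff n)
    refine h5.congr (fun v => ?_) (by simp)
    rw [Polynomial.eval_eq_sum, Polynomial.sum, Finset.mul_sum, Finset.sum_mul]
    exact Finset.sum_congr rfl fun n _ => by ring
  unfold TT at h4
  rw [Metric.tendsto_atTop] at h4
  obtain ⟨N0, hN0⟩ := h4 (ε / 2) (by positivity)
  refine ⟨N0, fun N hN => ?_⟩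
  have h6 := hN0 N hN
  rw [Real.dist_eq, sub_zero] at h6 ⊢
  have h7 : mn (fun v => c₁ v * c₂ v * F (c₃ v) * γ v) N =
      mn (fun v => c₁ v * c₂ v * p.eval (c₃ v) * γ v) N +
      mn (fun v => c₁ v * c₂ v * (F (c₃ v) - p.eval (c₃ v)) * γ v) N := by
    rw [← mn_addR]
    congr 1
    funext v
    ring
  have h8 : |mn (fun v => c₁ v * c₂ v * (F (c₃ v) - p.eval (c₃ v)) * γ v) N| ≤
      ε / (2 * (C + 1)) * C := by
    refine abs_mn_le (fun v => ?_) (by positivity) N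
    rw [abs_mul, abs_mul, abs_mul]
    have i1 : |F (c₃ v) - p.eval (c₃ v)| ≤ ε / (2 * (C + 1)) := by
      rw [abs_sub_comm]
      exact (hp _ (abs_le.1 (h₃ v))).le
    have i2 : |c₁ v| * |c₂ v| ≤ 1 := by
      have := mul_le_mul (h₁ v) (h₂ v) (abs_nonneg _) zero_le_one
      linarith
    calc |c₁ v| * |c₂ v| * |F (c₃ v) - p.eval (c₃ v)| * |γ v| ≤
        1 * (ε / (2 * (C + 1))) * C := by
          gcongr
          exact hγ v
      _ = _ := by ring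
  have h9 : ε / (2 * (C + 1)) * C < ε / 2 := by
    rw [div_mul_eq_mul_div, div_lt_div_iff₀ (by positivity) (by positivity)]
    nlinarith
  rw [h7]
  calc |mn (fun v => c₁ v * c₂ v * p.eval (c₃ v) * γ v) N +
      mn (fun v => c₁ v * c₂ v * (F (c₃ v) - p.eval (c₃ v)) * γ v) N| ≤ _ := abs_add_le _ _
    _ < ε := by linarith

end Pool.Agent.Hp428.ST
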