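import Pool.Agent.Hp428.ST.Conj

set_option autoImplicit false
set_option linter.unusedSectionVars false

/-!
# Towers of factors with many conjugates
-/

namespace Pool.Agent.Hp428.ST

open Complex Filter Topology ComplexConjugate MeasureTheory NumberField IsDedekindDomain
  Pool.Agent.W540.BE Pool.Agent.TH553.RS Pool.Agent.H341R2 Pool.Agent.TH553.ST

section

variable {K : Type} [Field K] [NumberField K]
variable {ι : Type} [DecidableEq ι] {G : ι → Type} [∀ i, Group (G i)]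
  [∀ i, TopologicalSpace (G i)] [∀ i, IsTopologicalGroup (G i)] [∀ i, CompactSpace (G i)]
  {d : ι → ℕ} {π : ∀ i, G i →* Matrix.unitaryGroup (Fin (d i)) ℂ}

/-- the size of the L-function -/
theorem edge_le2 {S : Finset ι} {x : HeightOneSpectrum (𝓞 K) → ∀ i, G i}
    (hc : ∀ i, Continuous (π i)) {κ : ℝ} (τ : ℝ)
    (h : ∀ U : Ultrafilter ℝ, (U : Filter ℝ) ≤ 𝓝[>] 0 →
      |M (nm K) U fun v => ((∏ i ∈ S, chi (π i) (x v i)) *
        ((nm K v : ℕ) : ℂ) ^ (-(τ * I : ℂ))).re| ≤ κ) {η : ℝ} (hη : 0 < η) :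
    ∀ᶠ ε in 𝓝[>] (0 : ℝ), |szT π S x τ ε| ≤ κ + η := by
  have hcn : ∀ i, Continuous fun g => ‖chi (π i) g‖ := fun i => (cont_chi (hc i)).norm
  refine ev_le (fun U hU => ?_) hη
  set φ : HeightOneSpectrum (𝓞 K) → ℝ := fun v =>
    ((∏ i ∈ S, chi (π i) (x v i)) * ((nm K v : ℕ) : ℂ) ^ (-(τ * I : ℂ))).re with hφ
  have hle : ∀ v, |φ v| ≤ ∏ i ∈ S, ‖chi (π i) (x v i)‖ := by
    intro v
    refine (Complex.abs_re_le_norm _).trans ?_
    rw [norm_mul, norm_cpow_I (nm_pos v), mul_one, norm_prod]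
  have hb := bd_prod (x := x) hcn S
  have hφb : Bd φ := by
    obtain ⟨B, hB⟩ := hb
    exact ⟨B, fun v => (hle v).trans ((le_abs_self _).trans (hB v))⟩
  have h1 := M_lim (sysF K) hU hφb
  have h2 := h1.sub ((size_T (π := π) S x τ).2.mono_left hU)
  rw [sub_zero] at h2
  have h3 : Tendsto (szT π S x τ) U (𝓝 (M (nm K) U φ)) := by
    refine h2.congr fun ε => ?_
    ring
  exact ⟨|M (nm K) U φ|, h3.abs, h U hU⟩

theorem order_zero2 {S : Finset ι} {x : HeightOneSpectrum (𝓞 K) → ∀ i, G i}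
    (hc : ∀ i, Continuous (π i)) {κ : ℝ} (hκ : κ < 1) {τ : ℝ}
    (h : ∀ U : Ultrafilter ℝ, (U : Filter ℝ) ≤ 𝓝[>] 0 →
      |M (nm K) U fun v => ((∏ i ∈ S, chi (π i) (x v i)) *
        ((nm K v : ℕ) : ℂ) ^ (-(τ * I : ℂ))).re| ≤ κ) {Λ : ℂ → ℂ}
    (h1 : MeromorphicAt Λ (1 + τ * I))
    (h2 : ∀ᶠ s in 𝓝 ((1 : ℂ) + τ * I), (1 : ℝ) < s.re → Λ s = LT π S x s) :
    meromorphicOrderAt Λ (1 + τ * I) = ((0 : ℤ) : WithTop ℤ) := by
  obtain ⟨m, h3, h4⟩ := order_T h1 h2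
  have h5 := edge_le2 hc τ h (η := (1 - κ) / 2) (by linarith)
  have h6 := le_of_tendsto h4.abs h5
  rw [abs_neg] at h6
  have h7 : |(m : ℝ)| < 1 := by linarith
  have h8 : m = 0 := Int.abs_lt_one_iff.1 (by exact_mod_cast h7)
  rw [h3, h8]

end

section

variable {K : Type} [Field K] [NumberField K] {n : ℕ}
variable {G : Fin (n + 1) → Type} [∀ i, Group (G i)]
  [∀ i, TopologicalSpace (G i)] [∀ i, IsTopologicalGroup (G i)] [∀ i, CompactSpace (G i)]
  [∀ i, T2Space (G i)] [∀ i, SecondCountableTopology (G i)]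
  [∀ i, MeasurableSpace (G i)] [∀ i, BorelSpace (G i)]
  {x : HeightOneSpectrum (𝓞 K) → ∀ i, G i} {μ : ∀ i, Measure (G i)}
  [∀ i, IsProbabilityMeasure (μ i)] [∀ i, (μ i).IsHaarMeasure]
  {Γ : Fin (n + 1) → Type} [∀ i, Fintype (Γ i)] [∀ i, Nonempty (Γ i)]
  {γ : ∀ i, Γ i → Equiv.Perm (HeightOneSpectrum (𝓞 K))}

/-- the hypotheses on the tower -/
structure Tow (x : HeightOneSpectrum (𝓞 K) → ∀ i, G i) (μ : ∀ i, Measure (G i))
    (γ : ∀ i, Γ i → Equiv.Perm (HeightOneSpectrum (𝓞 K))) : Prop where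
  norm : ∀ i g, NP (γ i g)
  fixed : ∀ i j, j < i → ∀ g v, ∃ h, x (γ i g v) j = h * x v j * h⁻¹
  law : ∀ (i) (S : Finset (Γ i)), S.card ≤ 2 →
    TLc (fun v (g : Γ i) => x (γ i g v) i) (fun _ => μ i) S

variable {d : Fin (n + 1) → ℕ} {π : ∀ i, G i →* Matrix.unitaryGroup (Fin (d i)) ℂ}

/-- the product of the other factors -/
noncomputable def uo (π : ∀ i, G i →* Matrix.unitaryGroup (Fin (d i)) ℂ)
    (x : HeightOneSpectrum (𝓞 K) → ∀ i, G i) (T : Finset (Fin (n + 1)))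
    (v : HeightOneSpectrum (𝓞 K)) : ℂ := ∏ j ∈ T, chi (π j) (x v j)

theorem norm_uo (T : Finset (Fin (n + 1))) (v : HeightOneSpectrum (𝓞 K)) :
    ‖uo π x T v‖ ≤ ∏ j ∈ T, (d j : ℝ) := norm_prod_chi T x v

theorem Tow.inv (h : Tow x μ γ) {i : Fin (n + 1)} {T : Finset (Fin (n + 1))}
    (hT : ∀ j ∈ T, j < i ∨ ∀ g, π j g = 1) (g : Γ i) (v : HeightOneSpectrum (𝓞 K)) :
    uo π x T (γ i g v) = uo π x T v := by
  unfold uo
  refine Finset.prod_congr rfl fun j hj => ?_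
  rcases hT j hj with h1 | h1
  · obtain ⟨k, hk⟩ := h.fixed i j h1 g v
    rw [hk, chi_cls]
  · rw [chi_triv h1, chi_triv h1]

theorem prod_nonneg' (T : Finset (Fin (n + 1))) : (0 : ℝ) ≤ ∏ j ∈ T, (d j : ℝ) :=
  Finset.prod_nonneg fun j _ => Nat.cast_nonneg _

theorem MN_uo (T : Finset (Fin (n + 1))) {U : Ultrafilter ℕ} (hU : (U : Filter ℕ) ≤ atTop) :
    (MN U fun v => ‖uo π x T v‖ ^ 2) ≤ (∏ j ∈ T, (d j : ℝ)) ^ 2 := by
  have hb : Bc (uo π x T) := ⟨_, norm_uo T⟩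
  have h1 := (isM_MN hU).mono hb.norm.sq (Bd.const ((∏ j ∈ T, (d j : ℝ)) ^ 2))
    fun v => pow_le_pow_left₀ (norm_nonneg _) (norm_uo T v) 2
  rw [(isM_MN hU).const] at h1
  exact h1

theorem M_uo (T : Finset (Fin (n + 1))) {U : Ultrafilter ℝ} (hU : (U : Filter ℝ) ≤ 𝓝[>] 0) :
    (M (nm K) U fun v => ‖uo π x T v‖ ^ 2) ≤ (∏ j ∈ T, (d j : ℝ)) ^ 2 := by
  have hb : Bc (uo π x T) := ⟨_, norm_uo T⟩
  have h1 := (isM_M hU).mono hb.norm.sq (Bd.const ((∏ j ∈ T, (d j : ℝ)) ^ 2))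
    fun v => pow_le_pow_left₀ (norm_nonneg _) (norm_uo T v) 2
  rw [(isM_M hU).const] at h1
  exact h1

theorem sq_uo (T : Finset (Fin (n + 1))) : (fun v => ‖uo π x T v‖ ^ 2) =
    fun v => ∏ j ∈ T, ‖chi (π j) (x v j)‖ ^ 2 := by
  funext v
  unfold uo
  rw [norm_prod, Finset.prod_pow]

theorem PLw_uo (hc : ∀ i, Continuous (π i)) (hs : ∀ i, Schur (π i)) (hd : ∀ i, d i ≠ 0)
    {T : Finset (Fin (n + 1))} {m : (HeightOneSpectrum (𝓞 K) → ℝ) → ℝ} (h : PLw m x μ T) :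
    (m fun v => ‖uo π x T v‖ ^ 2) = 1 := by
  rw [sq_uo, h (fun j g => ‖chi (π j) g‖ ^ 2) (fun j => (cont_n (hc j)).pow 2)
    (fun j g k => by rw [chi_cls])]
  exact Finset.prod_eq_one fun j _ => int_sq (hc j) (hs j) (hd j)

/-- the averages -/
theorem Tow.avg (h : Tow x μ γ) (hc : ∀ i, Continuous (π i)) (hs : ∀ i, Schur (π i))
    {i : Fin (n + 1)} (hn : ∃ g, π i g ≠ 1) {T : Finset (Fin (n + 1))}
    (hT : ∀ j ∈ T, j < i ∨ ∀ g, π j g = 1) {κ : ℝ} (hκ : 0 ≤ κ)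
    (hκu : ∀ U : Ultrafilter ℕ, (U : Filter ℕ) ≤ atTop →
      (MN U fun v => ‖uo π x T v‖ ^ 2) ≤ κ ^ 2) {η : ℝ} (hη : 0 < η) :
    ∀ᶠ N : ℕ in atTop, ‖mn (fun v => uo π x T v * chi (π i) (x v i)) N‖ ≤
      κ / Real.sqrt (Fintype.card (Γ i)) + η := by
  classical
  exact conj_avg (y := fun v => x v i) (h.norm i) (h.law i) (hc i) (hs i) hn ⟨_, norm_uo T⟩
    (fun g v => h.inv hT g v) hκ hκu hη

theorem Tow.size (h : Tow x μ γ) (hc : ∀ i, Continuous (π i)) (hs : ∀ i, Schur (π i))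
    {i : Fin (n + 1)} (hn : ∃ g, π i g ≠ 1) {T : Finset (Fin (n + 1))}
    (hT : ∀ j ∈ T, j < i ∨ ∀ g, π j g = 1) {κ : ℝ} (hκ : 0 ≤ κ)
    {U : Ultrafilter ℝ} (hU : (U : Filter ℝ) ≤ 𝓝[>] 0)
    (hκu : (M (nm K) U fun v => ‖uo π x T v‖ ^ 2) ≤ κ ^ 2) (τ : ℝ) :
    |M (nm K) U fun v => ((uo π x T v * chi (π i) (x v i)) *
      ((nm K v : ℕ) : ℂ) ^ (-(τ * I : ℂ))).re| ≤ κ / Real.sqrt (Fintype.card (Γ i)) := by
  classical
  exact conj_M (y := fun v => x v i) (h.norm i) (h.law i) (hc i) (hs i) hn ⟨_, norm_uo T⟩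
    (fun g v => h.inv hT g v) hκ hU hκu τ

theorem uo_Iic (i : Fin (n + 1)) (v : HeightOneSpectrum (𝓞 K)) :
    uo π x (Finset.Iio i) v * chi (π i) (x v i) = ∏ j ∈ Finset.Iic i, chi (π j) (x v j) := by
  rw [← Finset.Iio_insert, Finset.prod_insert (by simp), mul_comm]
  rfl

end

section

variable {n : ℕ}
variable {G : Fin (n + 1) → Type} [∀ i, Group (G i)]
  [∀ i, TopologicalSpace (G i)] [∀ i, IsTopologicalGroup (G i)] [∀ i, CompactSpace (G i)]
  [∀ i, T2Space (G i)] [∀ i, SecondCountableTopology (G i)]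
  [∀ i, MeasurableSpace (G i)] [∀ i, BorelSpace (G i)]
  {μ : ∀ i, Measure (G i)}
  [∀ i, IsProbabilityMeasure (μ i)] [∀ i, (μ i).IsHaarMeasure]

/-- one term of the approximation -/
theorem tow_term {m : Fin (n + 1) → ℕ} {ρ : ∀ i, G i →* Matrix.unitaryGroup (Fin (m i)) ℂ}
    (h3 : ∀ i, Continuous (ρ i) ∧ Schur (ρ i)) {δ : ℝ} (hδ : 0 < δ) :
    ∃ R : ℕ, ∀ (K : Type) [Field K] [NumberField K]
      (x : HeightOneSpectrum (𝓞 K) → ∀ i, G i) (Γ : Fin (n + 1) → Type) [∀ i, Fintype (Γ i)]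
      [∀ i, Nonempty (Γ i)] (γ : ∀ i, Γ i → Equiv.Perm (HeightOneSpectrum (𝓞 K))),
      Tow x μ γ → (∀ i, R ≤ Fintype.card (Γ i) ∨ TLc x μ (Finset.Iic i)) →
      ∀ᶠ N : ℕ in atTop, ‖mn (fun v => ∏ i, chi (ρ i) (x v i)) N -
        ∫ g, ∏ i, chi (ρ i) (g i) ∂(Measure.pi μ)‖ ≤ δ := by
  classical
  by_cases hn : ∃ i, ∃ g, ρ i g ≠ 1
  · have h5 := int_prod_chi (μ := μ) (fun i => (h3 i).1) (fun i => (h3 i).2) hn
    -- the last nontrivial index
    set A : Finset (Fin (n + 1)) := Finset.univ.filter fun i => ∃ g, ρ i g ≠ 1 with hA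
    have hAne : A.Nonempty := by
      obtain ⟨i, hi⟩ := hn
      exact ⟨i, Finset.mem_filter.2 ⟨Finset.mem_univ _, hi⟩⟩
    set i := A.max' hAne with hi
    have hiA : i ∈ A := Finset.max'_mem _ _
    have hin : ∃ g, ρ i g ≠ 1 := (Finset.mem_filter.1 hiA).2
    have hmax : ∀ j, i < j → ∀ g, ρ j g = 1 := by
      intro j hj
      by_contra hcon
      push Not at hcon
      have h6 : j ≤ i := Finset.le_max' A j (Finset.mem_filter.2 ⟨Finset.mem_univ _, hcon⟩)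
      exact absurd hj (not_lt.2 h6)
    set T : Finset (Fin (n + 1)) := Finset.univ.erase i with hT
    have hTl : ∀ j ∈ T, j < i ∨ ∀ g, ρ j g = 1 := by
      intro j hj
      have hji : j ≠ i := (Finset.mem_erase.1 hj).1
      rcases lt_or_gt_of_ne hji with h | h
      · exact Or.inl h
      · exact Or.inr (hmax j h)
    set κ : ℝ := ∏ j ∈ T, (m j : ℝ) with hκ
    have hκ0 : 0 ≤ κ := Finset.prod_nonneg fun j _ => Nat.cast_nonneg _
    refine ⟨⌈(2 * κ / δ) ^ 2⌉₊ + 1, fun K _ _ x Γ _ _ γ hTow hR => ?_⟩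
    rw [h5]
    simp only [sub_zero]
    rcases hR i with hR | hJ
    · have h6 := hTow.avg (fun j => (h3 j).1) (fun j => (h3 j).2) hin hTl hκ0
        (fun U hU => MN_uo T hU) (half_pos hδ)
      filter_upwards [h6] with N hN
      have e : (fun v => uo ρ x T v * chi (ρ i) (x v i)) = fun v => ∏ j, chi (ρ j) (x v j) := by
        funext v
        exact Finset.prod_erase_mul Finset.univ _ (Finset.mem_univ i)
      rw [e] at hN
      have hr : (2 * κ / δ) ^ 2 < (Fintype.card (Γ i) : ℝ) := by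
        have h7 : (2 * κ / δ) ^ 2 ≤ (⌈(2 * κ / δ) ^ 2⌉₊ : ℝ) := Nat.le_ceil _
        have h8 : ((⌈(2 * κ / δ) ^ 2⌉₊ + 1 : ℕ) : ℝ) ≤ (Fintype.card (Γ i) : ℝ) := by
          exact_mod_cast hR
        push_cast at h8
        linarith
      have hs : 2 * κ / δ ≤ Real.sqrt (Fintype.card (Γ i)) := Real.le_sqrt_of_sq_le hr.le
      have hr0 : (0 : ℝ) < Fintype.card (Γ i) := lt_of_le_of_lt (sq_nonneg _) hr
      have hs0 : 0 < Real.sqrt (Fintype.card (Γ i)) := Real.sqrt_pos.2 hr0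
      have h9 : κ / Real.sqrt (Fintype.card (Γ i)) ≤ δ / 2 := by
        rw [div_le_iff₀ hs0]
        rw [div_le_iff₀ hδ] at hs
        linarith
      linarith
    · have h6 := hJ (fun j => chi (ρ j)) (fun j => cont_chi (h3 j).1)
        (fun j g k => chi_cls (ρ j) g k)
      have h7 : ∏ j ∈ Finset.Iic i, ∫ g, chi (ρ j) g ∂μ j = 0 :=
        Finset.prod_eq_zero (Finset.mem_Iic.2 le_rfl) (int_chi (h3 i).1 (h3 i).2 hin)
      rw [h7] at h6
      have h8 := h6.const_mul (∏ j ∈ Finset.Ioi i, (m j : ℂ))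
      rw [mul_zero] at h8
      have e : (fun v => (∏ j ∈ Finset.Ioi i, (m j : ℂ)) * ∏ j ∈ Finset.Iic i, chi (ρ j) (x v j)) =
          fun v => ∏ j, chi (ρ j) (x v j) := by
        funext v
        have h9 : (Finset.univ : Finset (Fin (n + 1))) = Finset.Ioi i ∪ Finset.Iic i := by
          ext j
          simp only [Finset.mem_univ, Finset.mem_union, Finset.mem_Ioi, Finset.mem_Iic, true_iff]
          exact lt_or_ge i j
        rw [h9, Finset.prod_union (by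
          rw [Finset.disjoint_left]
          intro j h10 h11
          exact absurd (Finset.mem_Ioi.1 h10) (not_lt.2 (Finset.mem_Iic.1 h11)))]
        congr 1
        exact Finset.prod_congr rfl fun j hj => (chi_triv (hmax j (Finset.mem_Ioi.1 hj)) _).symm
      have h9 : Tendsto (mn fun v => ∏ j, chi (ρ j) (x v j)) atTop (𝓝 0) := by
        rw [← e]
        refine h8.congr fun N => ?_
        rw [mn_mul]
      have h10 := h9.norm
      rw [norm_zero] at h10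
      exact (h10.eventually_lt_const hδ).mono fun N hN => hN.le
  · push Not at hn
    refine ⟨0, fun K _ _ x Γ _ _ γ _ _ => ?_⟩
    have h7 : ∀ g : ∀ i, G i, ∏ i, chi (ρ i) (g i) = ∏ i, (m i : ℂ) := fun g =>
      Finset.prod_congr rfl fun i _ => chi_triv (hn i) _
    simp only [h7]
    have h8 : ∫ _ : (∀ i, G i), (∏ i, (m i : ℂ)) ∂(Measure.pi μ) =
        ∏ i, (m i : ℂ) := by
      simp
    rw [h8]
    have h9 := (mn_constC (K := K) (∏ i, (m i : ℂ))).sub_const (∏ i, (m i : ℂ))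
    rw [sub_self] at h9
    have h10 := h9.norm
    rw [norm_zero] at h10
    exact (h10.eventually_lt_const hδ).mono fun N hN => hN.le

/-- **The approximation.** -/
theorem tow_all {f : (∀ i, G i) → ℂ} (hf : Continuous f)
    (hcl : ∀ g h, f (h * g * h⁻¹) = f g) {δ : ℝ} (hδ : 0 < δ) :
    ∃ R : ℕ, ∀ (K : Type) [Field K] [NumberField K]
      (x : HeightOneSpectrum (𝓞 K) → ∀ i, G i) (Γ : Fin (n + 1) → Type) [∀ i, Fintype (Γ i)]
      [∀ i, Nonempty (Γ i)] (γ : ∀ i, Γ i → Equiv.Perm (HeightOneSpectrum (𝓞 K))),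
      Tow x μ γ → (∀ i, R ≤ Fintype.card (Γ i) ∨ TLc x μ (Finset.Iic i)) →
      ∀ᶠ N : ℕ in atTop, ‖mn (fun v => f (x v)) N - ∫ g, f g ∂(Measure.pi μ)‖ ≤ δ := by
  obtain ⟨Fn, h1, h2'⟩ := dn_dense μ hf hcl (ε := δ / 4) (by positivity)
  obtain ⟨J, _, m, ρ, a, h3, h4⟩ := h1
  set A : ℝ := ∑ j, ‖a j‖ + 1 with hA
  have hA0 : 0 < A := by
    have : 0 ≤ ∑ j, ‖a j‖ := Finset.sum_nonneg fun j _ => norm_nonneg _
    linarith
  set δ' : ℝ := δ / (2 * A) with hδ'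
  have hδ'0 : 0 < δ' := by positivity
  have hci : ∀ j, Continuous fun g : ∀ i, G i => ∏ i, chi (ρ j i) (g i) := fun j =>
    continuous_finsetProd _ fun i _ => (cont_chi (h3 j i).1).comp (continuous_apply i)
  have hFc : Continuous Fn := by
    have : Fn = fun g => ∑ j, a j * ∏ i, chi (ρ j i) (g i) := funext h4
    rw [this]
    exact continuous_finsetSum _ fun j _ => continuous_const.mul (hci j)
  choose R hR using fun j => tow_term (μ := μ) (fun i => h3 j i) hδ'0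
  refine ⟨∑ j, R j, fun K _ _ x Γ _ _ γ hTow hJ => ?_⟩
  have hev : ∀ᶠ N : ℕ in atTop, ∀ j, ‖mn (fun v => ∏ i, chi (ρ j i) (x v i)) N -
        ∫ g, ∏ i, chi (ρ j i) (g i) ∂(Measure.pi μ)‖ ≤ δ' := Filter.eventually_all.2 fun j =>
    hR j K x Γ γ hTow fun i => (hJ i).imp
      (fun h => le_trans (Finset.single_le_sum (f := R) (fun _ _ => Nat.zero_le _)
        (Finset.mem_univ j)) h) id
  filter_upwards [hev] with N hN
  have h5 : ∫ g, Fn g ∂(Measure.pi μ) =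
      ∑ j, a j * ∫ g, ∏ i, chi (ρ j i) (g i) ∂(Measure.pi μ) := by
    simp only [h4]
    rw [integral_finsetSum _ fun j _ => (intn μ (hci j)).const_mul _]
    exact Finset.sum_congr rfl fun j _ => integral_const_mul _ _
  have h6 : ‖(∫ g, Fn g ∂(Measure.pi μ)) - ∫ g, f g ∂(Measure.pi μ)‖ ≤ δ / 4 := by
    rw [← integral_sub (intn μ hFc) (intn μ hf)]
    refine (norm_integral_le_integral_norm _).trans ?_
    have h7 : ∫ g, ‖Fn g - f g‖ ∂(Measure.pi μ) ≤ ∫ _, δ / 4 ∂(Measure.pi μ) := by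
      refine integral_mono ((intn μ hFc).sub (intn μ hf)).norm
        (integrable_const _) fun g => ?_
      simp only
      rw [norm_sub_rev]
      exact h2' g
    simpa using h7
  have h7 : ‖mn (fun v => Fn (x v)) N - ∫ g, Fn g ∂(Measure.pi μ)‖ ≤ δ / 2 := by
    have e : (fun v => Fn (x v)) =
        fun v => ∑ j, a j * ∏ i, chi (ρ j i) (x v i) := funext fun v => h4 _
    rw [e, mn_sum, h5, ← Finset.sum_sub_distrib]
    refine (norm_sum_le _ _).trans ?_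
    have h8 : ∀ j ∈ Finset.univ, ‖mn (fun v => a j * ∏ i, chi (ρ j i) (x v i)) N -
        a j * ∫ g, ∏ i, chi (ρ j i) (g i) ∂(Measure.pi μ)‖ ≤ ‖a j‖ * δ' := by
      intro j _
      rw [mn_mul, ← mul_sub, norm_mul]
      exact mul_le_mul_of_nonneg_left (hN j) (norm_nonneg _)
    refine (Finset.sum_le_sum h8).trans ?_
    rw [← Finset.sum_mul]
    have h9 : ∑ j, ‖a j‖ ≤ A := by rw [hA]; linarith
    calc (∑ j, ‖a j‖) * δ' ≤ A * δ' := mul_le_mul_of_nonneg_right h9 hδ'0.le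
      _ = δ / 2 := by
          rw [hδ']
          field_simp
  have h8 := mn_sub_le (K := K) (F := fun v => f (x v))
    (F' := fun v => Fn (x v)) (ε := δ / 4) (fun v => h2' _) (by positivity) N
  have h9 : mn (fun v => f (x v)) N - ∫ g, f g ∂(Measure.pi μ) =
      (mn (fun v => f (x v)) N - mn (fun v => Fn (x v)) N) +
      (mn (fun v => Fn (x v)) N - ∫ g, Fn g ∂(Measure.pi μ)) +
      ((∫ g, Fn g ∂(Measure.pi μ)) - ∫ g, f g ∂(Measure.pi μ)) := by ring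
  rw [h9]
  have h11 := norm_add_le ((mn (fun v => f (x v)) N -
    mn (fun v => Fn (x v)) N) +
    (mn (fun v => Fn (x v)) N - ∫ g, Fn g ∂(Measure.pi μ)))
    ((∫ g, Fn g ∂(Measure.pi μ)) - ∫ g, f g ∂(Measure.pi μ))
  have h12 := norm_add_le (mn (fun v => f (x v)) N -
    mn (fun v => Fn (x v)) N)
    (mn (fun v => Fn (x v)) N - ∫ g, Fn g ∂(Measure.pi μ))
  linarith

end

end Pool.Agent.Hp428.ST
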