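import Pool.Agent.Hp428.ST.Ind

set_option autoImplicit false
set_option linter.unusedSectionVars false

/-!
# Almost all tuples of a large family
-/

namespace Pool.Agent.Hp428.ST

open Complex Filter Topology ComplexConjugate MeasureTheory NumberField IsDedekindDomain
  Pool.Agent.W540.BE Pool.Agent.TH553.RS Pool.Agent.H341R2 Pool.Agent.TH553.ST

section

variable {K : Type} [Field K] [NumberField K]

theorem norm_mn_le (F : HeightOneSpectrum (𝓞 K) → ℂ) (N : ℕ) :
    ‖mn F N‖ ≤ mn (fun v => ‖F v‖) N := by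
  unfold mn
  rw [norm_smul, norm_inv, Real.norm_natCast, smul_eq_mul]
  exact mul_le_mul_of_nonneg_left (norm_sum_le _ _) (by positivity)

theorem mn_monoR {φ ψ : HeightOneSpectrum (𝓞 K) → ℝ} (h : ∀ v, φ v ≤ ψ v) (N : ℕ) :
    mn φ N ≤ mn ψ N := by
  unfold mn
  rw [smul_eq_mul, smul_eq_mul]
  exact mul_le_mul_of_nonneg_left (Finset.sum_le_sum fun v _ => h v) (by positivity)

theorem mn_csR (φ : HeightOneSpectrum (𝓞 K) → ℝ) (N : ℕ) :
    mn φ N ^ 2 ≤ mn (fun v => φ v ^ 2) N := by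
  unfold mn
  rw [smul_eq_mul, smul_eq_mul, mul_pow]
  have h1 := sq_sum_le_card_mul_sum_sq (s := upto K N) (f := φ)
  by_cases h0 : ((upto K N).card : ℝ) = 0
  · rw [h0]
    simp
  · have h2 : (0 : ℝ) < (upto K N).card := lt_of_le_of_ne (Nat.cast_nonneg _) (Ne.symm h0)
    calc (((upto K N).card : ℝ)⁻¹) ^ 2 * (∑ v ∈ upto K N, φ v) ^ 2
        ≤ (((upto K N).card : ℝ)⁻¹) ^ 2 * ((upto K N).card * ∑ v ∈ upto K N, φ v ^ 2) :=
          mul_le_mul_of_nonneg_left h1 (by positivity)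
      _ = _ := by field_simp

theorem bess_fin {ι : Type} (N : ℕ) (S : Finset ι) (w : ι → HeightOneSpectrum (𝓞 K) → ℂ)
    (u : HeightOneSpectrum (𝓞 K) → ℂ) {D E : ℝ} (hu : ∀ v, ‖u v‖ ≤ D) (hD : 0 ≤ D) (hE0 : 0 ≤ E)
    (hE : ∀ p ∈ S, ∑ q ∈ S, ‖mn (fun v => w p v * conj (w q v)) N‖ ≤ E) :
    ∑ p ∈ S, ‖mn (fun v => u v * w p v) N‖ ^ 2 ≤ D ^ 2 * E := by
  set b : ι → ℂ := fun p => mn (fun v => u v * w p v) N with hb
  set g : ι → ι → ℂ := fun p q => mn (fun v => w p v * conj (w q v)) N with hg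
  set X : ℝ := ∑ p ∈ S, ‖b p‖ ^ 2 with hX
  have hX0 : 0 ≤ X := Finset.sum_nonneg fun p _ => sq_nonneg _
  set Z : HeightOneSpectrum (𝓞 K) → ℂ := fun v => ∑ p ∈ S, conj (b p) * w p v with hZ
  -- the sum as an average
  have h1 : mn (fun v => u v * Z v) N = (X : ℂ) := by
    have e : (fun v => u v * Z v) = fun v => ∑ p ∈ S, conj (b p) * (u v * w p v) := by
      funext v
      rw [hZ]
      simp only
      rw [Finset.mul_sum]
      exact Finset.sum_congr rfl fun p _ => by ring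
    rw [e, mn_sum, hX]
    push_cast
    refine Finset.sum_congr rfl fun p _ => ?_
    rw [mn_mul]
    change conj (b p) * b p = _
    exact Complex.conj_mul' _
  have h2 : X ≤ D * mn (fun v => ‖Z v‖) N := by
    have h3 : X = ‖mn (fun v => u v * Z v) N‖ := by
      rw [h1, Complex.norm_real, Real.norm_of_nonneg hX0]
    rw [h3, ← mn_smulR]
    refine (norm_mn_le _ _).trans (mn_monoR (fun v => ?_) N)
    rw [norm_mul]
    exact mul_le_mul_of_nonneg_right (hu v) (norm_nonneg _)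
  -- the square of the norm
  have h3 : ((mn (fun v => ‖Z v‖ ^ 2) N : ℝ) : ℂ) =
      ∑ p ∈ S, ∑ q ∈ S, (conj (b p) * b q) * g p q := by
    rw [ofReal_mn]
    have e : (fun v => ((‖Z v‖ ^ 2 : ℝ) : ℂ)) =
        fun v => ∑ p ∈ S, ∑ q ∈ S, (conj (b p) * b q) * (w p v * conj (w q v)) := by
      funext v
      have h4 : ((‖Z v‖ ^ 2 : ℝ) : ℂ) = Z v * conj (Z v) := by
        rw [Complex.mul_conj, Complex.normSq_eq_norm_sq]
      rw [h4, hZ]
      simp only
      rw [map_sum, Finset.sum_mul_sum]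
      refine Finset.sum_congr rfl fun p _ => Finset.sum_congr rfl fun q _ => ?_
      rw [map_mul, Complex.conj_conj]
      ring
    rw [e, mn_sum]
    refine Finset.sum_congr rfl fun p _ => ?_
    rw [mn_sum]
    exact Finset.sum_congr rfl fun q _ => mn_mul _ _ _
  have hsymm : ∀ p q, ‖g p q‖ = ‖g q p‖ := by
    intro p q
    have h4 : g q p = conj (g p q) := by
      rw [hg]
      simp only
      unfold mn
      rw [Complex.real_smul, Complex.real_smul, map_mul, Complex.conj_ofReal, map_sum]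
      congr 1
      refine Finset.sum_congr rfl fun v _ => ?_
      rw [map_mul, Complex.conj_conj]
      ring
    rw [h4, Complex.norm_conj]
  have h4 : mn (fun v => ‖Z v‖ ^ 2) N ≤ E * X := by
    have h5 : mn (fun v => ‖Z v‖ ^ 2) N ≤ ∑ p ∈ S, ∑ q ∈ S, (‖b p‖ * ‖b q‖) * ‖g p q‖ := by
      have h6 : mn (fun v => ‖Z v‖ ^ 2) N = ‖((mn (fun v => ‖Z v‖ ^ 2) N : ℝ) : ℂ)‖ := by
        rw [Complex.norm_real, Real.norm_of_nonneg (mn_nonneg (fun v => sq_nonneg _) N)]
      rw [h6, h3]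
      refine (norm_sum_le _ _).trans (Finset.sum_le_sum fun p _ => ?_)
      refine (norm_sum_le _ _).trans (Finset.sum_le_sum fun q _ => ?_)
      rw [norm_mul, norm_mul, Complex.norm_conj]
    have h6 : ∑ p ∈ S, ∑ q ∈ S, (‖b p‖ * ‖b q‖) * ‖g p q‖ ≤
        ∑ p ∈ S, ∑ q ∈ S, (1 / 2 * (‖b p‖ ^ 2 * ‖g p q‖) + 1 / 2 * (‖b q‖ ^ 2 * ‖g q p‖)) := by
      refine Finset.sum_le_sum fun p _ => Finset.sum_le_sum fun q _ => ?_
      rw [← hsymm p q]
      have h7 : ‖b p‖ * ‖b q‖ ≤ 1 / 2 * ‖b p‖ ^ 2 + 1 / 2 * ‖b q‖ ^ 2 := by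
        nlinarith [sq_nonneg (‖b p‖ - ‖b q‖)]
      have h8 := mul_le_mul_of_nonneg_right h7 (norm_nonneg (g p q))
      linarith
    have h7 : ∑ p ∈ S, ∑ q ∈ S, (1 / 2 * (‖b p‖ ^ 2 * ‖g p q‖) +
        1 / 2 * (‖b q‖ ^ 2 * ‖g q p‖)) = ∑ p ∈ S, ‖b p‖ ^ 2 * ∑ q ∈ S, ‖g p q‖ := by
      have h8 : ∑ p ∈ S, ∑ q ∈ S, 1 / 2 * (‖b q‖ ^ 2 * ‖g q p‖) =
          ∑ p ∈ S, ∑ q ∈ S, 1 / 2 * (‖b p‖ ^ 2 * ‖g p q‖) := Finset.sum_comm
      simp only [Finset.sum_add_distrib]
      rw [h8, ← Finset.sum_add_distrib]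
      refine Finset.sum_congr rfl fun p _ => ?_
      rw [← Finset.sum_add_distrib, Finset.mul_sum]
      exact Finset.sum_congr rfl fun q _ => by ring
    have h8 : ∑ p ∈ S, ‖b p‖ ^ 2 * ∑ q ∈ S, ‖g p q‖ ≤ E * X := by
      rw [hX, Finset.mul_sum]
      refine Finset.sum_le_sum fun p hp => ?_
      rw [mul_comm E]
      exact mul_le_mul_of_nonneg_left (hE p hp) (sq_nonneg _)
    linarith
  have h5 : X ^ 2 ≤ D ^ 2 * (E * X) := by
    have h6 : X ^ 2 ≤ (D * mn (fun v => ‖Z v‖) N) ^ 2 := pow_le_pow_left₀ hX0 h2 2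
    rw [mul_pow] at h6
    refine h6.trans (mul_le_mul_of_nonneg_left ?_ (sq_nonneg D))
    exact (mn_csR (fun v => ‖Z v‖) N).trans h4
  by_cases hX1 : X = 0
  · rw [hX1]
    positivity
  · have hX2 : 0 < X := lt_of_le_of_ne hX0 (Ne.symm hX1)
    have h6 : X * X ≤ (D ^ 2 * E) * X := by
      calc X * X = X ^ 2 := (sq X).symm
        _ ≤ D ^ 2 * (E * X) := h5
        _ = _ := by ring
    exact le_of_mul_le_mul_right h6 hX2

end

section

variable {K : Type} [Field K] [NumberField K]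
variable {ι : Type} [DecidableEq ι] {G : Type} [Group G]
  [TopologicalSpace G] [IsTopologicalGroup G] [CompactSpace G]
  [T2Space G] [SecondCountableTopology G]
  [MeasurableSpace G] [BorelSpace G]
  {x : HeightOneSpectrum (𝓞 K) → ι → G} {μ : Measure G}
  [IsProbabilityMeasure μ] [μ.IsHaarMeasure]
  {d : ℕ} {ρ : G →* Matrix.unitaryGroup (Fin d) ℂ}

/-- the limits of the entries of the Gram matrix -/
theorem gram_ev (h2 : ∀ S : Finset ι, S.card ≤ 2 → TLc x (fun _ => μ) S) (hc : Continuous ρ)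
    (hs : Schur ρ) (hn : ∃ g, ρ g ≠ 1) (S : Finset ι) : ∀ᶠ N : ℕ in atTop, ∀ p ∈ S,
      ∑ q ∈ S, ‖mn (fun v => chi ρ (x v p) * conj (chi ρ (x v q))) N‖ ≤ 2 := by
  have hd : d ≠ 0 := ne_zero_of_nt hn
  have hcj : Continuous fun g => conj (chi ρ g) := Complex.continuous_conj.comp (cont_chi hc)
  have hlim : ∀ p q, Tendsto (mn fun v => chi ρ (x v p) * conj (chi ρ (x v q))) atTop
      (𝓝 (if p = q then 1 else 0)) := by
    intro p q
    by_cases hpq : p = q
    · subst hpq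
      rw [if_pos rfl]
      have h3 := h2 {p} (by simp) (fun _ g => chi ρ g * conj (chi ρ g))
        (fun _ => (cont_chi hc).mul hcj) (fun _ g h => by rw [chi_cls])
      simp only [Finset.prod_singleton] at h3
      have h4 : ∫ g, chi ρ g * conj (chi ρ g) ∂μ = 1 := by
        have h1 : (fun g => chi ρ g * conj (chi ρ g)) = fun g => ((‖chi ρ g‖ ^ 2 : ℝ) : ℂ) := by
          funext g
          rw [Complex.mul_conj, Complex.normSq_eq_norm_sq]
        have h2 : ∫ g, ((‖chi ρ g‖ ^ 2 : ℝ) : ℂ) ∂μ = ((∫ g, ‖chi ρ g‖ ^ 2 ∂μ : ℝ) : ℂ) :=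
          integral_ofReal
        rw [h1, h2, int_sq hc hs hd, Complex.ofReal_one]
      rw [h4] at h3
      exact h3
    · rw [if_neg hpq]
      have h3 := h2 {p, q} (Finset.card_le_two)
        (fun k g => if k = p then chi ρ g else conj (chi ρ g))
        (fun k => by
          by_cases hk : k = p
          · simp only [hk, if_true]
            exact cont_chi hc
          · simp only [hk, if_false]
            exact hcj)
        (fun k g h => by rw [chi_cls])
      rw [Finset.prod_pair hpq] at h3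
      simp only [Finset.prod_pair hpq, if_true, if_neg (Ne.symm hpq)] at h3
      rw [int_chi hc hs hn, zero_mul] at h3
      exact h3
  rw [Finset.eventually_all]
  intro p hp
  have h3 : Tendsto (fun N => ∑ q ∈ S, ‖mn (fun v => chi ρ (x v p) * conj (chi ρ (x v q))) N‖)
      atTop (𝓝 (∑ q ∈ S, ‖(if p = q then (1 : ℂ) else 0)‖)) :=
    tendsto_finsetSum _ fun q _ => (hlim p q).norm
  have h4 : ∑ q ∈ S, ‖(if p = q then (1 : ℂ) else 0)‖ = 1 := by
    rw [Finset.sum_eq_single p (fun q _ hq => by rw [if_neg (Ne.symm hq), norm_zero])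
      (fun h => absurd hp h), if_pos rfl, norm_one]
  rw [h4] at h3
  exact (h3.eventually_lt_const (by norm_num : (1 : ℝ) < 2)).mono fun N hN => hN.le

/-- the number of the members of the family that are correlated with a given function -/
theorem count_ev (h2 : ∀ S : Finset ι, S.card ≤ 2 → TLc x (fun _ => μ) S) (hc : Continuous ρ)
    (hs : Schur ρ) (hn : ∃ g, ρ g ≠ 1) {D δ : ℝ} (hD : 0 ≤ D) (hδ : 0 < δ) (S : Finset ι) :
    ∀ᶠ N : ℕ in atTop, ∀ u : HeightOneSpectrum (𝓞 K) → ℂ,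
      (∀ v, ‖u v‖ ≤ D) →
      (S.filter fun p => δ < ‖mn (fun v => u v * chi ρ (x v p)) N‖).card ≤
        ⌊D ^ 2 * 2 / δ ^ 2⌋₊ := by
  filter_upwards [gram_ev h2 hc hs hn S] with N hN u hu
  have h3 := bess_fin N S (fun p v => chi ρ (x v p)) u hu hD (by norm_num) hN
  refine Nat.le_floor ?_
  rw [le_div_iff₀ (by positivity)]
  refine le_trans ?_ h3
  rw [← nsmul_eq_mul]
  refine le_trans ?_ (Finset.sum_le_sum_of_subset_of_nonneg
    (Finset.filter_subset (fun p => δ < ‖mn (fun v => u v * chi ρ (x v p)) N‖) S)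
    fun p _ _ => sq_nonneg _)
  refine Finset.card_nsmul_le_sum _ _ _ fun p hp => ?_
  exact pow_le_pow_left₀ hδ.le (Finset.mem_filter.1 hp).2.le 2

variable {σ : Type} [Fintype σ] [DecidableEq σ]

open Classical in
/-- products of characters for almost all tuples -/
theorem tuple_chi (h2 : ∀ S : Finset ι, S.card ≤ 2 → TLc x (fun _ => μ) S)
    {m : σ → ℕ} {r : ∀ a, G →* Matrix.unitaryGroup (Fin (m a)) ℂ}
    (hc : ∀ a, Continuous (r a)) (hs : ∀ a, Schur (r a)) {a₀ : σ} (hn : ∃ g, r a₀ g ≠ 1)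
    {δ : ℝ} (hδ : 0 < δ) (S : Finset ι) : ∀ᶠ N : ℕ in atTop,
      ((Fintype.piFinset fun _ : σ => S).filter fun t =>
        δ < ‖mn (fun v => ∏ a, chi (r a) (x v (t a))) N‖).card ≤
        ⌊(∏ a : {a // a ≠ a₀}, (m a : ℝ)) ^ 2 * 2 / δ ^ 2⌋₊ *
          S.card ^ (Fintype.card σ - 1) := by
  set D : ℝ := ∏ a : {a // a ≠ a₀}, (m a : ℝ) with hD
  have hD0 : 0 ≤ D := Finset.prod_nonneg fun a _ => Nat.cast_nonneg _
  set B : ℕ := ⌊D ^ 2 * 2 / δ ^ 2⌋₊ with hBdef
  filter_upwards [count_ev (K := K) h2 (hc a₀) (hs a₀) hn hD0 hδ S] with N hN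
  set T := (Fintype.piFinset fun _ : σ => S).filter fun t =>
    δ < ‖mn (fun v => ∏ a, chi (r a) (x v (t a))) N‖ with hT
  set res : (σ → ι) → ({a // a ≠ a₀} → ι) := fun t a => t a with hres
  have hmaps : ∀ t ∈ T, res t ∈ Fintype.piFinset fun _ : {a // a ≠ a₀} => S := by
    intro t ht
    rw [Fintype.mem_piFinset]
    intro a
    exact Fintype.mem_piFinset.1 (Finset.mem_filter.1 ht).1 _
  have h3 := Finset.card_le_mul_card_image_of_maps_to hmaps B fun q _ => by
    set u : HeightOneSpectrum (𝓞 K) → ℂ := fun v =>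
      ∏ a : {a // a ≠ a₀}, chi (r a) (x v (q a)) with hu
    have hub : ∀ v, ‖u v‖ ≤ D := by
      intro v
      rw [hu, hD]
      simp only
      rw [norm_prod]
      exact Finset.prod_le_prod (fun a _ => norm_nonneg _) fun a _ => norm_chi (r a) _
    refine le_trans ?_ (hN u hub)
    refine Finset.card_le_card_of_injOn (fun t => t a₀) (fun t ht => ?_) (fun t ht t' ht' h => ?_)
    · have ht1 := Finset.mem_filter.1 (Finset.mem_coe.1 ht)
      have ht2 := Finset.mem_filter.1 ht1.1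
      refine Finset.mem_coe.2 (Finset.mem_filter.2 ⟨Fintype.mem_piFinset.1 ht2.1 a₀, ?_⟩)
      have e : (fun v => u v * chi (r a₀) (x v (t a₀))) =
          fun v => ∏ a, chi (r a) (x v (t a)) := by
        funext v
        rw [Fintype.prod_eq_mul_prod_subtype_ne (fun a => chi (r a) (x v (t a))) a₀, mul_comm]
        congr 1
        rw [hu]
        simp only
        refine Finset.prod_congr rfl fun a _ => ?_
        have h5 : t a = q a := congrFun ht1.2 a
        rw [h5]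
      rw [e]
      exact ht2.2
    · have ht1 := Finset.mem_filter.1 (Finset.mem_coe.1 ht)
      have ht1' := Finset.mem_filter.1 (Finset.mem_coe.1 ht')
      funext a
      by_cases ha : a = a₀
      · rw [ha]
        exact h
      · have h5 : t a = q ⟨a, ha⟩ := congrFun ht1.2 ⟨a, ha⟩
        have h6 : t' a = q ⟨a, ha⟩ := congrFun ht1'.2 ⟨a, ha⟩
        rw [h5, h6]
  refine h3.trans (le_of_eq ?_)
  rw [Fintype.card_piFinset, Finset.prod_const, Finset.card_univ]
  have h4 : Fintype.card {a // a ≠ a₀} = Fintype.card σ - 1 := by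
    have h := Fintype.card_subtype_compl (fun a => a = a₀)
    simpa using h
  rw [h4]

omit [T2Space G] [SecondCountableTopology G] in
open Classical in
/-- one term -/
theorem tuple_term [T2Space G] [SecondCountableTopology G] {m : σ → ℕ}
    {ρ : ∀ a, G →* Matrix.unitaryGroup (Fin (m a)) ℂ}
    (h3 : ∀ i, Continuous (ρ i) ∧ Schur (ρ i)) {δ' : ℝ} (hδ'0 : 0 < δ') :
    ∃ B : ℕ, ∀ (K : Type) [Field K] [NumberField K] (ι : Type) [DecidableEq ι]
      (x : HeightOneSpectrum (𝓞 K) → ι → G),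
      (∀ S : Finset ι, S.card ≤ 2 → TLc x (fun _ => μ) S) → ∀ S : Finset ι, ∀ᶠ N : ℕ in atTop,
      ((Fintype.piFinset fun _ : σ => S).filter fun t =>
        δ' < ‖mn (fun v => ∏ i, chi (ρ i) (x v (t i))) N -
          ∫ g, ∏ i, chi (ρ i) (g i) ∂(Measure.pi fun _ => μ)‖).card ≤
        B * S.card ^ (Fintype.card σ - 1) := by
  by_cases hn : ∃ i, ∃ g, ρ i g ≠ 1
  · have h5 := int_prod_chi (μ := fun _ : σ => μ) (fun i => (h3 i).1) (fun i => (h3 i).2) hn
    obtain ⟨i, hi⟩ := hn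
    refine ⟨⌊(∏ a : {a // a ≠ i}, (m a : ℝ)) ^ 2 * 2 / δ' ^ 2⌋₊, fun K _ _ ι _ x h2 S => ?_⟩
    rw [h5]
    simp only [sub_zero]
    exact tuple_chi h2 (fun i => (h3 i).1) (fun i => (h3 i).2) hi hδ'0 S
  · push Not at hn
    refine ⟨0, fun K _ _ ι _ x h2 S => ?_⟩
    have h7 : ∀ g : σ → G, ∏ i, chi (ρ i) (g i) = ∏ i, (m i : ℂ) := fun g =>
      Finset.prod_congr rfl fun i _ => chi_triv (hn i) _
    have h7' : ∀ (t : σ → ι) v, ∏ i, chi (ρ i) (x v (t i)) = ∏ i, (m i : ℂ) :=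
      fun t v => h7 fun i => x v (t i)
    simp only [h7, h7']
    have h8 : ∫ _ : (σ → G), (∏ i, (m i : ℂ)) ∂(Measure.pi fun _ => μ) =
        ∏ i, (m i : ℂ) := by
      simp
    rw [h8]
    have h9 := (mn_constC (K := K) (∏ i, (m i : ℂ))).sub_const (∏ i, (m i : ℂ))
    rw [sub_self] at h9
    have h10 := h9.norm
    rw [norm_zero] at h10
    filter_upwards [h10.eventually_lt_const hδ'0] with N hN
    rw [Finset.filter_false_of_mem fun t _ => not_lt.2 hN.le]
    simp

open Classical in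
/-- **Almost all tuples.** -/
theorem tuple_all [Nonempty σ]
    {f : (σ → G) → ℂ} (hf : Continuous f) (hcl : ∀ g h, f (h * g * h⁻¹) = f g)
    {δ : ℝ} (hδ : 0 < δ) : ∃ B : ℕ, ∀ (K : Type) [Field K] [NumberField K] (ι : Type)
      [DecidableEq ι] (x : HeightOneSpectrum (𝓞 K) → ι → G),
      (∀ S : Finset ι, S.card ≤ 2 → TLc x (fun _ => μ) S) → ∀ S : Finset ι, ∀ᶠ N : ℕ in atTop,
      ((Fintype.piFinset fun _ : σ => S).filter fun t =>
        δ < ‖mn (fun v => f fun a => x v (t a)) N - ∫ g, f g ∂(Measure.pi fun _ => μ)‖).card ≤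
        B * S.card ^ (Fintype.card σ - 1) := by
  obtain ⟨Fn, h1, h2'⟩ := dn_dense (fun _ : σ => μ) hf hcl (ε := δ / 4) (by positivity)
  obtain ⟨J, _, m, ρ, a, h3, h4⟩ := h1
  set A : ℝ := ∑ j, ‖a j‖ + 1 with hA
  have hA0 : 0 < A := by
    have : 0 ≤ ∑ j, ‖a j‖ := Finset.sum_nonneg fun j _ => norm_nonneg _
    linarith
  set δ' : ℝ := δ / (2 * A) with hδ'
  have hδ'0 : 0 < δ' := by positivity
  have hci : ∀ j, Continuous fun g : σ → G => ∏ i, chi (ρ j i) (g i) := fun j =>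
    continuous_finsetProd _ fun i _ => (cont_chi (h3 j i).1).comp (continuous_apply i)
  have hFc : Continuous Fn := by
    have : Fn = fun g => ∑ j, a j * ∏ i, chi (ρ j i) (g i) := funext h4
    rw [this]
    exact continuous_finsetSum _ fun j _ => continuous_const.mul (hci j)
  choose B hB using fun j => tuple_term (μ := μ) (fun i => h3 j i) hδ'0
  refine ⟨∑ j, B j, fun K _ _ ι _ x h2 S => ?_⟩
  have hev : ∀ᶠ N : ℕ in atTop, ∀ j, ((Fintype.piFinset fun _ : σ => S).filter fun t =>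
      δ' < ‖mn (fun v => ∏ i, chi (ρ j i) (x v (t i))) N -
        ∫ g, ∏ i, chi (ρ j i) (g i) ∂(Measure.pi fun _ => μ)‖).card ≤
      B j * S.card ^ (Fintype.card σ - 1) := Filter.eventually_all.2 fun j => hB j K ι x h2 S
  filter_upwards [hev] with N hN
  have h5 : ∫ g, Fn g ∂(Measure.pi fun _ => μ) =
      ∑ j, a j * ∫ g, ∏ i, chi (ρ j i) (g i) ∂(Measure.pi fun _ => μ) := by
    simp only [h4]
    rw [integral_finsetSum _ fun j _ => (intn (fun _ : σ => μ) (hci j)).const_mul _]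
    exact Finset.sum_congr rfl fun j _ => integral_const_mul _ _
  have h6 : ‖(∫ g, Fn g ∂(Measure.pi fun _ => μ)) - ∫ g, f g ∂(Measure.pi fun _ => μ)‖ ≤
      δ / 4 := by
    rw [← integral_sub (intn (fun _ : σ => μ) hFc) (intn (fun _ : σ => μ) hf)]
    refine (norm_integral_le_integral_norm _).trans ?_
    have h7 : ∫ g, ‖Fn g - f g‖ ∂(Measure.pi fun _ => μ) ≤
        ∫ _, δ / 4 ∂(Measure.pi fun _ : σ => μ) := by
      refine integral_mono ((intn (fun _ : σ => μ) hFc).sub (intn (fun _ : σ => μ) hf)).norm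
        (integrable_const _) fun g => ?_
      simp only
      rw [norm_sub_rev]
      exact h2' g
    simpa using h7
  have hsub : ((Fintype.piFinset fun _ : σ => S).filter fun t =>
      δ < ‖mn (fun v => f fun a => x v (t a)) N - ∫ g, f g ∂(Measure.pi fun _ => μ)‖) ⊆
      Finset.univ.biUnion fun j => (Fintype.piFinset fun _ : σ => S).filter fun t =>
        δ' < ‖mn (fun v => ∏ i, chi (ρ j i) (x v (t i))) N -
          ∫ g, ∏ i, chi (ρ j i) (g i) ∂(Measure.pi fun _ => μ)‖ := by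
    intro t ht
    have ht1 := Finset.mem_filter.1 ht
    by_contra hcon
    have hall : ∀ j, ‖mn (fun v => ∏ i, chi (ρ j i) (x v (t i))) N -
        ∫ g, ∏ i, chi (ρ j i) (g i) ∂(Measure.pi fun _ => μ)‖ ≤ δ' := by
      intro j
      by_contra h7
      push Not at h7
      exact hcon (Finset.mem_biUnion.2 ⟨j, Finset.mem_univ _, Finset.mem_filter.2 ⟨ht1.1, h7⟩⟩)
    have h7 : ‖mn (fun v => Fn fun a => x v (t a)) N - ∫ g, Fn g ∂(Measure.pi fun _ => μ)‖ ≤
        δ / 2 := by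
      have e : (fun v => Fn fun a => x v (t a)) =
          fun v => ∑ j, a j * ∏ i, chi (ρ j i) (x v (t i)) := funext fun v => h4 _
      rw [e, mn_sum, h5, ← Finset.sum_sub_distrib]
      refine (norm_sum_le _ _).trans ?_
      have h8 : ∀ j ∈ Finset.univ, ‖mn (fun v => a j * ∏ i, chi (ρ j i) (x v (t i))) N -
          a j * ∫ g, ∏ i, chi (ρ j i) (g i) ∂(Measure.pi fun _ => μ)‖ ≤ ‖a j‖ * δ' := by
        intro j _
        rw [mn_mul, ← mul_sub, norm_mul]
        exact mul_le_mul_of_nonneg_left (hall j) (norm_nonneg _)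
      refine (Finset.sum_le_sum h8).trans ?_
      rw [← Finset.sum_mul]
      have h9 : ∑ j, ‖a j‖ ≤ A := by rw [hA]; linarith
      calc (∑ j, ‖a j‖) * δ' ≤ A * δ' := mul_le_mul_of_nonneg_right h9 hδ'0.le
        _ = δ / 2 := by
            rw [hδ']
            field_simp
    have h8 := mn_sub_le (K := K) (F := fun v => f fun a => x v (t a))
      (F' := fun v => Fn fun a => x v (t a)) (ε := δ / 4) (fun v => h2' _) (by positivity) N
    have h9 : mn (fun v => f fun a => x v (t a)) N - ∫ g, f g ∂(Measure.pi fun _ => μ) =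
        (mn (fun v => f fun a => x v (t a)) N - mn (fun v => Fn fun a => x v (t a)) N) +
        (mn (fun v => Fn fun a => x v (t a)) N - ∫ g, Fn g ∂(Measure.pi fun _ => μ)) +
        ((∫ g, Fn g ∂(Measure.pi fun _ => μ)) - ∫ g, f g ∂(Measure.pi fun _ => μ)) := by ring
    have h10 := ht1.2
    rw [h9] at h10
    have h11 := norm_add_le ((mn (fun v => f fun a => x v (t a)) N -
      mn (fun v => Fn fun a => x v (t a)) N) +
      (mn (fun v => Fn fun a => x v (t a)) N - ∫ g, Fn g ∂(Measure.pi fun _ => μ)))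
      ((∫ g, Fn g ∂(Measure.pi fun _ => μ)) - ∫ g, f g ∂(Measure.pi fun _ => μ))
    have h12 := norm_add_le (mn (fun v => f fun a => x v (t a)) N -
      mn (fun v => Fn fun a => x v (t a)) N)
      (mn (fun v => Fn fun a => x v (t a)) N - ∫ g, Fn g ∂(Measure.pi fun _ => μ))
    linarith
  refine (Finset.card_le_card hsub).trans ?_
  refine Finset.card_biUnion_le.trans ?_
  rw [Finset.sum_mul]
  exact Finset.sum_le_sum fun j _ => hN j

end

end Pool.Agent.Hp428.ST
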