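import Pool.Agent.Hp428.ST.Tup

set_option autoImplicit false
set_option linter.unusedSectionVars false

/-!
# Zeros and poles for almost all tuples of a large family
-/

namespace Pool.Agent.Hp428.ST

open Complex Filter Topology ComplexConjugate MeasureTheory NumberField IsDedekindDomain
  Pool.Agent.W540.BE Pool.Agent.TH553.RS Pool.Agent.H341R2 Pool.Agent.TH553.ST

section

variable {K : Type} [Field K] [NumberField K]

/-- Bessel's inequality for finitely many real-orthonormal functions -/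
theorem bess_M {U : Ultrafilter ℝ} (hU : (U : Filter ℝ) ≤ 𝓝[>] 0) {κ : Type} [DecidableEq κ]
    (F : Finset κ)
    {w : κ → HeightOneSpectrum (𝓞 K) → ℂ} {u : HeightOneSpectrum (𝓞 K) → ℂ} (hu : Bc u)
    (hw : ∀ k ∈ F, Bc (w k))
    (hg : ∀ k ∈ F, ∀ l ∈ F, (M (nm K) U fun v => (w k v * conj (w l v)).re) =
      if k = l then 1 else 0) :
    ∑ k ∈ F, (M (nm K) U fun v => (u v * w k v).re) ^ 2 ≤ M (nm K) U fun v => ‖u v‖ ^ 2 := by
  have hN := sysF K
  set b : κ → ℝ := fun k => M (nm K) U fun v => (u v * w k v).re with hb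
  have hbd1 : ∀ k ∈ F, Bd fun v => (u v * w k v).re := fun k hk => (hu.mul (hw k hk)).re
  have hbd2 : ∀ k ∈ F, ∀ l ∈ F, Bd fun v => (w k v * conj (w l v)).re := fun k hk l hl =>
    ((hw k hk).mul (hw l hl).conj).re
  set Z : HeightOneSpectrum (𝓞 K) → ℂ := fun v => ∑ k ∈ F, (b k : ℂ) * w k v with hZ
  have e : ∀ v, ‖conj (u v) - Z v‖ ^ 2 = (‖u v‖ ^ 2 + ∑ k ∈ F, (-2 * b k) * (u v * w k v).re) +
      ∑ k ∈ F, ∑ l ∈ F, (b k * b l) * (w k v * conj (w l v)).re := by
    intro v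
    have h1 : ‖conj (u v) - Z v‖ ^ 2 = ‖u v‖ ^ 2 - 2 * (u v * Z v).re + ‖Z v‖ ^ 2 := by
      rw [← Complex.normSq_eq_norm_sq, ← Complex.normSq_eq_norm_sq, ← Complex.normSq_eq_norm_sq,
        Complex.normSq_apply, Complex.normSq_apply, Complex.normSq_apply]
      simp only [Complex.sub_re, Complex.sub_im, Complex.conj_re, Complex.conj_im,
        Complex.mul_re]
      ring
    have h2 : (u v * Z v).re = ∑ k ∈ F, b k * (u v * w k v).re := by
      rw [hZ]
      simp only
      rw [Finset.mul_sum, Complex.re_sum]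
      refine Finset.sum_congr rfl fun k _ => ?_
      rw [← Complex.re_ofReal_mul]
      congr 1
      ring
    have h3 : ‖Z v‖ ^ 2 = ∑ k ∈ F, ∑ l ∈ F, (b k * b l) * (w k v * conj (w l v)).re := by
      have h4 : ((‖Z v‖ ^ 2 : ℝ) : ℂ) = Z v * conj (Z v) := by
        rw [Complex.mul_conj, Complex.normSq_eq_norm_sq]
      have h5 : ‖Z v‖ ^ 2 = (Z v * conj (Z v)).re := by
        rw [← h4, Complex.ofReal_re]
      rw [h5, hZ]
      simp only
      rw [map_sum, Finset.sum_mul_sum, Complex.re_sum]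
      refine Finset.sum_congr rfl fun k _ => ?_
      rw [Complex.re_sum]
      refine Finset.sum_congr rfl fun l _ => ?_
      rw [← Complex.re_ofReal_mul, map_mul, Complex.conj_ofReal]
      congr 1
      push_cast
      ring
    rw [h1, h2, h3, Finset.mul_sum]
    have h6 : ∑ k ∈ F, (-2 * b k) * (u v * w k v).re =
        -∑ k ∈ F, 2 * (b k * (u v * w k v).re) := by
      rw [← Finset.sum_neg_distrib]
      exact Finset.sum_congr rfl fun k _ => by ring
    rw [h6]
    ring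
  have hs1 : Bd fun v => ∑ k ∈ F, (-2 * b k) * (u v * w k v).re :=
    Bd.sum F fun k hk => (hbd1 k hk).const_mul _
  have hs2 : Bd fun v => ∑ k ∈ F, ∑ l ∈ F, (b k * b l) * (w k v * conj (w l v)).re :=
    Bd.sum F fun k hk => Bd.sum F fun l hl => (hbd2 k hk l hl).const_mul _
  have h0 : 0 ≤ M (nm K) U fun v => ‖conj (u v) - Z v‖ ^ 2 := by
    simp only [e]
    refine M_nonneg hN hU ((hu.norm.sq.add hs1).add hs2) fun v => ?_
    rw [← e]
    exact sq_nonneg _
  simp only [e] at h0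
  rw [M_add hN hU (hu.norm.sq.add hs1) hs2, M_add hN hU hu.norm.sq hs1,
    M_sum hN hU F fun k hk => (hbd1 k hk).const_mul _,
    M_sum hN hU F fun k hk => Bd.sum F fun l hl => (hbd2 k hk l hl).const_mul _] at h0
  have h1 : ∑ k ∈ F, (M (nm K) U fun v => (-2 * b k) * (u v * w k v).re) =
      -2 * ∑ k ∈ F, b k ^ 2 := by
    rw [Finset.mul_sum]
    refine Finset.sum_congr rfl fun k hk => ?_
    rw [M_const_mul hN hU (hbd1 k hk)]
    change -2 * b k * b k = _
    ring
  have h2 : ∑ k ∈ F, (M (nm K) U fun v => ∑ l ∈ F, (b k * b l) * (w k v * conj (w l v)).re) =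
      ∑ k ∈ F, b k ^ 2 := by
    refine Finset.sum_congr rfl fun k hk => ?_
    rw [M_sum hN hU F fun l hl => (hbd2 k hk l hl).const_mul _]
    have h3 : ∀ l ∈ F, (M (nm K) U fun v => (b k * b l) * (w k v * conj (w l v)).re) =
        if k = l then b k ^ 2 else 0 := by
      intro l hl
      rw [M_const_mul hN hU (hbd2 k hk l hl), hg k hk l hl]
      by_cases hkl : k = l
      · subst hkl
        rw [if_pos rfl, if_pos rfl]
        ring
      · rw [if_neg hkl, if_neg hkl, mul_zero]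
    rw [Finset.sum_congr rfl h3, Finset.sum_ite_eq, if_pos hk]
  rw [h1, h2] at h0
  linarith

end

section

variable {K : Type} [Field K] [NumberField K]
variable {ι : Type} [DecidableEq ι] {G : Type} [Group G]
  [TopologicalSpace G] [IsTopologicalGroup G] [CompactSpace G]
  [T2Space G] [SecondCountableTopology G]
  [MeasurableSpace G] [BorelSpace G]
  {x : HeightOneSpectrum (𝓞 K) → ι → G} {μ : Measure G}
  [IsProbabilityMeasure μ] [μ.IsHaarMeasure]
  {d : ℕ} {ρ : G →* Matrix.unitaryGroup (Fin d) ℂ}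

/-- the twisted characters -/
noncomputable def wt' (ρ : G →* Matrix.unitaryGroup (Fin d) ℂ)
    (x : HeightOneSpectrum (𝓞 K) → ι → G) (k : ι × ℝ) (v : HeightOneSpectrum (𝓞 K)) : ℂ :=
  chi ρ (x v k.1) * ((nm K v : ℕ) : ℂ) ^ (-(k.2 * I : ℂ))

theorem bc_wt (k : ι × ℝ) : Bc (wt' (K := K) ρ x k) := by
  refine ⟨d, fun v => ?_⟩
  unfold wt'
  rw [norm_mul, norm_cpow_I (nm_pos v), mul_one]
  exact norm_chi ρ _

open Classical in
theorem gram_M (h2 : ∀ S : Finset ι, S.card ≤ 2 → TLc x (fun _ => μ) S) (hc : Continuous ρ)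
    (hs : Schur ρ) (hn : ∃ g, ρ g ≠ 1) {U : Ultrafilter ℝ} (hU : (U : Filter ℝ) ≤ 𝓝[>] 0)
    (k l : ι × ℝ) : (M (nm K) U fun v => (wt' ρ x k v * conj (wt' ρ x l v)).re) =
      if k = l then 1 else 0 := by
  have hd : d ≠ 0 := ne_zero_of_nt hn
  have hcj : Continuous fun g => conj (chi ρ g) := Complex.continuous_conj.comp (cont_chi hc)
  obtain ⟨p, τ⟩ := k
  obtain ⟨q, σ⟩ := l
  have e : (fun v => (wt' ρ x (p, τ) v * conj (wt' ρ x (q, σ) v)).re) = fun v =>
      ((chi ρ (x v p) * conj (chi ρ (x v q))) *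
        ((nm K v : ℕ) : ℂ) ^ (-(((τ - σ : ℝ) : ℂ) * I))).re := by
    funext v
    unfold wt'
    have hqn : ((nm K v : ℕ) : ℂ) ≠ 0 := by exact_mod_cast (nm_pos v).ne'
    have e2 : (-(((τ - σ : ℝ) : ℂ) * I)) = -(τ * I : ℂ) + (σ * I : ℂ) := by
      push_cast
      ring
    rw [map_mul, conj_cpow_I (nm_pos v), e2, Complex.cpow_add _ _ hqn]
    congr 1
    ring
  rw [e]
  have hbd : ∀ v, ‖chi ρ (x v p) * conj (chi ρ (x v q))‖ ≤ (d : ℝ) * d := by
    intro v
    rw [norm_mul, Complex.norm_conj]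
    exact mul_le_mul (norm_chi ρ _) (norm_chi ρ _) (norm_nonneg _) (Nat.cast_nonneg _)
  by_cases hpq : p = q
  · subst hpq
    have h3 := h2 {p} (by simp) (fun _ g => chi ρ g * conj (chi ρ g))
      (fun _ => (cont_chi hc).mul hcj) (fun _ g h => by rw [chi_cls])
    simp only [Finset.prod_singleton] at h3
    have h4 : ∫ g, chi ρ g * conj (chi ρ g) ∂μ = ((1 : ℝ) : ℂ) := by
      have h1 : (fun g => chi ρ g * conj (chi ρ g)) = fun g => ((‖chi ρ g‖ ^ 2 : ℝ) : ℂ) := by
        funext g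
        rw [Complex.mul_conj, Complex.normSq_eq_norm_sq]
      have h2 : ∫ g, ((‖chi ρ g‖ ^ 2 : ℝ) : ℂ) ∂μ = ((∫ g, ‖chi ρ g‖ ^ 2 ∂μ : ℝ) : ℂ) :=
        integral_ofReal
      rw [h1, h2, int_sq hc hs hd]
    rw [h4] at h3
    have h5 := mean_edge hbd 1 (mn_tendsto h3) (τ - σ)
    have h6 := M_of_tendsto hU (φ := fun v => ((chi ρ (x v p) * conj (chi ρ (x v p))) *
        ((nm K v : ℕ) : ℂ) ^ (-(((τ - σ : ℝ) : ℂ) * I))).re) h5
    rw [h6]
    by_cases hτ : τ = σ
    · rw [if_pos (by rw [hτ, sub_self]), if_pos (by rw [hτ])]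
    · rw [if_neg (sub_ne_zero.2 hτ), if_neg (by
        intro h
        exact hτ (Prod.ext_iff.1 h).2)]
  · rw [if_neg (by
      intro h
      exact hpq (Prod.ext_iff.1 h).1)]
    have h3 := h2 {p, q} (Finset.card_le_two)
      (fun k g => if k = p then chi ρ g else conj (chi ρ g))
      (fun k => by
        by_cases hk : k = p
        · simp only [hk, if_true]
          exact cont_chi hc
        · simp only [hk, if_false]
          exact hcj)
      (fun k g h => by rw [chi_cls])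
    rw [Finset.prod_pair hpq] at h3
    simp only [Finset.prod_pair hpq, if_true, if_neg (Ne.symm hpq)] at h3
    rw [int_chi hc hs hn, zero_mul] at h3
    exact M_height hU ⟨_, hbd⟩ h3 (τ - σ)

/-- the members of the family with a zero or pole -/
theorem count_L (h2 : ∀ S : Finset ι, S.card ≤ 2 → TLc x (fun _ => μ) S) (hc : Continuous ρ)
    (hs : Schur ρ) (hn : ∃ g, ρ g ≠ 1) {u : HeightOneSpectrum (𝓞 K) → ℂ} {D : ℝ}
    (hu : ∀ v, ‖u v‖ ≤ D) (hD : 0 ≤ D) {U : Ultrafilter ℝ} (hU : (U : Filter ℝ) ≤ 𝓝[>] 0)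
    (F : Finset ι) (h : ∀ p ∈ F, ∃ τ : ℝ,
      1 ≤ |M (nm K) U fun v => (u v * wt' ρ x (p, τ) v).re|) : (F.card : ℝ) ≤ D ^ 2 := by
  classical
  choose! t ht using h
  set F' : Finset (ι × ℝ) := F.image fun p => (p, t p) with hF'
  have hinj : Function.Injective fun p : ι => (p, t p) := fun p q hpq => (Prod.ext_iff.1 hpq).1
  have hcard : F'.card = F.card := Finset.card_image_of_injective _ hinj
  have h1 := bess_M (K := K) hU F' (w := fun k => wt' ρ x k) (u := u) ⟨D, hu⟩
    (fun k _ => bc_wt k) (fun k _ l _ => gram_M h2 hc hs hn hU k l)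
  have h3 : (F'.card : ℝ) ≤ ∑ k ∈ F', (M (nm K) U fun v => (u v * wt' ρ x k v).re) ^ 2 := by
    rw [← nsmul_one, ]
    refine Finset.card_nsmul_le_sum _ _ _ fun k hk => ?_
    obtain ⟨p, hp, hpk⟩ := Finset.mem_image.1 hk
    rw [← hpk, ← sq_abs]
    exact one_le_pow₀ (ht p hp)
  have h4 : (M (nm K) U fun v => ‖u v‖ ^ 2) ≤ D ^ 2 := by
    have h5 := M_mono (sysF K) hU (φ := fun v => ‖u v‖ ^ 2) (ψ := fun _ => D ^ 2)
      (Bc.norm (⟨D, hu⟩ : Bc u)).sq (Bd.const _) fun v => pow_le_pow_left₀ (norm_nonneg _) (hu v) 2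
    rw [M_const (sysF K) hU] at h5
    exact h5
  rw [← hcard]
  linarith

variable {σ : Type} [Fintype σ] [DecidableEq σ]

open Classical in
/-- **Zeros and poles for almost all tuples.** -/
theorem tuple_L (h2 : ∀ S : Finset ι, S.card ≤ 2 → TLc x (fun _ => μ) S)
    {m : σ → ℕ} {r : ∀ a, G →* Matrix.unitaryGroup (Fin (m a)) ℂ}
    (hc : ∀ a, Continuous (r a)) (hs : ∀ a, Schur (r a)) {a₀ : σ} (hn : ∃ g, r a₀ g ≠ 1)
    (S : Finset ι) :
    ((Fintype.piFinset fun _ : σ => S).filter fun t => ∃ (τ : ℝ) (Λ : ℂ → ℂ),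
      MeromorphicAt Λ (1 + τ * I) ∧
      (∀ᶠ s in 𝓝 ((1 : ℂ) + τ * I), (1 : ℝ) < s.re →
        Λ s = LT r Finset.univ (fun v a => x v (t a)) s) ∧
      meromorphicOrderAt Λ (1 + τ * I) ≠ 0).card ≤
      (∏ a : {a // a ≠ a₀}, m a ^ 2) * S.card ^ (Fintype.card σ - 1) := by
  obtain ⟨U, hU⟩ := Ultrafilter.exists_le (𝓝[>] (0 : ℝ))
  set D : ℝ := ∏ a : {a // a ≠ a₀}, (m a : ℝ) with hD
  have hD0 : 0 ≤ D := Finset.prod_nonneg fun a _ => Nat.cast_nonneg _
  have hD2 : D ^ 2 = ((∏ a : {a // a ≠ a₀}, m a ^ 2 : ℕ) : ℝ) := by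
    rw [hD, ← Finset.prod_pow]
    push_cast
    rfl
  set T := (Fintype.piFinset fun _ : σ => S).filter fun t => ∃ (τ : ℝ) (Λ : ℂ → ℂ),
      MeromorphicAt Λ (1 + τ * I) ∧
      (∀ᶠ s in 𝓝 ((1 : ℂ) + τ * I), (1 : ℝ) < s.re →
        Λ s = LT r Finset.univ (fun v a => x v (t a)) s) ∧
      meromorphicOrderAt Λ (1 + τ * I) ≠ 0 with hT
  set res : (σ → ι) → ({a // a ≠ a₀} → ι) := fun t a => t a with hres
  have hmaps : ∀ t ∈ T, res t ∈ Fintype.piFinset fun _ : {a // a ≠ a₀} => S := by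
    intro t ht
    rw [Fintype.mem_piFinset]
    intro a
    exact Fintype.mem_piFinset.1 (Finset.mem_filter.1 ht).1 _
  have h3 := Finset.card_le_mul_card_image_of_maps_to hmaps (∏ a : {a // a ≠ a₀}, m a ^ 2)
    fun q _ => by
    set u : HeightOneSpectrum (𝓞 K) → ℂ := fun v =>
      ∏ a : {a // a ≠ a₀}, chi (r a) (x v (q a)) with hu
    have hub : ∀ v, ‖u v‖ ≤ D := by
      intro v
      rw [hu, hD]
      simp only
      rw [norm_prod]
      exact Finset.prod_le_prod (fun a _ => norm_nonneg _) fun a _ => norm_chi (r a) _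
    set Fq : Finset ι := (T.filter fun t => res t = q).image fun t => t a₀ with hFq
    have hinj : Set.InjOn (fun t : σ → ι => t a₀) (T.filter fun t => res t = q : Finset (σ → ι)) := by
      intro t ht t' ht' h
      have ht1 := Finset.mem_filter.1 (Finset.mem_coe.1 ht)
      have ht1' := Finset.mem_filter.1 (Finset.mem_coe.1 ht')
      funext a
      by_cases ha : a = a₀
      · rw [ha]
        exact h
      · have h5 : t a = q ⟨a, ha⟩ := congrFun ht1.2 ⟨a, ha⟩
        have h6 : t' a = q ⟨a, ha⟩ := congrFun ht1'.2 ⟨a, ha⟩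
        rw [h5, h6]
    have hcard : Fq.card = (T.filter fun t => res t = q).card := Finset.card_image_of_injOn hinj
    have h4 := count_L h2 (hc a₀) (hs a₀) hn hub hD0 hU Fq fun p hp => by
      obtain ⟨t, ht, htp⟩ := Finset.mem_image.1 hp
      have ht1 := Finset.mem_filter.1 ht
      obtain ⟨τ, Λ, hΛ1, hΛ2, hΛ3⟩ := (Finset.mem_filter.1 ht1.1).2
      refine ⟨τ, ?_⟩
      obtain ⟨k, hk1, hk2⟩ := order_T hΛ1 hΛ2
      have hk0 : k ≠ 0 := by
        rintro rfl
        exact hΛ3 hk1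
      have e1 : (fun v => (u v * wt' (r a₀) x (p, τ) v).re) = fun v =>
          ((∏ a ∈ Finset.univ, chi (r a) (x v (t a))) *
            ((nm K v : ℕ) : ℂ) ^ (-(τ * I : ℂ))).re := by
        funext v
        rw [Fintype.prod_eq_mul_prod_subtype_ne (fun a => chi (r a) (x v (t a))) a₀]
        have h6 : u v = ∏ a : {a // a ≠ a₀}, chi (r a) (x v (t a)) := by
          rw [hu]
          simp only
          refine Finset.prod_congr rfl fun a _ => ?_
          have h5 : t a = q a := congrFun ht1.2 a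
          rw [h5]
        have h7 : wt' (r a₀) x (p, τ) v = chi (r a₀) (x v (t a₀)) *
            ((nm K v : ℕ) : ℂ) ^ (-(τ * I : ℂ)) := by
          unfold wt'
          rw [← htp]
        rw [← h6, h7]
        congr 1
        ring
      rw [e1]
      set φ : HeightOneSpectrum (𝓞 K) → ℝ := fun v =>
        ((∏ a ∈ Finset.univ, chi (r a) (x v (t a))) *
            ((nm K v : ℕ) : ℂ) ^ (-(τ * I : ℂ))).re with hφ
      have hφb : Bd φ := by
        have e2 : φ = fun v => (u v * wt' (r a₀) x (p, τ) v).re := e1.symm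
        rw [e2]
        have hub' : Bc u := ⟨D, hub⟩
        exact (Bc.mul hub' (bc_wt (p, τ))).re
      have h8 := M_lim (sysF K) hU hφb
      have h9 := h8.sub ((size_T (π := r) Finset.univ (fun v a => x v (t a)) τ).2.mono_left hU)
      rw [sub_zero] at h9
      have h10 : Tendsto (szT r Finset.univ (fun v a => x v (t a)) τ) U
          (𝓝 (M (nm K) U φ)) := by
        refine h9.congr fun ε => ?_
        ring
      have h11 := tendsto_nhds_unique h10 (hk2.mono_left hU)
      rw [h11, abs_neg]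
      exact_mod_cast Int.one_le_abs hk0
    rw [← hcard]
    rw [hD2] at h4
    exact_mod_cast h4
  refine h3.trans (le_of_eq ?_)
  rw [Fintype.card_piFinset, Finset.prod_const, Finset.card_univ]
  have h4 : Fintype.card {a // a ≠ a₀} = Fintype.card σ - 1 := by
    have h := Fintype.card_subtype_compl (fun a => a = a₀)
    simpa using h
  rw [h4]

end

end Pool.Agent.Hp428.ST
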